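import Mathlib

set_option autoImplicit false

/-!
Derandomised choices with small discrepancy (second moment potential).
-/

namespace Pool.Agent.H35.BW

open Finset

theorem exists_le_avg {Ω : Type} [Fintype Ω] (w f : Ω → ℝ) (hw : ∀ ω, 0 ≤ w ω)
    (hw1 : ∑ ω, w ω = 1) (c : ℝ) (h : ∑ ω, w ω * f ω ≤ c) : ∃ ω, f ω ≤ c := by
  by_contra hno
  push Not at hno
  have h1 : ∑ ω, w ω * (f ω - c) ≤ 0 := by
    have : ∑ ω, w ω * (f ω - c) = ∑ ω, w ω * f ω - c := by
      simp_rw [mul_sub, sum_sub_distrib, ← sum_mul, hw1, one_mul]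
    rw [this]
    linarith
  have h2 : ∀ ω ∈ univ, 0 ≤ w ω * (f ω - c) := fun ω _ =>
    mul_nonneg (hw ω) (by linarith [hno ω])
  have h3 := (sum_eq_zero_iff_of_nonneg h2).1 (le_antisymm h1 (sum_nonneg h2))
  have h4 : ∀ ω, w ω = 0 := by
    intro ω
    rcases mul_eq_zero.1 (h3 ω (mem_univ _)) with h | h
    · exact h
    · exfalso
      linarith [hno ω]
  have h5 : ∑ ω, w ω = 0 := sum_eq_zero (fun ω _ => h4 ω)
  linarith

theorem derand {Ω V : Type} [Fintype Ω] [Fintype V] (w : Ω → ℝ) (hw : ∀ ω, 0 ≤ w ω)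
    (hw1 : ∑ ω, w ω = 1) (X : ℕ → Ω → V → ℝ) (L : ℝ) (hX0 : ∀ q ω a, 0 ≤ X q ω a)
    (hX : ∀ q ω, ∑ a, X q ω a ≤ L) (M : ℕ) : ∃ o : ℕ → Ω,
    ∑ a, (∑ q ∈ range M, (X q (o q) a - ∑ ω, w ω * X q ω a)) ^ 2 ≤ M * L ^ 2 := by
  have : Nonempty Ω := by
    by_contra h
    rw [not_nonempty_iff] at h
    simp at hw1
  induction M with
  | zero =>
    exact ⟨fun _ => Classical.arbitrary Ω, by simp⟩
  | succ M ih =>
    obtain ⟨o, ho⟩ := ih
    obtain ⟨D, hD⟩ : ∃ D : V → ℝ,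
      D = fun a => ∑ q ∈ range M, (X q (o q) a - ∑ ω, w ω * X q ω a) := ⟨_, rfl⟩
    obtain ⟨μ, hμ⟩ : ∃ μ : V → ℝ, μ = fun a => ∑ ω, w ω * X M ω a := ⟨_, rfl⟩
    have hμ' : ∀ a, ∑ ω, w ω * X M ω a = μ a := fun a => by rw [hμ]
    have hL0 : 0 ≤ L := (sum_nonneg (fun a _ => hX0 0 (Classical.arbitrary Ω) a)).trans
      (hX 0 (Classical.arbitrary Ω))
    have hsq : ∀ ω, ∑ a, (X M ω a) ^ 2 ≤ L ^ 2 := by
      intro ω
      calc ∑ a, (X M ω a) ^ 2 ≤ ∑ a, X M ω a * L := by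
            refine sum_le_sum (fun a _ => ?_)
            rw [pow_two]
            refine mul_le_mul_of_nonneg_left ?_ (hX0 M ω a)
            exact (single_le_sum (fun a _ => hX0 M ω a) (mem_univ a)).trans (hX M ω)
        _ = (∑ a, X M ω a) * L := by rw [sum_mul]
        _ ≤ L * L := mul_le_mul_of_nonneg_right (hX M ω) hL0
        _ = L ^ 2 := by ring
    obtain ⟨ω, hω⟩ := exists_le_avg w (fun ω => ∑ a, (D a + (X M ω a - μ a)) ^ 2) hw hw1
      (∑ a, D a ^ 2 + L ^ 2) (by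
        have e1 : ∀ a, ∑ ω, w ω * (D a + (X M ω a - μ a)) ^ 2 =
            D a ^ 2 + ∑ ω, w ω * (X M ω a) ^ 2 - μ a ^ 2 := by
          intro a
          have : ∀ ω, w ω * (D a + (X M ω a - μ a)) ^ 2 = w ω * (D a - μ a) ^ 2 +
              (2 * (D a - μ a)) * (w ω * X M ω a) + w ω * (X M ω a) ^ 2 := fun ω => by ring
          simp_rw [this, sum_add_distrib, ← mul_sum, ← sum_mul, hw1, hμ']
          ring
        calc ∑ ω, w ω * ∑ a, (D a + (X M ω a - μ a)) ^ 2
            = ∑ a, ∑ ω, w ω * (D a + (X M ω a - μ a)) ^ 2 := by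
              simp_rw [mul_sum]
              rw [sum_comm]
          _ = ∑ a, (D a ^ 2 + ∑ ω, w ω * (X M ω a) ^ 2 - μ a ^ 2) :=
              sum_congr rfl (fun a _ => e1 a)
          _ ≤ ∑ a, (D a ^ 2 + ∑ ω, w ω * (X M ω a) ^ 2) := by
              refine sum_le_sum (fun a _ => ?_)
              linarith [sq_nonneg (μ a)]
          _ = ∑ a, D a ^ 2 + ∑ ω, w ω * ∑ a, (X M ω a) ^ 2 := by
              rw [sum_add_distrib]
              congr 1
              simp_rw [mul_sum]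
              rw [sum_comm]
          _ ≤ ∑ a, D a ^ 2 + ∑ ω, w ω * L ^ 2 := by
              refine add_le_add le_rfl (sum_le_sum (fun ω _ => ?_))
              exact mul_le_mul_of_nonneg_left (hsq ω) (hw ω)
          _ = ∑ a, D a ^ 2 + L ^ 2 := by rw [← sum_mul, hw1, one_mul])
    refine ⟨Function.update o M ω, ?_⟩
    have e2 : ∀ a, ∑ q ∈ range (M + 1), (X q (Function.update o M ω q) a -
        ∑ ω, w ω * X q ω a) = D a + (X M ω a - μ a) := by
      intro a
      rw [sum_range_succ, Function.update_self, hμ', hD]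
      congr 1
      refine sum_congr rfl (fun q hq => ?_)
      rw [mem_range] at hq
      rw [Function.update_of_ne (by omega)]
    simp_rw [e2]
    refine hω.trans ?_
    have e3 : ∑ a, D a ^ 2 ≤ M * L ^ 2 := by rw [hD]; exact ho
    push_cast
    linarith

end Pool.Agent.H35.BW
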