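import Mathlib

set_option autoImplicit false

/-!
Ordered cliques and their components under changes of one coordinate.
-/

namespace Pool.Agent.H35.BW

open Finset Classical

variable {V : Type} {k : ℕ}

/-- `f` is an ordered clique of `Γ` -/
def OC (Γ : SimpleGraph V) (f : Fin k → V) : Prop := ∀ i j, i ≠ j → Γ.Adj (f i) (f j)

theorem OC.injective {Γ : SimpleGraph V} {f : Fin k → V} (h : OC Γ f) :
    Function.Injective f := by
  intro i j hij
  by_contra hne
  have := h i j hne
  rw [hij] at this
  exact this.ne rfl

/-- two ordered cliques which differ in at most one coordinate -/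
def Stp (Γ : SimpleGraph V) (f g : Fin k → V) : Prop :=
  OC Γ f ∧ OC Γ g ∧ ∃ i, ∀ j, j ≠ i → f j = g j

/-- connected by steps -/
def Conn (Γ : SimpleGraph V) (f g : Fin k → V) : Prop :=
  OC Γ f ∧ Relation.ReflTransGen (Stp Γ) f g

theorem Stp.symm {Γ : SimpleGraph V} {f g : Fin k → V} (h : Stp Γ f g) : Stp Γ g f := by
  obtain ⟨h1, h2, i, hi⟩ := h
  exact ⟨h2, h1, i, fun j hj => (hi j hj).symm⟩

theorem Conn.refl {Γ : SimpleGraph V} {f : Fin k → V} (h : OC Γ f) : Conn Γ f f :=
  ⟨h, Relation.ReflTransGen.refl⟩

theorem Conn.right {Γ : SimpleGraph V} {f g : Fin k → V} (h : Conn Γ f g) : OC Γ g := by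
  obtain ⟨h1, h2⟩ := h
  induction h2 with
  | refl => exact h1
  | tail _ h3 _ => exact h3.2.1

theorem Conn.trans {Γ : SimpleGraph V} {f g h : Fin k → V} (h1 : Conn Γ f g) (h2 : Conn Γ g h) :
    Conn Γ f h := ⟨h1.1, h1.2.trans h2.2⟩

theorem Conn.symm {Γ : SimpleGraph V} {f g : Fin k → V} (h : Conn Γ f g) : Conn Γ g f := by
  refine ⟨h.right, ?_⟩
  have hs : Std.Symm (Stp Γ : (Fin k → V) → (Fin k → V) → Prop) := ⟨fun _ _ h => h.symm⟩
  exact (Relation.ReflTransGen.stdSymm (r := Stp Γ)).symm _ _ h.2

theorem Stp.conn {Γ : SimpleGraph V} {f g : Fin k → V} (h : Stp Γ f g) : Conn Γ f g :=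
  ⟨h.1, Relation.ReflTransGen.single h⟩

/-- If all cross pairs of different coordinates are adjacent, then the cliques are connected. -/
theorem conn_exchange {Γ : SimpleGraph V} {f g : Fin k → V} (hf : OC Γ f) (hg : OC Γ g)
    (h : ∀ i j, i ≠ j → Γ.Adj (f i) (g j)) : Conn Γ f g := by
  have key : ∀ T : Finset (Fin k), Conn Γ f (fun i => if i ∈ T then g i else f i) := by
    intro T
    have hOC : ∀ T : Finset (Fin k), OC Γ (fun i => if i ∈ T then g i else f i) := by
      intro T i j hij
      dsimp only
      split_ifs with h1 h2 h2
      · exact hg i j hij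
      · exact (h j i hij.symm).symm
      · exact h i j hij
      · exact hf i j hij
    induction T using Finset.induction_on with
    | empty => simpa using Conn.refl hf
    | insert a T ha ih =>
      refine ih.trans (Stp.conn ⟨hOC _, hOC _, a, ?_⟩)
      intro j hj
      simp [mem_insert, hj]
  have := key univ
  simpa using this

/-- reordering the coordinates -/
theorem Conn.comp {Γ : SimpleGraph V} {f g : Fin k → V} (h : Conn Γ f g)
    (e : Equiv.Perm (Fin k)) : Conn Γ (f ∘ e) (g ∘ e) := by
  have hOC : ∀ f : Fin k → V, OC Γ f → OC Γ (f ∘ e) := fun f hf i j hij =>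
    hf _ _ (fun h => hij (e.injective h))
  obtain ⟨h1, h2⟩ := h
  refine ⟨hOC f h1, ?_⟩
  induction h2 with
  | refl => exact Relation.ReflTransGen.refl
  | tail _ h3 ih =>
    refine ih.tail ⟨hOC _ h3.1, hOC _ h3.2.1, ?_⟩
    obtain ⟨i, hi⟩ := h3.2.2
    refine ⟨e.symm i, fun j hj => hi (e j) ?_⟩
    intro h
    apply hj
    rw [← h, Equiv.symm_apply_apply]

theorem OC_update {Γ : SimpleGraph V} {f : Fin k → V} (hf : OC Γ f) (i : Fin k) (z : V)
    (hz : ∀ j, j ≠ i → Γ.Adj z (f j)) : OC Γ (Function.update f i z) := by
  intro a b hab
  by_cases ha : a = i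
  · subst ha
    rw [Function.update_self, Function.update_of_ne hab.symm]
    exact hz b hab.symm
  · by_cases hb : b = i
    · subst hb
      rw [Function.update_self, Function.update_of_ne hab]
      exact (hz a hab).symm
    · rw [Function.update_of_ne ha, Function.update_of_ne hb]
      exact hf a b hab

theorem conn_update {Γ : SimpleGraph V} {f : Fin k → V} (hf : OC Γ f) (i : Fin k) (z : V)
    (hz : ∀ j, j ≠ i → Γ.Adj z (f j)) : Conn Γ f (Function.update f i z) :=
  Stp.conn ⟨hf, OC_update hf i z hz, i, fun j hj => by rw [Function.update_of_ne hj]⟩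

/-- **All ordered cliques inside one clique with more than `k` vertices are connected.** -/
theorem conn_of_clique {Γ : SimpleGraph V} (Q : Finset V)
    (hQ : ∀ x ∈ Q, ∀ y ∈ Q, x ≠ y → Γ.Adj x y) (hcard : k < Q.card) (f g : Fin k → V)
    (hf : Function.Injective f) (hg : Function.Injective g) (hfQ : ∀ i, f i ∈ Q)
    (hgQ : ∀ i, g i ∈ Q) : Conn Γ f g := by
  have hOC : ∀ f : Fin k → V, Function.Injective f → (∀ i, f i ∈ Q) → OC Γ f :=
    fun f h1 h2 i j hij => hQ _ (h2 i) _ (h2 j) (fun h => hij (h1 h))
  have key : ∀ n : ℕ, ∀ f : Fin k → V, Function.Injective f → (∀ i, f i ∈ Q) →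
      (univ.filter (fun i => f i ≠ g i)).card ≤ n → Conn Γ f g := by
    intro n
    induction n with
    | zero =>
      intro f h1 h2 h3
      have : f = g := by
        funext i
        by_contra hne
        have h4 := card_eq_zero.1 (Nat.le_zero.1 h3)
        have : i ∈ univ.filter (fun i => f i ≠ g i) := by simp [hne]
        rw [h4] at this
        simp at this
      subst this
      exact Conn.refl (hOC f h1 h2)
    | succ n ih =>
      intro f h1 h2 h3
      by_cases hfg : f = g
      · subst hfg
        exact Conn.refl (hOC f h1 h2)
      obtain ⟨i, hi⟩ : ∃ i, f i ≠ g i := by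
        by_contra hno
        push Not at hno
        exact hfg (funext hno)
      -- one update
      have upd : ∀ f : Fin k → V, Function.Injective f → (∀ i, f i ∈ Q) →
          ∀ i z, z ∈ Q → (∀ j, j ≠ i → f j ≠ z) →
          Function.Injective (Function.update f i z) ∧ (∀ j, Function.update f i z j ∈ Q) ∧
          Conn Γ f (Function.update f i z) := by
        intro f h1 h2 i z hz hne
        have hupd := conn_update (hOC f h1 h2) i z
          (fun j hj => hQ z hz _ (h2 j) (fun h => hne j hj h.symm))
        refine ⟨hupd.right.injective, ?_, hupd⟩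
        intro j
        by_cases hj : j = i
        · subst hj; rw [Function.update_self]; exact hz
        · rw [Function.update_of_ne hj]; exact h2 j
      by_cases hfree : ∀ j, j ≠ i → f j ≠ g i
      · obtain ⟨u1, u2, u3⟩ := upd f h1 h2 i (g i) (hgQ i) hfree
        refine u3.trans (ih _ u1 u2 ?_)
        have hlt : (univ.filter (fun j => Function.update f i (g i) j ≠ g j)).card <
            (univ.filter (fun i => f i ≠ g i)).card := by
          apply card_lt_card
          rw [ssubset_iff]
          refine ⟨i, by simp, ?_⟩
          intro j hj
          rw [mem_insert] at hj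
          rcases hj with rfl | hj
          · simp [hi]
          · rw [mem_filter] at hj ⊢
            refine ⟨mem_univ _, ?_⟩
            by_cases hji : j = i
            · subst hji
              exact absurd (Function.update_self j (g j) f) hj.2
            · have := hj.2
              rwa [Function.update_of_ne hji] at this
        omega
      · push Not at hfree
        obtain ⟨l, hl, hl2⟩ := hfree
        -- a spare vertex
        obtain ⟨z, hzQ, hz⟩ : ∃ z ∈ Q, z ∉ univ.image f := by
          by_contra hno
          push Not at hno
          have : Q ⊆ univ.image f := fun z hz => hno z hz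
          have h4 := card_le_card this
          have h5 : (univ.image f).card ≤ k := by
            refine card_image_le.trans ?_
            simp
          omega
        have hz' : ∀ j, f j ≠ z := by
          intro j hj
          exact hz (mem_image.2 ⟨j, mem_univ _, hj⟩)
        obtain ⟨u1, u2, u3⟩ := upd f h1 h2 l z hzQ (fun j _ => hz' j)
        have hfl : f l ≠ g l := by
          rw [hl2]
          intro h
          exact hl (hg h).symm
        obtain ⟨w1, w2, w3⟩ := upd (Function.update f l z) u1 u2 i (g i) (hgQ i) (by
          intro j hj
          by_cases hjl : j = l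
          · subst hjl
            rw [Function.update_self]
            intro h
            exact hz' j (hl2.trans h.symm)
          · rw [Function.update_of_ne hjl]
            intro h
            exact hjl (h1 (h.trans hl2.symm)))
        refine u3.trans (w3.trans (ih _ w1 w2 ?_))
        have hlt : (univ.filter (fun j =>
            Function.update (Function.update f l z) i (g i) j ≠ g j)).card <
            (univ.filter (fun i => f i ≠ g i)).card := by
          apply card_lt_card
          rw [ssubset_iff]
          refine ⟨i, by simp, ?_⟩
          intro j hj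
          rw [mem_insert] at hj
          rcases hj with rfl | hj
          · simp [hi]
          · rw [mem_filter] at hj ⊢
            refine ⟨mem_univ _, ?_⟩
            by_cases hji : j = i
            · subst hji
              exact hi
            · have := hj.2
              rw [Function.update_of_ne hji] at this
              by_cases hjl : j = l
              · subst hjl
                exact hfl
              · rwa [Function.update_of_ne hjl] at this
        omega
  exact key _ f hf hfQ le_rfl

/-- If an ordered clique is contained in a clique with `k + 1` vertices, then its component is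
closed under reordering. -/
theorem Conn.perm {Γ : SimpleGraph V} {f g : Fin k → V} (h : Conn Γ f g) (z : V)
    (hz : ∀ i, Γ.Adj z (f i)) (e : Equiv.Perm (Fin k)) : Conn Γ f (g ∘ e) := by
  have hOC := h.1
  have h1 : Conn Γ f (f ∘ e) := by
    refine conn_of_clique (insert z (univ.image f)) ?_ ?_ f (f ∘ e) hOC.injective
      (hOC.injective.comp e.injective) ?_ ?_
    · intro x hx y hy hxy
      rw [mem_insert, mem_image] at hx hy
      rcases hx with rfl | ⟨a, _, rfl⟩
      · rcases hy with rfl | ⟨b, _, rfl⟩
        · exact absurd rfl hxy
        · exact hz b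
      · rcases hy with rfl | ⟨b, _, rfl⟩
        · exact (hz a).symm
        · exact hOC a b (fun h => hxy (by rw [h]))
    · rw [card_insert_of_notMem]
      · rw [card_image_of_injective _ hOC.injective]
        simp
      · intro hmem
        rw [mem_image] at hmem
        obtain ⟨a, _, ha⟩ := hmem
        have := hz a
        rw [ha] at this
        exact this.ne rfl
    · intro i
      exact mem_insert_of_mem (mem_image_of_mem _ (mem_univ _))
    · intro i
      exact mem_insert_of_mem (mem_image_of_mem _ (mem_univ _))
  exact h1.trans (h.comp e)

end Pool.Agent.H35.BW
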