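import Mathlib

set_option autoImplicit false

/-!
Selecting a clique from nearly complete pairs, with many common neighbours.
-/

namespace Pool.Agent.H35.BW

open Finset Classical

/-- the number of vertices of `S` which are not adjacent to `x` -/
noncomputable def nd {V : Type} (Γ : SimpleGraph V) (x : V) (S : Finset V) : ℝ :=
  ((S.filter (fun y => ¬ Γ.Adj x y)).card : ℝ)

theorem nd_nonneg {V : Type} (Γ : SimpleGraph V) (x : V) (S : Finset V) : 0 ≤ nd Γ x S :=
  Nat.cast_nonneg _

/-- few vertices have many non-neighbours -/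
theorem few_bad {V : Type} (Γ : SimpleGraph V) (A S : Finset V) (c M : ℝ) (hc : 0 < c)
    (h : ∑ x ∈ A, nd Γ x S ≤ M) : ((A.filter (fun x => c < nd Γ x S)).card : ℝ) ≤ M / c := by
  rw [le_div_iff₀ hc]
  calc ((A.filter (fun x => c < nd Γ x S)).card : ℝ) * c
      = ∑ x ∈ A.filter (fun x => c < nd Γ x S), c := by rw [sum_const, nsmul_eq_mul]
    _ ≤ ∑ x ∈ A.filter (fun x => c < nd Γ x S), nd Γ x S :=
        sum_le_sum (fun x hx => (mem_filter.1 hx).2.le)
    _ ≤ ∑ x ∈ A, nd Γ x S :=
        sum_le_sum_of_subset_of_nonneg (filter_subset _ _) (fun x _ _ => nd_nonneg Γ x S)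
    _ ≤ M := h

/-- a vertex of `B j` with few non-neighbours in the other sets -/
def Good {V J : Type} (Γ : SimpleGraph V) (B : J → Finset V) (T : Finset J) (c : ℝ)
    (j : J) (x : V) : Prop := ∀ j' ∈ T, j' ≠ j → nd Γ x (B j') ≤ c

/-- most vertices are good -/
theorem card_not_good {V J : Type} (Γ : SimpleGraph V) (B : J → Finset V) (T : Finset J)
    (c M : ℝ) (hc : 0 < c) (K : ℕ) (hK : T.card ≤ K) (hM : 0 ≤ M) (j : J)
    (h : ∀ j' ∈ T, j' ≠ j → ∑ x ∈ B j, nd Γ x (B j') ≤ M) :
    (((B j).filter (fun x => ¬ Good Γ B T c j x)).card : ℝ) ≤ K * (M / c) := by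
  have hsub : (B j).filter (fun x => ¬ Good Γ B T c j x) ⊆
      (T.filter (fun j' => j' ≠ j)).biUnion (fun j' => (B j).filter (fun x => c < nd Γ x (B j'))) := by
    intro x hx
    rw [mem_filter] at hx
    obtain ⟨h1, h2⟩ := hx
    unfold Good at h2
    push Not at h2
    obtain ⟨j', h3, h4, h5⟩ := h2
    rw [mem_biUnion]
    exact ⟨j', mem_filter.2 ⟨h3, h4⟩, mem_filter.2 ⟨h1, h5⟩⟩
  calc (((B j).filter (fun x => ¬ Good Γ B T c j x)).card : ℝ)
      ≤ (((T.filter (fun j' => j' ≠ j)).biUnion
        (fun j' => (B j).filter (fun x => c < nd Γ x (B j')))).card : ℝ) := by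
        exact_mod_cast card_le_card hsub
    _ ≤ ∑ j' ∈ T.filter (fun j' => j' ≠ j),
        (((B j).filter (fun x => c < nd Γ x (B j'))).card : ℝ) := by
        exact_mod_cast card_biUnion_le
    _ ≤ ∑ j' ∈ T.filter (fun j' => j' ≠ j), M / c := by
        refine sum_le_sum (fun j' hj' => few_bad Γ (B j) (B j') c M hc ?_)
        rw [mem_filter] at hj'
        exact h j' hj'.1 hj'.2
    _ = ((T.filter (fun j' => j' ≠ j)).card : ℝ) * (M / c) := by rw [sum_const, nsmul_eq_mul]
    _ ≤ K * (M / c) := by
        have h1 : (T.filter (fun j' => j' ≠ j)).card ≤ K := (card_le_card (filter_subset _ _)).trans hK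
        have h2 : ((T.filter (fun j' => j' ≠ j)).card : ℝ) ≤ K := by exact_mod_cast h1
        have : 0 ≤ M / c := div_nonneg hM hc.le
        gcongr

/-- **Selection lemma.** -/
theorem sel {V J P : Type} [Fintype V] [Nonempty V] (Γ : SimpleGraph V) (B : J → Finset V)
    (T : Finset J) (K : ℕ) (hK : T.card ≤ K) (hK1 : 1 ≤ K) (δ : ℝ) (hδ : 0 < δ)
    (hnear : ∀ j ∈ T, ∀ j' ∈ T, j' ≠ j →
      ∑ x ∈ B j, nd Γ x (B j') ≤ δ ^ 2 / (16 * K ^ 2) * (Fintype.card V : ℝ) ^ 2)
    (Q : Finset P) (hQ : Q.Nonempty) (W : J → P → Finset V) (hW : ∀ j p, W j p ⊆ B j)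
    (hWc : ∀ j ∈ T, ∀ p ∈ Q, δ * Fintype.card V ≤ ((W j p).card : ℝ)) :
    ∃ X : J → V, (∀ j ∈ T, X j ∈ B j ∧ Good Γ B T (δ / (4 * K) * Fintype.card V) j (X j)) ∧
      (∀ j ∈ T, ∀ j' ∈ T, j ≠ j' → Γ.Adj (X j) (X j')) ∧
      (δ / 2) ^ T.card * (Q.card : ℝ) ≤ ((Q.filter (fun p => ∀ j ∈ T, X j ∈ W j p)).card : ℝ) := by
  have hK0 : (0 : ℝ) < K := by exact_mod_cast hK1
  have ht : (0 : ℝ) < Fintype.card V := by exact_mod_cast Fintype.card_pos
  set t : ℝ := (Fintype.card V : ℝ) with htdef
  set c : ℝ := δ / (4 * K) * t with hcdef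
  have hc : 0 < c := by positivity
  have key : ∀ S : Finset J, S ⊆ T → ∃ X : J → V, (∀ j ∈ S, X j ∈ B j ∧ Good Γ B T c j (X j)) ∧
      (∀ j ∈ S, ∀ j' ∈ S, j ≠ j' → Γ.Adj (X j) (X j')) ∧
      (δ / 2) ^ S.card * (Q.card : ℝ) ≤
        ((Q.filter (fun p => ∀ j ∈ S, X j ∈ W j p)).card : ℝ) := by
    intro S
    induction S using Finset.induction_on with
    | empty =>
      intro _
      obtain ⟨v⟩ := ‹Nonempty V›
      exact ⟨fun _ => v, by simp, by simp, by simp⟩
    | insert j S hj ih =>
      intro hS
      obtain ⟨X, hX1, hX2, hX3⟩ := ih ((subset_insert _ _).trans hS)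
      have hjT : j ∈ T := hS (mem_insert_self _ _)
      have hST : S ⊆ T := (subset_insert _ _).trans hS
      set QS := Q.filter (fun p => ∀ j ∈ S, X j ∈ W j p) with hQS
      have hQpos : (0 : ℝ) < Q.card := by exact_mod_cast hQ.card_pos
      have hQSpos : (0 : ℝ) < QS.card := lt_of_lt_of_le (by positivity) hX3
      -- the allowed choices
      let W' : P → Finset V := fun p => (W j p).filter
        (fun x => Good Γ B T c j x ∧ ∀ j' ∈ S, Γ.Adj (X j') x)
      have hW' : ∀ p ∈ QS, δ / 2 * t ≤ ((W' p).card : ℝ) := by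
        intro p hp
        have hpQ : p ∈ Q := (mem_filter.1 hp).1
        have hsub : W j p ⊆ W' p ∪ ((B j).filter (fun x => ¬ Good Γ B T c j x) ∪
            S.biUnion (fun j' => (B j).filter (fun y => ¬ Γ.Adj (X j') y))) := by
          intro x hx
          have hxB := hW j p hx
          simp only [W', mem_union, mem_filter, mem_biUnion]
          by_cases h1 : Good Γ B T c j x
          · by_cases h2 : ∀ j' ∈ S, Γ.Adj (X j') x
            · exact Or.inl ⟨hx, h1, h2⟩
            · push Not at h2
              obtain ⟨j', h3, h4⟩ := h2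
              exact Or.inr (Or.inr ⟨j', h3, hxB, h4⟩)
          · exact Or.inr (Or.inl ⟨hxB, h1⟩)
        have h1 := hWc j hjT p hpQ
        have h2 : ((W j p).card : ℝ) ≤ (W' p).card +
            ((((B j).filter (fun x => ¬ Good Γ B T c j x)).card : ℝ) +
              ∑ j' ∈ S, nd Γ (X j') (B j)) := by
          have h3 : (W j p).card ≤ (W' p).card +
              (((B j).filter (fun x => ¬ Good Γ B T c j x)).card +
              ∑ j' ∈ S, ((B j).filter (fun y => ¬ Γ.Adj (X j') y)).card) := by
            refine (card_le_card hsub).trans ((card_union_le _ _).trans ?_)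
            gcongr
            refine (card_union_le _ _).trans ?_
            gcongr
            exact card_biUnion_le
          have h4 : ((W j p).card : ℝ) ≤ ((W' p).card +
              (((B j).filter (fun x => ¬ Good Γ B T c j x)).card +
              ∑ j' ∈ S, ((B j).filter (fun y => ¬ Γ.Adj (X j') y)).card) : ℕ) := by
            exact_mod_cast h3
          push_cast at h4
          exact h4
        have h3 : (((B j).filter (fun x => ¬ Good Γ B T c j x)).card : ℝ) ≤ δ * t / 4 := by
          refine (card_not_good Γ B T c (δ ^ 2 / (16 * K ^ 2) * t ^ 2) hc K hK (by positivity) j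
            (fun j' hj' hne => hnear j hjT j' hj' hne)).trans (le_of_eq ?_)
          rw [hcdef]
          field_simp
          ring
        have h4 : ∑ j' ∈ S, nd Γ (X j') (B j) ≤ δ * t / 4 := by
          calc ∑ j' ∈ S, nd Γ (X j') (B j) ≤ ∑ j' ∈ S, c := by
                refine sum_le_sum (fun j' hj' => (hX1 j' hj').2 j hjT ?_)
                rintro rfl
                exact hj hj'
            _ = S.card * c := by rw [sum_const, nsmul_eq_mul]
            _ ≤ K * c := by
                have : (S.card : ℝ) ≤ K := by exact_mod_cast (card_le_card hST).trans hK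
                gcongr
            _ = δ * t / 4 := by
                rw [hcdef]; field_simp
        linarith
      -- double counting
      have hdc : ∑ x : V, ((QS.filter (fun p => x ∈ W' p)).card : ℝ) =
          ∑ p ∈ QS, ((W' p).card : ℝ) := by
        have : ∀ x : V, ((QS.filter (fun p => x ∈ W' p)).card : ℝ) =
            ∑ p ∈ QS, if x ∈ W' p then (1 : ℝ) else 0 := by
          intro x
          rw [← sum_filter, sum_const, nsmul_eq_mul, mul_one]
        simp_rw [this]
        rw [sum_comm]
        refine sum_congr rfl (fun p _ => ?_)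
        rw [← sum_filter, sum_const, nsmul_eq_mul, mul_one]
        congr 2
        ext x
        simp
      have hex : ∃ x : V, δ / 2 * (QS.card : ℝ) ≤ ((QS.filter (fun p => x ∈ W' p)).card : ℝ) := by
        by_contra hno
        push Not at hno
        have h1 : ∑ x : V, ((QS.filter (fun p => x ∈ W' p)).card : ℝ) <
            ∑ x : V, δ / 2 * (QS.card : ℝ) :=
          sum_lt_sum_of_nonempty univ_nonempty (fun x _ => hno x)
        rw [hdc, sum_const, nsmul_eq_mul, card_univ, ← htdef] at h1
        have h2 : ∑ p ∈ QS, δ / 2 * t ≤ ∑ p ∈ QS, ((W' p).card : ℝ) :=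
          sum_le_sum (fun p hp => hW' p hp)
        rw [sum_const, nsmul_eq_mul] at h2
        nlinarith
      obtain ⟨x, hx⟩ := hex
      have hpos : (0 : ℝ) < ((QS.filter (fun p => x ∈ W' p)).card : ℝ) :=
        lt_of_lt_of_le (by positivity) hx
      have hne : (QS.filter (fun p => x ∈ W' p)).Nonempty := by
        rw [← card_pos]
        exact_mod_cast hpos
      obtain ⟨p0, hp0⟩ := hne
      have hxp0 := (mem_filter.1 ((mem_filter.1 hp0).2))
      have hupd : ∀ j' ∈ S, Function.update X j x j' = X j' := by
        intro j' hj'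
        rw [Function.update_of_ne]
        rintro rfl
        exact hj hj'
      refine ⟨Function.update X j x, ?_, ?_, ?_⟩
      · intro j' hj'
        rw [mem_insert] at hj'
        rcases hj' with rfl | hj'
        · rw [Function.update_self]
          exact ⟨hW _ _ hxp0.1, hxp0.2.1⟩
        · rw [hupd j' hj']
          exact hX1 j' hj'
      · intro a ha b hb hab
        rw [mem_insert] at ha hb
        rcases ha with rfl | ha
        · rcases hb with rfl | hb
          · exact absurd rfl hab
          · rw [Function.update_self, hupd b hb]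
            exact (hxp0.2.2 b hb).symm
        · rcases hb with rfl | hb
          · rw [Function.update_self, hupd a ha]
            exact hxp0.2.2 a ha
          · rw [hupd a ha, hupd b hb]
            exact hX2 a ha b hb hab
      · rw [card_insert_of_notMem hj, pow_succ]
        have hsub : QS.filter (fun p => x ∈ W' p) ⊆
            Q.filter (fun p => ∀ j' ∈ insert j S, Function.update X j x j' ∈ W j' p) := by
          intro p hp
          rw [mem_filter] at hp
          obtain ⟨h1, h2⟩ := hp
          rw [hQS, mem_filter] at h1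
          rw [mem_filter]
          refine ⟨h1.1, ?_⟩
          intro j' hj'
          rw [mem_insert] at hj'
          rcases hj' with rfl | hj'
          · rw [Function.update_self]
            exact (mem_filter.1 h2).1
          · rw [hupd j' hj']
            exact h1.2 j' hj'
        have h5 : ((QS.filter (fun p => x ∈ W' p)).card : ℝ) ≤
            ((Q.filter (fun p => ∀ j' ∈ insert j S,
              Function.update X j x j' ∈ W j' p)).card : ℝ) := by
          exact_mod_cast card_le_card hsub
        refine le_trans ?_ h5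
        refine le_trans ?_ hx
        calc (δ / 2) ^ S.card * (δ / 2) * (Q.card : ℝ)
            = δ / 2 * ((δ / 2) ^ S.card * (Q.card : ℝ)) := by ring
          _ ≤ δ / 2 * (QS.card : ℝ) := by gcongr
  exact key T Subset.rfl

end Pool.Agent.H35.BW
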