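import Mathlib
import Pool.Agent.H35.BW.Sel
import Pool.Agent.H35.BW.Conn

set_option autoImplicit false

/-!
Covers, and the bound on the number of groups.
-/

namespace Pool.Agent.H35.BW

open Finset Classical

variable {V : Type} [Fintype V]

/-- Every component of ordered `k`-cliques of `Γ` which contains an ordered clique that extends to
a clique with `k + 1` vertices has a fractional vertex cover (scaled by `k`) of weight at most
`Bd`. -/
def HasCover (Γ : SimpleGraph V) (k : ℕ) (Bd : ℝ) : Prop :=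
  ∀ f0 : Fin k → V, OC Γ f0 → (∃ z, ∀ i, Γ.Adj z (f0 i)) →
    ∃ u : V → ℝ, (∀ v, 0 ≤ u v) ∧ ∑ v, u v ≤ Bd ∧ ∀ g, Conn Γ f0 g → (k : ℝ) ≤ ∑ i, u (g i)

omit [Fintype V] in
/-- an essential minimum -/
theorem ess_min (G : Finset V) (u : V → ℝ) (c : ℝ) (hc : 0 < c) (hG : c ≤ G.card) :
    ∃ τ : ℝ, c ≤ ((G.filter (fun y => u y ≤ τ)).card : ℝ) ∧
      ((G.filter (fun y => u y < τ)).card : ℝ) < c := by
  have hGne : G.Nonempty := by
    rw [← card_pos]
    exact_mod_cast lt_of_lt_of_le hc hG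
  set C := G.filter (fun x => c ≤ ((G.filter (fun y => u y ≤ u x)).card : ℝ)) with hC
  have hCne : C.Nonempty := by
    obtain ⟨x, hx, hmax⟩ := exists_max_image G u hGne
    refine ⟨x, mem_filter.2 ⟨hx, ?_⟩⟩
    rwa [filter_true_of_mem hmax]
  obtain ⟨x, hx, hmin⟩ := exists_min_image C u hCne
  refine ⟨u x, (mem_filter.1 hx).2, ?_⟩
  by_contra hno
  rw [not_lt] at hno
  have hne : (G.filter (fun y => u y < u x)).Nonempty := by
    rw [← card_pos]
    exact_mod_cast lt_of_lt_of_le hc hno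
  obtain ⟨y, hy, hymax⟩ := exists_max_image _ u hne
  have hyG := (mem_filter.1 hy).1
  have hylt := (mem_filter.1 hy).2
  have hyC : y ∈ C := by
    refine mem_filter.2 ⟨hyG, le_trans hno ?_⟩
    have : (G.filter (fun z => u z < u x)).card ≤ (G.filter (fun z => u z ≤ u y)).card := by
      apply card_le_card
      intro z hz
      exact mem_filter.2 ⟨(mem_filter.1 hz).1, hymax z hz⟩
    exact_mod_cast this
  exact absurd (hmin y hyC) (not_le.2 hylt)

/-- **At most `k` groups.** -/
theorem groups [Nonempty V] (Γ : SimpleGraph V) (k : ℕ) (Bd : ℝ) (hcov : HasCover Γ k Bd)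
    (G : Fin (k + 1) → Finset V) (hGd : ∀ l l', l ≠ l' → Disjoint (G l) (G l')) (δ M : ℝ)
    (hδ : 0 < δ)
    (hnear : ∀ l l', l' ≠ l → ∑ x ∈ G l, nd Γ x (G l') ≤
      δ ^ 2 / (16 * (k + 1 : ℕ) ^ 2) * (Fintype.card V : ℝ) ^ 2)
    (hM : ∀ l, M ≤ ((G l).card : ℝ)) (hδM : 2 * δ * Fintype.card V ≤ M) :
    k * (M - δ * Fintype.card V) ≤ Bd := by
  have ht : (0 : ℝ) < Fintype.card V := by exact_mod_cast Fintype.card_pos
  set t : ℝ := (Fintype.card V : ℝ) with htdef
  have hδt : 0 < δ * t := mul_pos hδ ht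
  have hK0 : (0 : ℝ) < ((k + 1 : ℕ) : ℝ) := by exact_mod_cast Nat.succ_pos k
  -- selecting in large subsets
  have hsel : ∀ W : Fin (k + 1) → Finset V, (∀ l, W l ⊆ G l) → (∀ l, δ * t ≤ ((W l).card : ℝ)) →
      ∃ X : Fin (k + 1) → V, (∀ l, X l ∈ W l) ∧ (∀ l, X l ∈ G l ∧
        Good Γ G univ (δ / (4 * (k + 1 : ℕ)) * t) l (X l)) ∧
        (∀ l l', l ≠ l' → Γ.Adj (X l) (X l')) := by
    intro W hW hWc
    obtain ⟨X, hX1, hX2, hX3⟩ := sel Γ G (univ : Finset (Fin (k + 1))) (k + 1) (by simp)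
      (by omega) δ hδ (fun j _ j' _ hne => hnear j j' hne) ({()} : Finset Unit) (by simp)
      (fun l _ => W l) (fun l _ => hW l) (fun l _ _ _ => hWc l)
    have hpos : (0 : ℝ) < ((({()} : Finset Unit).filter
        (fun p => ∀ j ∈ (univ : Finset (Fin (k + 1))), X j ∈ W j)).card : ℝ) := by
      have hX3' : (δ / 2) ^ (univ : Finset (Fin (k + 1))).card * ((({()} : Finset Unit).card : ℕ) : ℝ) ≤
          ((({()} : Finset Unit).filter
        (fun p => ∀ j ∈ (univ : Finset (Fin (k + 1))), X j ∈ W j)).card : ℝ) := by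
        convert hX3
      refine lt_of_lt_of_le ?_ hX3'
      simp only [card_singleton, Nat.cast_one, mul_one]
      positivity
    have hne : ((({()} : Finset Unit).filter
        (fun p => ∀ j ∈ (univ : Finset (Fin (k + 1))), X j ∈ W j))).Nonempty := by
      rw [← card_pos]
      exact_mod_cast hpos
    obtain ⟨p, hp⟩ := hne
    refine ⟨X, fun l => (mem_filter.1 hp).2 l (mem_univ l), fun l => hX1 l (mem_univ l),
      fun l l' h => hX2 l (mem_univ _) l' (mem_univ _) h⟩
  have hGδ : ∀ l, δ * t ≤ ((G l).card : ℝ) := fun l => by linarith [hM l]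
  obtain ⟨h, -, hh2, hh3⟩ := hsel G (fun _ => Subset.rfl) hGδ
  let cs : Fin k → Fin (k + 1) := Fin.castSucc
  have hcs : ∀ i j : Fin k, i ≠ j → cs i ≠ cs j := fun i j hij h' =>
    hij (Fin.castSucc_injective k h')
  have hf0 : OC Γ (fun i => h (cs i)) := fun i j hij => hh3 _ _ (hcs i j hij)
  obtain ⟨u, hu0, huB, hu⟩ := hcov (fun i => h (cs i)) hf0
    ⟨h (Fin.last k), fun i => hh3 _ _ (ne_of_gt (Fin.castSucc_lt_last i))⟩
  -- connectivity
  have hconn : ∀ X : Fin (k + 1) → V, (∀ l, X l ∈ G l ∧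
        Good Γ G univ (δ / (4 * (k + 1 : ℕ)) * t) l (X l)) →
        (∀ l l', l ≠ l' → Γ.Adj (X l) (X l')) →
        Conn Γ (fun i => h (cs i)) (fun i => X (cs i)) := by
    intro X hX1 hX2
    obtain ⟨h', hh'1, -, hh'3⟩ := hsel
      (fun l => (G l).filter (fun y => ∀ l', l' ≠ l → Γ.Adj (h l') y ∧ Γ.Adj (X l') y))
      (fun l => filter_subset _ _) (by
        intro l
        have hsub : G l ⊆ (G l).filter (fun y => ∀ l', l' ≠ l → Γ.Adj (h l') y ∧ Γ.Adj (X l') y) ∪
            ((univ.filter (fun l' => l' ≠ l)).biUnion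
              (fun l' => (G l).filter (fun y => ¬ Γ.Adj (h l') y)) ∪
            (univ.filter (fun l' => l' ≠ l)).biUnion
              (fun l' => (G l).filter (fun y => ¬ Γ.Adj (X l') y))) := by
          intro y hy
          simp only [mem_union, mem_filter, mem_biUnion, mem_univ, true_and]
          by_cases h1 : ∀ l', l' ≠ l → Γ.Adj (h l') y ∧ Γ.Adj (X l') y
          · exact Or.inl ⟨hy, h1⟩
          · push Not at h1
            obtain ⟨l', h2, h3⟩ := h1
            by_cases h4 : Γ.Adj (h l') y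
            · exact Or.inr (Or.inr ⟨l', h2, hy, h3 h4⟩)
            · exact Or.inr (Or.inl ⟨l', h2, hy, h4⟩)
        have hb : ∀ X : Fin (k + 1) → V, (∀ l, X l ∈ G l ∧
            Good Γ G univ (δ / (4 * (k + 1 : ℕ)) * t) l (X l)) →
            ((((univ.filter (fun l' => l' ≠ l)).biUnion
              (fun l' => (G l).filter (fun y => ¬ Γ.Adj (X l') y))).card : ℕ) : ℝ) ≤
              δ * t / 4 := by
          intro X hX
          calc ((((univ.filter (fun l' => l' ≠ l)).biUnion
              (fun l' => (G l).filter (fun y => ¬ Γ.Adj (X l') y))).card : ℕ) : ℝ)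
              ≤ ((∑ l' ∈ univ.filter (fun l' => l' ≠ l),
                ((G l).filter (fun y => ¬ Γ.Adj (X l') y)).card : ℕ) : ℝ) := by
                exact_mod_cast card_biUnion_le
            _ = ∑ l' ∈ univ.filter (fun l' => l' ≠ l), nd Γ (X l') (G l) := by
                push_cast; rfl
            _ ≤ ∑ l' ∈ univ.filter (fun l' => l' ≠ l), δ / (4 * (k + 1 : ℕ)) * t := by
                refine sum_le_sum (fun l' hl' => (hX l').2 l (mem_univ _) ?_)
                exact (mem_filter.1 hl').2.symm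
            _ ≤ (k + 1 : ℕ) * (δ / (4 * (k + 1 : ℕ)) * t) := by
                rw [sum_const, nsmul_eq_mul]
                have : (((univ.filter (fun l' => l' ≠ l)).card : ℕ) : ℝ) ≤ ((k + 1 : ℕ) : ℝ) := by
                  have h1 := card_le_univ (univ.filter (fun l' => l' ≠ l))
                  rw [Fintype.card_fin] at h1
                  exact_mod_cast h1
                gcongr
            _ = δ * t / 4 := by field_simp
        have h1 := card_le_card hsub
        have h2 : ((G l).card : ℝ) ≤ (((G l).filter (fun y => ∀ l', l' ≠ l →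
            Γ.Adj (h l') y ∧ Γ.Adj (X l') y)).card : ℝ) +
            ((((univ.filter (fun l' => l' ≠ l)).biUnion
              (fun l' => (G l).filter (fun y => ¬ Γ.Adj (h l') y))).card : ℕ) +
            (((univ.filter (fun l' => l' ≠ l)).biUnion
              (fun l' => (G l).filter (fun y => ¬ Γ.Adj (X l') y))).card : ℕ)) := by
          have h3 := h1.trans ((card_union_le _ _).trans (add_le_add_right (card_union_le _ _) _))
          exact_mod_cast h3
        have h4 := hb h hh2
        have h5 := hb X hX1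
        have h6 := hM l
        linarith)
    have hh'4 : ∀ l l', l' ≠ l → Γ.Adj (h l') (h' l) ∧ Γ.Adj (X l') (h' l) := fun l =>
      (mem_filter.1 (hh'1 l)).2
    have c1 : Conn Γ (fun i => h (cs i)) (fun i => h' (cs i)) :=
      conn_exchange hf0 (fun i j hij => hh'3 _ _ (hcs i j hij))
        (fun i j hij => (hh'4 (cs j) (cs i) (hcs i j hij)).1)
    have c2 : Conn Γ (fun i => X (cs i)) (fun i => h' (cs i)) :=
      conn_exchange (fun i j hij => hX2 _ _ (hcs i j hij)) (fun i j hij => hh'3 _ _ (hcs i j hij))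
        (fun i j hij => (hh'4 (cs j) (cs i) (hcs i j hij)).2)
    exact c1.trans c2.symm
  -- essential minima
  choose τ hτ1 hτ2 using fun l => ess_min (G l) u (δ * t) hδt (hGδ l)
  obtain ⟨X, hX1, hX2, hX3⟩ := hsel (fun l => (G l).filter (fun y => u y ≤ τ l))
    (fun l => filter_subset _ _) hτ1
  have h1 := hu _ (hconn X hX2 hX3)
  have h2 : (k : ℝ) ≤ ∑ i : Fin k, τ (cs i) :=
    h1.trans (sum_le_sum (fun i _ => (mem_filter.1 (hX1 (cs i))).2))
  have hτ0 : ∀ l, 0 ≤ τ l := fun l => (hu0 _).trans (mem_filter.1 (hX1 l)).2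
  have h3 : ∀ l, τ l * (M - δ * t) ≤ ∑ y ∈ G l, u y := by
    intro l
    have e1 : ((G l).card : ℝ) = ((G l).filter (fun y => u y < τ l)).card +
        ((G l).filter (fun y => ¬ u y < τ l)).card := by
      have := card_filter_add_card_filter_not (s := G l) (fun y => u y < τ l)
      exact_mod_cast this.symm
    have e2 : M - δ * t ≤ ((G l).filter (fun y => ¬ u y < τ l)).card := by
      linarith [hM l, hτ2 l]
    calc τ l * (M - δ * t) ≤ τ l * ((G l).filter (fun y => ¬ u y < τ l)).card :=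
          mul_le_mul_of_nonneg_left e2 (hτ0 l)
      _ = ∑ y ∈ (G l).filter (fun y => ¬ u y < τ l), τ l := by
          rw [sum_const, nsmul_eq_mul]; ring
      _ ≤ ∑ y ∈ (G l).filter (fun y => ¬ u y < τ l), u y :=
          sum_le_sum (fun y hy => not_lt.1 (mem_filter.1 hy).2)
      _ ≤ ∑ y ∈ G l, u y :=
          sum_le_sum_of_subset_of_nonneg (filter_subset _ _) (fun y _ _ => hu0 y)
  have h4 : ∑ i : Fin k, ∑ y ∈ G (cs i), u y ≤ ∑ v, u v := by
    rw [← sum_biUnion (fun i _ j _ hij => hGd _ _ (hcs i j hij))]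
    exact sum_le_sum_of_subset_of_nonneg (subset_univ _) (fun y _ _ => hu0 y)
  have hMδ : 0 ≤ M - δ * t := by linarith
  calc k * (M - δ * t) ≤ (∑ i : Fin k, τ (cs i)) * (M - δ * t) := by gcongr
    _ = ∑ i : Fin k, τ (cs i) * (M - δ * t) := by rw [sum_mul]
    _ ≤ ∑ i : Fin k, ∑ y ∈ G (cs i), u y := sum_le_sum (fun i _ => h3 (cs i))
    _ ≤ ∑ v, u v := h4
    _ ≤ Bd := huB

end Pool.Agent.H35.BW
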