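import Mathlib

set_option autoImplicit false

/-!
Finite matrix games: von Neumann's theorem in the form of an alternative.
-/

namespace Pool.Agent.H35.BW

open Finset

/-- the bilinear form of a matrix -/
noncomputable def bil {E V : Type} [Fintype E] [Fintype V] (a : E → V → ℝ) (p : E → ℝ)
    (q : V → ℝ) : ℝ := ∑ e, ∑ v, p e * q v * a e v

theorem bil_eq1 {E V : Type} [Fintype E] [Fintype V] (a : E → V → ℝ) (p : E → ℝ)
    (q : V → ℝ) : bil a p q = ∑ e, p e * ∑ v, q v * a e v := by
  unfold bil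
  refine sum_congr rfl (fun e _ => ?_)
  rw [mul_sum]
  exact sum_congr rfl (fun v _ => by ring)

theorem bil_eq2 {E V : Type} [Fintype E] [Fintype V] (a : E → V → ℝ) (p : E → ℝ)
    (q : V → ℝ) : bil a p q = ∑ v, q v * ∑ e, p e * a e v := by
  unfold bil
  rw [sum_comm]
  refine sum_congr rfl (fun e _ => ?_)
  rw [mul_sum]
  exact sum_congr rfl (fun v _ => by ring)

theorem continuous_bil1 {E V : Type} [Fintype E] [Fintype V] (a : E → V → ℝ) (q : V → ℝ) :
    Continuous fun p : E → ℝ => bil a p q := by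
  unfold bil
  fun_prop

theorem continuous_bil2 {E V : Type} [Fintype E] [Fintype V] (a : E → V → ℝ) (p : E → ℝ) :
    Continuous fun q : V → ℝ => bil a p q := by
  unfold bil
  fun_prop

theorem bil_comb1 {E V : Type} [Fintype E] [Fintype V] (a : E → V → ℝ) (q : V → ℝ)
    (s t : ℝ) (p p' : E → ℝ) : bil a (s • p + t • p') q = s * bil a p q + t * bil a p' q := by
  rw [bil_eq1, bil_eq1, bil_eq1, mul_sum, mul_sum, ← sum_add_distrib]
  refine sum_congr rfl (fun e _ => ?_)
  simp only [Pi.add_apply, Pi.smul_apply, smul_eq_mul]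
  ring

theorem bil_comb2 {E V : Type} [Fintype E] [Fintype V] (a : E → V → ℝ) (p : E → ℝ)
    (s t : ℝ) (q q' : V → ℝ) : bil a p (s • q + t • q') = s * bil a p q + t * bil a p q' := by
  rw [bil_eq2, bil_eq2, bil_eq2, mul_sum, mul_sum, ← sum_add_distrib]
  refine sum_congr rfl (fun e _ => ?_)
  simp only [Pi.add_apply, Pi.smul_apply, smul_eq_mul]
  ring

/-- **Alternative for matrix games.** -/
theorem duality {E V : Type} [Fintype E] [Fintype V] [Nonempty E] [Nonempty V]
    (a : E → V → ℝ) (θ : ℝ) :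
    (∃ p ∈ stdSimplex ℝ E, ∀ v, ∑ e, p e * a e v ≤ θ) ∨
    (∃ q ∈ stdSimplex ℝ V, ∀ e, θ < ∑ v, q v * a e v) := by
  classical
  have neE : (stdSimplex ℝ E).Nonempty := by
    obtain ⟨e⟩ := ‹Nonempty E›
    exact ⟨_, single_mem_stdSimplex ℝ e⟩
  have neV : (stdSimplex ℝ V).Nonempty := by
    obtain ⟨e⟩ := ‹Nonempty V›
    exact ⟨_, single_mem_stdSimplex ℝ e⟩
  obtain ⟨p, hp, q, hq, h⟩ := Sion.exists_isSaddlePointOn (f := bil a) (X := stdSimplex ℝ E)
    (Y := stdSimplex ℝ V)
    neE (convex_stdSimplex ℝ E) (isCompact_stdSimplex ℝ E)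
    (fun q _ => (continuous_bil1 a q).continuousOn.lowerSemicontinuousOn)
    (fun q _ => by
      refine ConvexOn.quasiconvexOn ⟨convex_stdSimplex ℝ E, ?_⟩
      intro x _ y _ s t _ _ _
      show bil a (s • x + t • y) q ≤ s * bil a x q + t * bil a y q
      rw [bil_comb1])
    (convex_stdSimplex ℝ V) neV (isCompact_stdSimplex ℝ V)
    (fun p _ => (continuous_bil2 a p).continuousOn.upperSemicontinuousOn)
    (fun p _ => by
      refine ConcaveOn.quasiconcaveOn ⟨convex_stdSimplex ℝ V, ?_⟩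
      intro x _ y _ s t _ _ _
      show s * bil a p x + t * bil a p y ≤ bil a p (s • x + t • y)
      rw [bil_comb2])
  rcases le_or_gt (bil a p q) θ with h0 | h0
  · left
    refine ⟨p, hp, fun v => ?_⟩
    have h1 := h p hp (Pi.single v 1) (single_mem_stdSimplex ℝ v)
    refine le_trans (le_of_eq ?_) (h1.trans h0)
    rw [bil_eq2, sum_eq_single v]
    · simp
    · intro w _ hw
      simp [Pi.single_eq_of_ne hw]
    · simp
  · right
    refine ⟨q, hq, fun e => ?_⟩
    have h1 := h (Pi.single e 1) (single_mem_stdSimplex ℝ e) q hq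
    refine lt_of_lt_of_le (h0.trans_le h1) (le_of_eq ?_)
    rw [bil_eq1, sum_eq_single e]
    · simp
    · intro w _ hw
      simp [Pi.single_eq_of_ne hw]
    · simp

end Pool.Agent.H35.BW
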