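import Mathlib
import Pool.Agent.H35.BW.LP
import Pool.Agent.H35.BW.Groups

set_option autoImplicit false

/-!
Fractional tilings from the absence of covers, and transitions between ordered cliques.
-/

namespace Pool.Agent.H35.BW

open Finset Classical

theorem tile_of_not_cover {V : Type} [Fintype V] [Nonempty V] (Γ : SimpleGraph V) (k : ℕ)
    (Bd : ℝ) (hBd : 0 < Bd) (h : ¬ HasCover Γ k Bd) :
    ∃ f0 : Fin k → V, OC Γ f0 ∧ (∃ z, ∀ i, Γ.Adj z (f0 i)) ∧
      ∃ p : {g : Fin k → V // Conn Γ f0 g} → ℝ, (∀ g, 0 ≤ p g) ∧ ∑ g, p g = 1 ∧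
        ∀ v, ∑ g, p g * (∑ i, if g.1 i = v then (1 : ℝ) else 0) ≤ k / Bd := by
  unfold HasCover at h
  push Not at h
  obtain ⟨f0, h1, h2, h3⟩ := h
  refine ⟨f0, h1, h2, ?_⟩
  have : Nonempty {g : Fin k → V // Conn Γ f0 g} := ⟨⟨f0, Conn.refl h1⟩⟩
  rcases duality (fun (g : {g : Fin k → V // Conn Γ f0 g}) (v : V) =>
    ∑ i, if g.1 i = v then (1 : ℝ) else 0) (k / Bd) with ⟨p, hp, hp2⟩ | ⟨q, hq, hq2⟩
  · exact ⟨p, hp.1, hp.2, hp2⟩
  · exfalso
    obtain ⟨g, hg, hg2⟩ := h3 (fun v => Bd * q v) (fun v => mul_nonneg hBd.le (hq.1 v))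
      (by rw [← mul_sum, hq.2, mul_one])
    have h4 := hq2 ⟨g, hg⟩
    have h5 : ∑ v, q v * (∑ i, if g i = v then (1 : ℝ) else 0) = ∑ i, q (g i) := by
      simp_rw [mul_sum]
      rw [sum_comm]
      refine sum_congr rfl (fun i _ => ?_)
      simp
    rw [← mul_sum] at hg2
    simp only at h4
    rw [h5, div_lt_iff₀ hBd] at h4
    linarith

/-- the graph of steps -/
def stepGraph {V : Type} (Γ : SimpleGraph V) (k : ℕ) : SimpleGraph (Fin k → V) :=
  SimpleGraph.fromRel (Stp Γ)

theorem stepGraph_adj {V : Type} (Γ : SimpleGraph V) (k : ℕ) (f g : Fin k → V) :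
    (stepGraph Γ k).Adj f g ↔ f ≠ g ∧ (Stp Γ f g ∨ Stp Γ g f) :=
  SimpleGraph.fromRel_adj _ _ _

theorem transition {V : Type} [Fintype V] (Γ : SimpleGraph V) (k : ℕ) (f g : Fin k → V)
    (h : Conn Γ f g) (T : ℕ) (hT : (Fintype.card V) ^ k ≤ T) :
    ∃ w : ℕ → Fin k → V, w 0 = f ∧ (∀ j, T ≤ j → w j = g) ∧ (∀ j, OC Γ (w j)) ∧
      ∀ j, w j = w (j + 1) ∨ Stp Γ (w j) (w (j + 1)) := by
  have hreach : (stepGraph Γ k).Reachable f g := by
    obtain ⟨h1, h2⟩ := h
    induction h2 with
    | refl => exact SimpleGraph.Reachable.refl _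
    | @tail a c h3 h4 ih =>
      by_cases hac : a = c
      · rw [← hac]; exact ih
      · refine ih.trans (SimpleGraph.Adj.reachable ?_)
        rw [stepGraph_adj]
        exact ⟨hac, Or.inl h4⟩
  obtain ⟨p, hp⟩ := hreach.exists_isPath
  have hlen : p.length < (Fintype.card V) ^ k := by
    have := hp.length_lt
    rwa [Fintype.card_fun, Fintype.card_fin] at this
  have hOC : ∀ j, Conn Γ f (p.getVert j) := by
    intro j
    induction j with
    | zero =>
      rw [SimpleGraph.Walk.getVert_zero]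
      exact Conn.refl h.1
    | succ j ih =>
      by_cases hj : j < p.length
      · have := p.adj_getVert_succ hj
        rw [stepGraph_adj] at this
        rcases this.2 with h5 | h5
        · exact ih.trans h5.conn
        · exact ih.trans h5.symm.conn
      · rw [not_lt] at hj
        rw [p.getVert_of_length_le (by omega)]
        exact h
  refine ⟨p.getVert, p.getVert_zero, ?_, fun j => (hOC j).right, ?_⟩
  · intro j hj
    exact p.getVert_of_length_le (by omega)
  · intro j
    by_cases hj : j < p.length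
    · have := p.adj_getVert_succ hj
      rw [stepGraph_adj] at this
      rcases this.2 with h5 | h5
      · exact Or.inr h5
      · exact Or.inr h5.symm
    · rw [not_lt] at hj
      left
      rw [p.getVert_of_length_le hj, p.getVert_of_length_le (by omega)]

end Pool.Agent.H35.BW
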