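import Mathlib
import Pool.Agent.H35.BW.Tile
import Pool.Agent.H35.BW.Derand

set_option autoImplicit false

/-!
The assignment of the vertices of a graph of small bandwidth to the clusters.
-/

namespace Pool.Agent.H35.BW

open Finset Classical

theorem assign {V : Type} [Fintype V] (Γ : SimpleGraph V) (k : ℕ) (hk : 1 ≤ k)
    (f0 : Fin k → V) (z : V) (hz : ∀ i, Γ.Adj z (f0 i))
    (p : {g : Fin k → V // Conn Γ f0 g} → ℝ) (hp0 : ∀ g, 0 ≤ p g) (hp1 : ∑ g, p g = 1)
    (θ : ℝ) (hθ0 : 0 ≤ θ) (hθ : ∀ v, ∑ g, p g * (∑ i, if g.1 i = v then (1 : ℝ) else 0) ≤ θ)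
    (T : ℕ) (hT : (Fintype.card V) ^ k ≤ T) (K : ℕ) (hK : 1 ≤ K) (B : ℕ) (hB : 1 ≤ B) (n M : ℕ)
    (hM : n ≤ M * ((T + K) * B)) (R : ℝ) (hR : 0 ≤ R)
    (hR2 : (M : ℝ) * (((T + K) * B : ℕ) : ℝ) ^ 2 ≤ R ^ 2) (c : Fin n → Fin k) :
    ∃ φ : Fin n → V, (∀ x y : Fin n, x.val < y.val + B → y.val < x.val + B → c x ≠ c y →
      Γ.Adj (φ x) (φ y)) ∧
      ∀ a, (((univ : Finset (Fin n)).filter (fun x => φ x = a)).card : ℝ) ≤
        n * θ / k + R + (M * T * B : ℕ) := by
  have : NeZero k := ⟨by omega⟩
  have hk0 : (0 : ℝ) < k := by exact_mod_cast hk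
  -- the stay sets
  obtain ⟨S, hS⟩ : ∃ S : ℕ → Finset (Fin n), S = fun q => univ.filter (fun x : Fin n =>
    x.val / B / (T + K) = q ∧ T ≤ x.val / B % (T + K)) := ⟨_, rfl⟩
  have hScard : ∀ q, (S q).card ≤ (T + K) * B := by
    intro q
    have : (S q).card ≤ (Ico (q * ((T + K) * B)) (q * ((T + K) * B) + (T + K) * B)).card := by
      refine card_le_card_of_injOn (fun x => x.val) ?_ ?_
      · intro x hx
        rw [mem_coe, hS, mem_filter] at hx
        have h1 := hx.2.1
        rw [Nat.div_div_eq_div_mul] at h1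
        have hpos : 0 < B * (T + K) := Nat.mul_pos hB (by omega)
        have h2 := Nat.div_add_mod x.val (B * (T + K))
        have h3 := Nat.mod_lt x.val hpos
        rw [h1] at h2
        rw [coe_Ico, Set.mem_Ico]
        have e1 : q * ((T + K) * B) = B * (T + K) * q := by ring
        have e2 : (T + K) * B = B * (T + K) := by ring
        rw [e1, e2]
        simp only
        constructor <;> omega
      · intro x _ y _ hxy
        exact Fin.ext hxy
    rw [Nat.card_Ico] at this
    omega
  -- the random choice
  obtain ⟨w, hw⟩ : ∃ w : {g : Fin k → V // Conn Γ f0 g} × Fin k → ℝ,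
    w = fun ω => p ω.1 / k := ⟨_, rfl⟩
  have hw0 : ∀ ω, 0 ≤ w ω := fun ω => by rw [hw]; exact div_nonneg (hp0 _) hk0.le
  have hw1 : ∑ ω, w ω = 1 := by
    rw [hw, Fintype.sum_prod_type]
    simp only [sum_const, card_univ, Fintype.card_fin, nsmul_eq_mul]
    rw [← hp1]
    refine sum_congr rfl (fun g _ => ?_)
    field_simp
  obtain ⟨X, hX⟩ : ∃ X : ℕ → {g : Fin k → V // Conn Γ f0 g} × Fin k → V → ℝ,
    X = fun q ω a => ∑ x ∈ S q, if ω.1.1 (c x + ω.2) = a then (1 : ℝ) else 0 := ⟨_, rfl⟩
  have hX0 : ∀ q ω a, 0 ≤ X q ω a := by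
    intro q ω a
    rw [hX]
    exact sum_nonneg (fun x _ => by split_ifs <;> norm_num)
  have hX1 : ∀ q ω, ∑ a, X q ω a ≤ (((T + K) * B : ℕ) : ℝ) := by
    intro q ω
    rw [hX]
    simp only
    rw [sum_comm]
    simp only [sum_ite_eq, mem_univ, if_true, sum_const, nsmul_eq_mul, mul_one]
    exact_mod_cast hScard q
  obtain ⟨o, ho⟩ := derand w hw0 hw1 X _ hX0 hX1 M
  -- the mean
  have hμ : ∀ q a, ∑ ω, w ω * X q ω a ≤ (S q).card * (θ / k) := by
    intro q a
    have e1 : ∑ ω, w ω * X q ω a = ∑ x ∈ S q, ∑ g, p g / k *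
        ∑ i, (if g.1 i = a then (1 : ℝ) else 0) := by
      rw [hw, hX]
      simp only
      simp_rw [mul_sum]
      rw [sum_comm]
      refine sum_congr rfl (fun x _ => ?_)
      rw [Fintype.sum_prod_type]
      refine sum_congr rfl (fun g _ => ?_)
      simp only
      exact (Equiv.sum_comp (Equiv.addLeft (c x))
        (fun i => p g / k * (if g.1 i = a then (1 : ℝ) else 0)))
    rw [e1]
    calc ∑ x ∈ S q, ∑ g, p g / k * ∑ i, (if g.1 i = a then (1 : ℝ) else 0)
        ≤ ∑ x ∈ S q, θ / k := by
          refine sum_le_sum (fun x _ => ?_)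
          have : ∑ g, p g / k * ∑ i, (if g.1 i = a then (1 : ℝ) else 0) =
              (∑ g, p g * ∑ i, (if g.1 i = a then (1 : ℝ) else 0)) / k := by
            rw [sum_div]
            exact sum_congr rfl (fun g _ => by ring)
          rw [this]
          exact div_le_div_of_nonneg_right (hθ a) hk0.le
      _ = (S q).card * (θ / k) := by rw [sum_const, nsmul_eq_mul]
  have hSsum : ∑ q ∈ range M, (S q).card ≤ n := by
    have hd : (↑(range M) : Set ℕ).PairwiseDisjoint S := by
      intro q _ q' _ hqq
      change Disjoint (S q) (S q')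
      rw [disjoint_left]
      intro x hx hx'
      rw [hS, mem_filter] at hx hx'
      exact hqq (hx.2.1.symm.trans hx'.2.1)
    rw [← card_biUnion hd]
    refine (card_le_univ _).trans ?_
    simp
  have hload : ∀ a, ∑ q ∈ range M, X q (o q) a ≤ n * θ / k + R := by
    intro a
    have h1 : (∑ q ∈ range M, (X q (o q) a - ∑ ω, w ω * X q ω a)) ^ 2 ≤ R ^ 2 := by
      refine le_trans ?_ (ho.trans hR2)
      exact single_le_sum (f := fun a => (∑ q ∈ range M, (X q (o q) a -
        ∑ ω, w ω * X q ω a)) ^ 2) (fun a _ => sq_nonneg _) (mem_univ a)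
    have h2 := abs_le_of_sq_le_sq h1 hR
    have h3 := (abs_le.1 (abs_le_of_sq_le_sq h1 hR |> fun h => (by
      exact h : |∑ q ∈ range M, (X q (o q) a - ∑ ω, w ω * X q ω a)| ≤ R))).2
    rw [sum_sub_distrib] at h3
    have h4 : ∑ q ∈ range M, ∑ ω, w ω * X q ω a ≤ n * (θ / k) := by
      calc ∑ q ∈ range M, ∑ ω, w ω * X q ω a ≤ ∑ q ∈ range M, (S q).card * (θ / k) :=
            sum_le_sum (fun q _ => hμ q a)
        _ = (∑ q ∈ range M, ((S q).card : ℝ)) * (θ / k) := by rw [sum_mul]
        _ ≤ n * (θ / k) := by
            refine mul_le_mul_of_nonneg_right ?_ (div_nonneg hθ0 hk0.le)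
            exact_mod_cast hSsum
    have h5 : n * θ / k = n * (θ / k) := by ring
    rw [h5]
    linarith
  -- the cliques
  obtain ⟨e, he⟩ : ∃ e : ℕ → Fin k → V, e = fun q =>
    match q with
    | 0 => f0
    | q + 1 => (o q).1.1 ∘ (Equiv.addRight (o q).2) := ⟨_, rfl⟩
  have he0 : ∀ q, Conn Γ f0 (e q) := by
    intro q
    rw [he]
    rcases q with _ | q
    · exact Conn.refl (Conn.symm (o 0).1.2).right
    · exact Conn.perm (o q).1.2 z hz _
  have he1 : ∀ q i, e (q + 1) i = (o q).1.1 (i + (o q).2) := by
    intro q i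
    rw [he]
    rfl
  have htr : ∀ q, ∃ w : ℕ → Fin k → V, w 0 = e q ∧ (∀ j, T ≤ j → w j = e (q + 1)) ∧
      (∀ j, OC Γ (w j)) ∧ ∀ j, w j = w (j + 1) ∨ Stp Γ (w j) (w (j + 1)) := fun q =>
    transition Γ k _ _ ((he0 q).symm.trans (he0 (q + 1))) T hT
  choose W hW0 hWT hWO hWS using htr
  obtain ⟨F, hF⟩ : ∃ F : ℕ → Fin k → V, F = fun j => W (j / (T + K)) (j % (T + K)) := ⟨_, rfl⟩
  have hFO : ∀ j, OC Γ (F j) := fun j => by rw [hF]; exact hWO _ _
  have hFS : ∀ j, F j = F (j + 1) ∨ Stp Γ (F j) (F (j + 1)) := by
    intro j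
    have hpos : 0 < T + K := by omega
    have hmod := Nat.mod_lt j hpos
    have hdm := Nat.div_add_mod j (T + K)
    rcases Nat.lt_or_ge (j % (T + K) + 1) (T + K) with h1 | h1
    · have h2 : (j + 1) / (T + K) = j / (T + K) := by
        rw [Nat.div_eq_of_lt_le]
        · have : j / (T + K) * (T + K) ≤ j := Nat.div_mul_le_self _ _
          omega
        · have e1 : (j / (T + K) + 1) * (T + K) = (T + K) * (j / (T + K)) + (T + K) := by ring
          rw [e1]
          omega
      have h3 : (j + 1) % (T + K) = j % (T + K) + 1 := by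
        have := Nat.div_add_mod (j + 1) (T + K)
        rw [h2] at this
        omega
      rw [hF]
      simp only
      rw [h2, h3]
      exact hWS _ _
    · have h0 : j % (T + K) + 1 = T + K := by omega
      have h2 : (j + 1) / (T + K) = j / (T + K) + 1 := by
        rw [Nat.div_eq_of_lt_le]
        · have e1 : (j / (T + K) + 1) * (T + K) = (T + K) * (j / (T + K)) + (T + K) := by ring
          rw [e1]
          omega
        · have e1 : (j / (T + K) + 1 + 1) * (T + K) =
            (T + K) * (j / (T + K)) + (T + K) + (T + K) := by ring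
          rw [e1]
          omega
      have h3 : (j + 1) % (T + K) = 0 := by
        have := Nat.div_add_mod (j + 1) (T + K)
        rw [h2] at this
        have e1 : (T + K) * (j / (T + K) + 1) = (T + K) * (j / (T + K)) + (T + K) := by ring
        rw [e1] at this
        omega
      have h4 : F (j + 1) = W (j / (T + K)) (j % (T + K) + 1) := by
        rw [hF]
        simp only
        rw [h2, h3, hW0, h0, hWT _ _ (by omega)]
      rw [h4, hF]
      exact hWS _ _
  -- adjacency between equal or consecutive blocks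
  have hadj1 : ∀ j (i i' : Fin k), i ≠ i' → Γ.Adj (F j i) (F (j + 1) i') := by
    intro j i i' hii
    rcases hFS j with h1 | h1
    · rw [← h1]
      exact hFO j i i' hii
    · obtain ⟨l, hl⟩ := h1.2.2
      by_cases hil : i = l
      · rw [← hl i' (fun h => hii (hil.trans h.symm))]
        exact hFO j i i' hii
      · rw [hl i hil]
        exact hFO (j + 1) i i' hii
  refine ⟨fun x => F (x.val / B) (c x), ?_, ?_⟩
  · intro x y hxy hyx hc
    change Γ.Adj (F (x.val / B) (c x)) (F (y.val / B) (c y))
    have hBpos : 0 < B := hB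
    have hd1 : x.val / B ≤ y.val / B + 1 := by
      rw [← Nat.add_div_right _ hBpos]
      exact Nat.div_le_div_right hxy.le
    have hd2 : y.val / B ≤ x.val / B + 1 := by
      rw [← Nat.add_div_right _ hBpos]
      exact Nat.div_le_div_right hyx.le
    rcases Nat.lt_trichotomy (x.val / B) (y.val / B) with h | h | h
    · have : y.val / B = x.val / B + 1 := by omega
      rw [this]
      exact hadj1 _ _ _ hc
    · rw [h]
      exact hFO _ _ _ hc
    · have : x.val / B = y.val / B + 1 := by omega
      rw [this]
      exact (hadj1 _ _ _ hc.symm).symm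
  · intro a
    -- split
    have hsplit : (univ : Finset (Fin n)).filter (fun x => F (x.val / B) (c x) = a) ⊆
        (range M).biUnion (fun q => (S q).filter (fun x => e (q + 1) (c x) = a)) ∪
        univ.filter (fun x : Fin n => x.val / B % (T + K) < T) := by
      intro x hx
      rw [mem_filter] at hx
      rw [mem_union]
      by_cases hxT : x.val / B % (T + K) < T
      · right
        simp [hxT]
      · left
        rw [not_lt] at hxT
        rw [mem_biUnion]
        refine ⟨x.val / B / (T + K), ?_, ?_⟩
        · rw [mem_range, Nat.div_div_eq_div_mul]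
          have hpos : 0 < B * (T + K) := Nat.mul_pos hB (by omega)
          rw [Nat.div_lt_iff_lt_mul hpos]
          have := x.isLt
          have e1 : M * (B * (T + K)) = M * ((T + K) * B) := by ring
          rw [e1]
          omega
        · rw [mem_filter]
          refine ⟨?_, ?_⟩
          · rw [hS, mem_filter]
            exact ⟨mem_univ _, rfl, hxT⟩
          · have := hx.2
            rw [hF] at this
            simp only at this
            rwa [hWT _ _ hxT] at this
    have htrans : ((univ : Finset (Fin n)).filter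
        (fun x : Fin n => x.val / B % (T + K) < T)).card ≤ M * T * B := by
      have : ((univ : Finset (Fin n)).filter
          (fun x : Fin n => x.val / B % (T + K) < T)).card ≤
          ((range M ×ˢ range T) ×ˢ range B).card := by
        refine card_le_card_of_injOn (fun x => ((x.val / B / (T + K), x.val / B % (T + K)),
          x.val % B)) ?_ ?_
        · intro x hx
          rw [mem_coe, mem_filter] at hx
          rw [mem_coe, mem_product, mem_product, mem_range, mem_range, mem_range]
          refine ⟨⟨?_, hx.2⟩, Nat.mod_lt _ hB⟩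
          simp only
          rw [Nat.div_div_eq_div_mul]
          have hpos : 0 < B * (T + K) := Nat.mul_pos hB (by omega)
          rw [Nat.div_lt_iff_lt_mul hpos]
          have := x.isLt
          have e1 : M * (B * (T + K)) = M * ((T + K) * B) := by ring
          rw [e1]
          omega
        · intro x _ y _ hxy
          simp only [Prod.mk.injEq] at hxy
          obtain ⟨⟨h1, h2⟩, h3⟩ := hxy
          apply Fin.ext
          have h4 : x.val / B = y.val / B := by
            rw [← Nat.div_add_mod (x.val / B) (T + K), ← Nat.div_add_mod (y.val / B) (T + K),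
              h1, h2]
          rw [← Nat.div_add_mod x.val B, ← Nat.div_add_mod y.val B, h4, h3]
      rwa [card_product, card_product, card_range, card_range, card_range] at this
    have hcount : ((((range M).biUnion
        (fun q => (S q).filter (fun x => e (q + 1) (c x) = a))).card : ℕ) : ℝ) ≤
        ∑ q ∈ range M, X q (o q) a := by
      refine le_trans (Nat.cast_le.2 card_biUnion_le) ?_
      rw [Nat.cast_sum]
      refine sum_le_sum (fun q _ => ?_)
      rw [hX]
      simp only
      rw [card_filter]
      push_cast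
      refine sum_le_sum (fun x _ => ?_)
      rw [he1]
    have h1 := (card_le_card hsplit).trans (card_union_le _ _)
    have h2 : (((univ : Finset (Fin n)).filter (fun x => F (x.val / B) (c x) = a)).card : ℝ) ≤
        (((range M).biUnion (fun q => (S q).filter (fun x => e (q + 1) (c x) = a))).card : ℝ) +
        (((univ : Finset (Fin n)).filter
          (fun x : Fin n => x.val / B % (T + K) < T)).card : ℝ) := by exact_mod_cast h1
    have h3 : (((univ : Finset (Fin n)).filter
        (fun x : Fin n => x.val / B % (T + K) < T)).card : ℝ) ≤ ((M * T * B : ℕ) : ℝ) := by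
      exact_mod_cast htrans
    linarith [hload a]

end Pool.Agent.H35.BW
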