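import Mathlib
import Pool.Agent.H35.BW.Sel

set_option autoImplicit false

/-!
The theorem of Kővári, Sós and Turán, Ramsey's theorem, and the decomposition into monochromatic
cliques.
-/

namespace Pool.Agent.H35.BW

open Finset Classical

/-- double counting: a popular vertex -/
theorem popular {V P : Type} (Q : Finset V) (Y : Finset P) (r : V → P → Prop) (d : ℝ)
    (hQ : Q.Nonempty)
    (h : ∀ y ∈ Y, d ≤ ((Q.filter (fun x => r x y)).card : ℝ)) :
    ∃ x ∈ Q, d * Y.card / Q.card ≤ ((Y.filter (fun y => r x y)).card : ℝ) := by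
  have hQ0 : (0 : ℝ) < Q.card := by exact_mod_cast hQ.card_pos
  by_contra hno
  push Not at hno
  have h1 : ∑ x ∈ Q, ((Y.filter (fun y => r x y)).card : ℝ) < ∑ x ∈ Q, d * Y.card / Q.card :=
    sum_lt_sum_of_nonempty hQ hno
  have h2 : ∑ x ∈ Q, ((Y.filter (fun y => r x y)).card : ℝ) =
      ∑ y ∈ Y, ((Q.filter (fun x => r x y)).card : ℝ) := by
    have e1 : ∀ x : V, ((Y.filter (fun y => r x y)).card : ℝ) =
        ∑ y ∈ Y, if r x y then (1 : ℝ) else 0 := fun x => by
      rw [← sum_filter, sum_const, nsmul_eq_mul, mul_one]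
    have e2 : ∀ y : P, ((Q.filter (fun x => r x y)).card : ℝ) =
        ∑ x ∈ Q, if r x y then (1 : ℝ) else 0 := fun x => by
      rw [← sum_filter, sum_const, nsmul_eq_mul, mul_one]
    simp_rw [e1, e2]
    exact sum_comm
  rw [h2, sum_const, nsmul_eq_mul] at h1
  have h3 : ∑ y ∈ Y, d ≤ ∑ y ∈ Y, ((Q.filter (fun x => r x y)).card : ℝ) := sum_le_sum h
  rw [sum_const, nsmul_eq_mul] at h3
  have e : (Q.card : ℝ) * (d * Y.card / Q.card) = Y.card * d := by field_simp
  linarith

/-- **Kővári–Sós–Turán.** -/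
theorem kst (k : ℕ) (γ : ℝ) (hγ : 0 < γ) (hγ1 : γ ≤ 1) : ∃ s1 : ℕ, ∀ (V : Type)
    (Γ : SimpleGraph V) (Q Q' : Finset V) (s : ℕ), s1 ≤ s → Q.card = s → Q'.card = s →
    γ * (s : ℝ) ^ 2 < (((Q ×ˢ Q').filter (fun p => Γ.Adj p.1 p.2)).card : ℝ) →
    ∃ p q : Fin k → V, Function.Injective p ∧ Function.Injective q ∧ (∀ i, p i ∈ Q) ∧
      (∀ i, q i ∈ Q') ∧ ∀ i j, Γ.Adj (p i) (q j) := by
  obtain ⟨s1, hs1⟩ := exists_nat_ge (((k : ℝ) + 1) * (4 / γ) ^ (k + 1))
  refine ⟨s1 + 1, ?_⟩
  intro V Γ Q Q' s hs hQ hQ' hmany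
  have hs0 : 0 < s := by omega
  have hs0' : (0 : ℝ) < s := by exact_mod_cast hs0
  have hsbig : ((k : ℝ) + 1) * (4 / γ) ^ (k + 1) ≤ s := by
    refine hs1.trans ?_
    exact_mod_cast (by omega : s1 ≤ s)
  have hγ4 : 1 ≤ 4 / γ := by
    rw [le_div_iff₀ hγ]; linarith
  have hk1 : (0 : ℝ) < (k : ℝ) + 1 := by positivity
  -- 4/γ * k ≤ s
  have hA : ((k : ℝ) + 1) * (4 / γ) ≤ s := by
    refine le_trans ?_ hsbig
    have : (4 / γ) ^ 1 ≤ (4 / γ) ^ (k + 1) := pow_le_pow_right₀ hγ4 (by omega)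
    rw [pow_one] at this
    gcongr
  have hA' : (k : ℝ) + 1 ≤ γ / 4 * s := by
    have : ((k : ℝ) + 1) * (4 / γ) * (γ / 4) ≤ s * (γ / 4) := by gcongr
    calc (k : ℝ) + 1 = ((k : ℝ) + 1) * (4 / γ) * (γ / 4) := by field_simp
      _ ≤ _ := this
      _ = _ := by ring
  -- rich vertices
  set Y := Q'.filter (fun y => γ / 2 * s ≤ ((Q.filter (fun x => Γ.Adj x y)).card : ℝ)) with hY
  have hQne : Q.Nonempty := by rw [← card_pos, hQ]; exact hs0
  have hYcard : γ / 2 * s ≤ (Y.card : ℝ) := by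
    have e1 : (((Q ×ˢ Q').filter (fun p => Γ.Adj p.1 p.2)).card : ℝ) =
        ∑ y ∈ Q', ((Q.filter (fun x => Γ.Adj x y)).card : ℝ) := by
      have e2 : ∀ y : V, ((Q.filter (fun x => Γ.Adj x y)).card : ℝ) =
          ∑ x ∈ Q, if Γ.Adj x y then (1 : ℝ) else 0 := fun x => by
        rw [← sum_filter, sum_const, nsmul_eq_mul, mul_one]
      simp_rw [e2]
      rw [sum_comm, ← sum_product (s := Q) (t := Q')
        (f := fun p => if Γ.Adj p.1 p.2 then (1 : ℝ) else 0), ← sum_filter, sum_const,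
        nsmul_eq_mul, mul_one]
    rw [e1] at hmany
    by_contra hno
    rw [not_le] at hno
    have h1 : ∑ y ∈ Q', ((Q.filter (fun x => Γ.Adj x y)).card : ℝ) ≤
        ∑ y ∈ Q', ((if γ / 2 * s ≤ ((Q.filter (fun x => Γ.Adj x y)).card : ℝ) then (s : ℝ) else 0)
          + γ / 2 * s) := by
      refine sum_le_sum (fun y _ => ?_)
      split_ifs with h
      · have : ((Q.filter (fun x => Γ.Adj x y)).card : ℝ) ≤ s := by
          rw [← hQ]; exact_mod_cast card_filter_le _ _
        have : 0 ≤ γ / 2 * s := by positivity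
        linarith
      · linarith
    rw [sum_add_distrib, ← sum_filter, sum_const, sum_const, nsmul_eq_mul, nsmul_eq_mul, hQ',
      ← hY] at h1
    nlinarith
  -- choosing
  have key : ∀ j : ℕ, j ≤ k → ∃ S : Finset V, S ⊆ Q ∧ S.card = j ∧
      (γ / 4) ^ j * (Y.card : ℝ) ≤ ((Y.filter (fun y => ∀ x ∈ S, Γ.Adj x y)).card : ℝ) := by
    intro j
    induction j with
    | zero =>
      intro _
      exact ⟨∅, empty_subset _, card_empty, by simp⟩
    | succ j ih =>
      intro hj
      obtain ⟨S, hS1, hS2, hS3⟩ := ih (by omega)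
      set YS := Y.filter (fun y => ∀ x ∈ S, Γ.Adj x y) with hYS
      have hne : (Q \ S).Nonempty := by
        rw [← card_pos, card_sdiff_of_subset hS1, hQ, hS2]
        have : (k : ℝ) + 1 ≤ s := by nlinarith
        have : k + 1 ≤ s := by exact_mod_cast this
        omega
      obtain ⟨x, hx, hx2⟩ := popular (Q \ S) YS (fun x y => Γ.Adj x y) (γ / 4 * s) hne (by
        intro y hy
        have hyY : y ∈ Y := (mem_filter.1 hy).1
        have h1 : γ / 2 * s ≤ ((Q.filter (fun x => Γ.Adj x y)).card : ℝ) := (mem_filter.1 hyY).2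
        have h2 : (Q.filter (fun x => Γ.Adj x y)).card ≤
            ((Q \ S).filter (fun x => Γ.Adj x y)).card + S.card := by
          rw [← card_union_add_card_inter]
          refine le_trans (card_le_card ?_) (Nat.le_add_right _ _)
          intro z hz
          rw [mem_filter] at hz
          rw [mem_union, mem_filter, mem_sdiff]
          by_cases hzS : z ∈ S
          · exact Or.inr hzS
          · exact Or.inl ⟨⟨hz.1, hzS⟩, hz.2⟩
        have h3 : ((Q.filter (fun x => Γ.Adj x y)).card : ℝ) ≤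
            ((Q \ S).filter (fun x => Γ.Adj x y)).card + S.card := by exact_mod_cast h2
        have h4 : (S.card : ℝ) ≤ k := by
          rw [hS2]; exact_mod_cast (by omega : j ≤ k)
        linarith)
      have hxQ := (mem_sdiff.1 hx).1
      have hxS := (mem_sdiff.1 hx).2
      refine ⟨insert x S, ?_, ?_, ?_⟩
      · intro z hz
        rw [mem_insert] at hz
        rcases hz with rfl | hz
        · exact hxQ
        · exact hS1 hz
      · rw [card_insert_of_notMem hxS, hS2]
      · have h1 : YS.filter (fun y => Γ.Adj x y) =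
            Y.filter (fun y => ∀ z ∈ insert x S, Γ.Adj z y) := by
          ext y
          simp only [hYS, mem_filter, mem_insert, forall_eq_or_imp]
          tauto
        rw [← h1]
        refine le_trans ?_ hx2
        have hQS : (((Q \ S).card : ℕ) : ℝ) ≤ s := by
          rw [← hQ]; exact_mod_cast card_le_card sdiff_subset
        have hQS0 : (0 : ℝ) < (((Q \ S).card : ℕ) : ℝ) := by exact_mod_cast hne.card_pos
        calc (γ / 4) ^ (j + 1) * (Y.card : ℝ) = γ / 4 * ((γ / 4) ^ j * (Y.card : ℝ)) := by ring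
          _ ≤ γ / 4 * YS.card := by gcongr
          _ = γ / 4 * s * YS.card / s := by field_simp
          _ ≤ γ / 4 * s * YS.card / ((Q \ S).card : ℕ) := by gcongr
  obtain ⟨S, hS1, hS2, hS3⟩ := key k le_rfl
  set YS := Y.filter (fun y => ∀ x ∈ S, Γ.Adj x y) with hYS
  have hbig : k ≤ YS.card := by
    have h1 : (k : ℝ) ≤ YS.card := by
      refine le_trans ?_ hS3
      have h2 : (γ / 4) ^ k * (γ / 2 * s) ≤ (γ / 4) ^ k * (Y.card : ℝ) := by gcongr
      refine le_trans ?_ h2
      have h3 : (γ / 4) ^ k * (γ / 4 * (((k : ℝ) + 1) * (4 / γ) ^ (k + 1))) ≤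
          (γ / 4) ^ k * (γ / 4 * s) := by gcongr
      have h4 : (γ / 4) ^ k * (γ / 4 * (((k : ℝ) + 1) * (4 / γ) ^ (k + 1))) = (k : ℝ) + 1 := by
        have : (γ / 4) ^ (k + 1) * (4 / γ) ^ (k + 1) = 1 := by
          rw [← mul_pow]
          have : γ / 4 * (4 / γ) = 1 := by field_simp
          rw [this, one_pow]
        calc (γ / 4) ^ k * (γ / 4 * (((k : ℝ) + 1) * (4 / γ) ^ (k + 1)))
            = ((k : ℝ) + 1) * ((γ / 4) ^ (k + 1) * (4 / γ) ^ (k + 1)) := by ring
          _ = (k : ℝ) + 1 := by rw [this, mul_one]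
      rw [h4] at h3
      have h5 : (γ / 4) ^ k * (γ / 4 * s) ≤ (γ / 4) ^ k * (γ / 2 * s) := by
        gcongr
        linarith
      linarith
    exact_mod_cast h1
  obtain ⟨S', hS'1, hS'2⟩ := exists_subset_card_eq hbig
  let e := (S.equivFinOfCardEq hS2).symm
  let e' := (S'.equivFinOfCardEq hS'2).symm
  refine ⟨fun i => (e i : V), fun i => (e' i : V), fun i j h => e.injective (Subtype.ext h),
    fun i j h => e'.injective (Subtype.ext h), fun i => hS1 (e i).2, fun i => ?_, fun i j => ?_⟩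
  · exact (mem_filter.1 (mem_filter.1 (hS'1 (e' i).2)).1).1
  · exact (mem_filter.1 (hS'1 (e' j).2)).2 _ (e i).2

/-- **Ramsey's theorem** -/
theorem ramsey {V : Type} (Rd Bl : SimpleGraph V) (n : ℕ) : ∀ a b : ℕ, a + b = n →
    ∀ Z : Finset V, (∀ x ∈ Z, ∀ y ∈ Z, x ≠ y → Rd.Adj x y ∨ Bl.Adj x y) → 2 ^ (a + b) ≤ Z.card →
    (∃ S ⊆ Z, S.card = a ∧ ∀ x ∈ S, ∀ y ∈ S, x ≠ y → Rd.Adj x y) ∨
    (∃ S ⊆ Z, S.card = b ∧ ∀ x ∈ S, ∀ y ∈ S, x ≠ y → Bl.Adj x y) := by
  induction n with
  | zero =>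
    intro a b hab Z _ _
    left
    exact ⟨∅, empty_subset _, by simp; omega, by simp⟩
  | succ n ih =>
    intro a b hab Z hZ hc
    rcases Nat.eq_zero_or_pos a with ha | ha
    · left
      exact ⟨∅, empty_subset _, by simp [ha], by simp⟩
    rcases Nat.eq_zero_or_pos b with hb | hb
    · right
      exact ⟨∅, empty_subset _, by simp [hb], by simp⟩
    have hZne : Z.Nonempty := by
      rw [← card_pos]
      exact lt_of_lt_of_le (Nat.two_pow_pos _) hc
    obtain ⟨v, hv⟩ := hZne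
    set N1 := (Z.erase v).filter (fun y => Rd.Adj v y) with hN1
    set N2 := (Z.erase v).filter (fun y => Bl.Adj v y) with hN2
    have hunion : Z.erase v ⊆ N1 ∪ N2 := by
      intro y hy
      rw [mem_union, hN1, hN2, mem_filter, mem_filter]
      have h1 := hZ v hv y (mem_of_mem_erase hy) (ne_of_mem_erase hy).symm
      tauto
    have hcard : 2 ^ (a + b) ≤ N1.card + N2.card + 1 := by
      have h1 := (card_le_card hunion).trans (card_union_le _ _)
      rw [card_erase_of_mem hv] at h1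
      omega
    obtain ⟨m, hm⟩ : ∃ m, a + b = m + 1 := ⟨n, hab⟩
    have hpow : 2 ^ (a + b) = 2 ^ m + 2 ^ m := by rw [hm]; ring
    have hN1Z : N1 ⊆ Z := (filter_subset _ _).trans (erase_subset _ _)
    have hN2Z : N2 ⊆ Z := (filter_subset _ _).trans (erase_subset _ _)
    have hcases : 2 ^ m ≤ N1.card ∨ 2 ^ m ≤ N2.card := by
      by_contra hno
      push Not at hno
      omega
    rcases hcases with h | h
    · rcases ih (a - 1) b (by omega) N1 (fun x hx y hy hxy => hZ x (hN1Z hx) y (hN1Z hy) hxy)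
        (by rw [show a - 1 + b = m by omega]; exact h) with ⟨S, h1, h2, h3⟩ | ⟨S, h1, h2, h3⟩
      · left
        have hvS : v ∉ S := fun hvS =>
          (ne_of_mem_erase (mem_filter.1 (h1 hvS)).1) rfl
        refine ⟨insert v S, ?_, by rw [card_insert_of_notMem hvS, h2]; omega, ?_⟩
        · intro x hx
          rw [mem_insert] at hx
          rcases hx with rfl | hx
          · exact hv
          · exact hN1Z (h1 hx)
        · intro x hx y hy hxy
          rw [mem_insert] at hx hy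
          rcases hx with rfl | hx
          · rcases hy with rfl | hy
            · exact absurd rfl hxy
            · exact (mem_filter.1 (h1 hy)).2
          · rcases hy with rfl | hy
            · exact (mem_filter.1 (h1 hx)).2.symm
            · exact h3 x hx y hy hxy
      · right
        exact ⟨S, h1.trans hN1Z, h2, h3⟩
    · rcases ih a (b - 1) (by omega) N2 (fun x hx y hy hxy => hZ x (hN2Z hx) y (hN2Z hy) hxy)
        (by rw [show a + (b - 1) = m by omega]; exact h) with ⟨S, h1, h2, h3⟩ | ⟨S, h1, h2, h3⟩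
      · left
        exact ⟨S, h1.trans hN2Z, h2, h3⟩
      · right
        have hvS : v ∉ S := fun hvS =>
          (ne_of_mem_erase (mem_filter.1 (h1 hvS)).1) rfl
        refine ⟨insert v S, ?_, by rw [card_insert_of_notMem hvS, h2]; omega, ?_⟩
        · intro x hx
          rw [mem_insert] at hx
          rcases hx with rfl | hx
          · exact hv
          · exact hN2Z (h1 hx)
        · intro x hx y hy hxy
          rw [mem_insert] at hx hy
          rcases hx with rfl | hx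
          · rcases hy with rfl | hy
            · exact absurd rfl hxy
            · exact (mem_filter.1 (h1 hy)).2
          · rcases hy with rfl | hy
            · exact (mem_filter.1 (h1 hx)).2.symm
            · exact h3 x hx y hy hxy

/-- a monochromatic clique of size `s` in a large set with few uncoloured pairs -/
theorem mono_clique {V : Type} [Fintype V] (Rd Bl : SimpleGraph V) (s : ℕ) (δ : ℝ) (hδ : 0 < δ)
    (hun : (((univ : Finset (V × V)).filter
      (fun p => ¬ Rd.Adj p.1 p.2 ∧ ¬ Bl.Adj p.1 p.2)).card : ℝ) ≤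
      δ ^ 2 / (16 * (2 ^ (s + s) : ℕ) ^ 2) * (Fintype.card V : ℝ) ^ 2)
    (Z : Finset V) (hZ : δ * Fintype.card V ≤ (Z.card : ℝ)) [Nonempty V] :
    ∃ S ⊆ Z, S.card = s ∧ ((∀ x ∈ S, ∀ y ∈ S, x ≠ y → Rd.Adj x y) ∨
      (∀ x ∈ S, ∀ y ∈ S, x ≠ y → Bl.Adj x y)) := by
  set N : ℕ := 2 ^ (s + s) with hN
  have hN1 : 1 ≤ N := Nat.one_le_two_pow
  obtain ⟨X, hX1, hX2, -⟩ := sel (Rd ⊔ Bl) (fun _ : Fin N => Z) univ N (by simp) hN1 δ hδ
    (by
      intro j _ j' _ _
      refine le_trans ?_ hun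
      have e : ∑ x ∈ Z, nd (Rd ⊔ Bl) x Z =
          (((Z ×ˢ Z).filter (fun p => ¬ Rd.Adj p.1 p.2 ∧ ¬ Bl.Adj p.1 p.2)).card : ℝ) := by
        have e2 : ∀ x : V, nd (Rd ⊔ Bl) x Z =
            ∑ y ∈ Z, if ¬ Rd.Adj x y ∧ ¬ Bl.Adj x y then (1 : ℝ) else 0 := fun x => by
          unfold nd
          rw [← sum_filter, sum_const, nsmul_eq_mul, mul_one]
          congr 2
          ext y
          simp [SimpleGraph.sup_adj]
        simp_rw [e2]
        rw [← sum_product (s := Z) (t := Z)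
          (f := fun p => if ¬ Rd.Adj p.1 p.2 ∧ ¬ Bl.Adj p.1 p.2 then (1 : ℝ) else 0),
          ← sum_filter, sum_const, nsmul_eq_mul, mul_one]
      rw [e]
      exact_mod_cast card_le_card (filter_subset_filter _ (subset_univ _)))
    ({()} : Finset Unit) (by simp) (fun _ _ => Z) (fun _ _ => Subset.rfl) (fun _ _ _ _ => hZ)
  have hinj : Function.Injective X := by
    intro i j hij
    by_contra hne
    have := hX2 i (mem_univ _) j (mem_univ _) hne
    rw [hij] at this
    exact this.ne rfl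
  have hcard : (univ.image X).card = N := by
    rw [card_image_of_injective _ hinj]
    simp
  have hsub : univ.image X ⊆ Z := by
    intro x hx
    obtain ⟨i, _, rfl⟩ := mem_image.1 hx
    exact (hX1 i (mem_univ _)).1
  rcases ramsey Rd Bl (s + s) s s rfl (univ.image X) (by
    intro x hx y hy hxy
    obtain ⟨i, _, rfl⟩ := mem_image.1 hx
    obtain ⟨j, _, rfl⟩ := mem_image.1 hy
    have := hX2 i (mem_univ _) j (mem_univ _) (fun h => hxy (by rw [h]))
    rwa [SimpleGraph.sup_adj] at this) (by rw [hcard]) with ⟨S, h1, h2, h3⟩ | ⟨S, h1, h2, h3⟩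
  · exact ⟨S, h1.trans hsub, h2, Or.inl h3⟩
  · exact ⟨S, h1.trans hsub, h2, Or.inr h3⟩

/-- **Decomposition into monochromatic cliques.** -/
theorem decomposition {V : Type} [Fintype V] [Nonempty V] (Rd Bl : SimpleGraph V) (s : ℕ)
    (hs : 1 ≤ s) (δ : ℝ) (hδ : 0 < δ)
    (hun : (((univ : Finset (V × V)).filter
      (fun p => ¬ Rd.Adj p.1 p.2 ∧ ¬ Bl.Adj p.1 p.2)).card : ℝ) ≤
      δ ^ 2 / (16 * (2 ^ (s + s) : ℕ) ^ 2) * (Fintype.card V : ℝ) ^ 2) :
    ∃ F : Finset (Finset V), (∀ Q ∈ F, Q.card = s) ∧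
      (∀ Q ∈ F, ∀ Q' ∈ F, Q ≠ Q' → Disjoint Q Q') ∧
      (∀ Q ∈ F, (∀ x ∈ Q, ∀ y ∈ Q, x ≠ y → Rd.Adj x y) ∨
        (∀ x ∈ Q, ∀ y ∈ Q, x ≠ y → Bl.Adj x y)) ∧
      (((univ \ F.biUnion id : Finset V).card : ℕ) : ℝ) < δ * Fintype.card V := by
  let ok : Finset (Finset V) → Prop := fun F => (∀ Q ∈ F, Q.card = s) ∧
      (∀ Q ∈ F, ∀ Q' ∈ F, Q ≠ Q' → Disjoint Q Q') ∧
      (∀ Q ∈ F, (∀ x ∈ Q, ∀ y ∈ Q, x ≠ y → Rd.Adj x y) ∨
        (∀ x ∈ Q, ∀ y ∈ Q, x ≠ y → Bl.Adj x y))
  obtain ⟨F, hF, hmax⟩ := exists_max_image ((univ : Finset (Finset (Finset V))).filter ok)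
    (fun F => F.card) ⟨∅, mem_filter.2 ⟨mem_univ _, by simp [ok]⟩⟩
  have hFok : ok F := (mem_filter.1 hF).2
  refine ⟨F, hFok.1, hFok.2.1, hFok.2.2, ?_⟩
  by_contra hno
  rw [not_lt] at hno
  obtain ⟨S, hS1, hS2, hS3⟩ := mono_clique Rd Bl s δ hδ hun _ hno
  have hSF : ∀ Q ∈ F, Disjoint S Q := by
    intro Q hQ
    rw [disjoint_left]
    intro x hx hxQ
    have := (mem_sdiff.1 (hS1 hx)).2
    exact this (mem_biUnion.2 ⟨Q, hQ, hxQ⟩)
  have hSnF : S ∉ F := by
    intro hSF'
    have h1 := hSF S hSF'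
    rw [disjoint_self] at h1
    rw [h1] at hS2
    simp at hS2
    omega
  have hins : ok (insert S F) := by
    refine ⟨?_, ?_, ?_⟩
    · intro Q hQ
      rw [mem_insert] at hQ
      rcases hQ with rfl | hQ
      · exact hS2
      · exact hFok.1 Q hQ
    · intro Q hQ Q' hQ' hne
      rw [mem_insert] at hQ hQ'
      rcases hQ with rfl | hQ
      · rcases hQ' with rfl | hQ'
        · exact absurd rfl hne
        · exact hSF Q' hQ'
      · rcases hQ' with rfl | hQ'
        · exact (hSF Q hQ).symm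
        · exact hFok.2.1 Q hQ Q' hQ' hne
    · intro Q hQ
      rw [mem_insert] at hQ
      rcases hQ with rfl | hQ
      · exact hS3
      · exact hFok.2.2 Q hQ
  have h1 := hmax (insert S F) (mem_filter.2 ⟨mem_univ _, hins⟩)
  rw [card_insert_of_notMem hSnF] at h1
  omega

/-- a subset of moderate sum -/
theorem subset_sum {C : Type} (w : C → ℝ) (g : ℝ) (hg : 0 < g) (S : Finset C)
    (hS : ∀ c ∈ S, w c < g) (h : g ≤ ∑ c ∈ S, w c) :
    ∃ A ⊆ S, g ≤ ∑ c ∈ A, w c ∧ ∑ c ∈ A, w c < 2 * g := by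
  obtain ⟨A, hA, hmin⟩ := exists_min_image (S.powerset.filter (fun A => g ≤ ∑ c ∈ A, w c))
    (fun A => A.card) ⟨S, mem_filter.2 ⟨mem_powerset.2 Subset.rfl, h⟩⟩
  have hAS := mem_powerset.1 (mem_filter.1 hA).1
  have hAg := (mem_filter.1 hA).2
  refine ⟨A, hAS, hAg, ?_⟩
  have hAne : A.Nonempty := by
    by_contra hno
    rw [not_nonempty_iff_eq_empty] at hno
    rw [hno, sum_empty] at hAg
    linarith
  obtain ⟨a, ha⟩ := hAne
  have h1 : ∑ c ∈ A.erase a, w c < g := by
    by_contra hno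
    rw [not_lt] at hno
    have h2 := hmin (A.erase a) (mem_filter.2 ⟨mem_powerset.2 ((erase_subset _ _).trans hAS), hno⟩)
    rw [card_erase_of_mem ha] at h2
    have h3 : 0 < A.card := card_pos.2 ⟨a, ha⟩
    omega
  have h2 := add_sum_erase A w ha
  have h3 := hS a (hAS ha)
  linarith

/-- small weights can be grouped -/
theorem group_small {C : Type} (w : C → ℝ) (g : ℝ) (hg : 0 < g) (m : ℕ) : ∀ S : Finset C,
    (∀ c ∈ S, w c < g) → 2 * g * m ≤ ∑ c ∈ S, w c →
    ∃ G : Fin m → Finset C, (∀ l, G l ⊆ S) ∧ (∀ l l', l ≠ l' → Disjoint (G l) (G l')) ∧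
      ∀ l, g ≤ ∑ c ∈ G l, w c := by
  induction m with
  | zero =>
    intro S _ _
    exact ⟨fun l => l.elim0, fun l => l.elim0, fun l => l.elim0, fun l => l.elim0⟩
  | succ m ih =>
    intro S hS h
    push_cast at h
    have hm : (0 : ℝ) ≤ m := Nat.cast_nonneg _
    obtain ⟨A, hA1, hA2, hA3⟩ := subset_sum w g hg S hS (by nlinarith)
    have h1 : ∑ c ∈ S \ A, w c + ∑ c ∈ A, w c = ∑ c ∈ S, w c := sum_sdiff hA1
    obtain ⟨G, hG1, hG2, hG3⟩ := ih (S \ A) (fun c hc => hS c (mem_sdiff.1 hc).1) (by nlinarith)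
    have hd : ∀ l, Disjoint (G l) A := fun l =>
      disjoint_of_subset_left (hG1 l) sdiff_disjoint
    refine ⟨Fin.snoc G A, ?_, ?_, ?_⟩
    · intro l
      refine Fin.lastCases ?_ (fun l => ?_) l
      · rw [Fin.snoc_last]; exact hA1
      · rw [Fin.snoc_castSucc]; exact (hG1 l).trans sdiff_subset
    · intro l l'
      refine Fin.lastCases ?_ (fun l => ?_) l
      · refine Fin.lastCases ?_ (fun l' => ?_) l'
        · intro h; exact absurd rfl h
        · intro _
          rw [Fin.snoc_last, Fin.snoc_castSucc]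
          exact (hd l').symm
      · refine Fin.lastCases ?_ (fun l' => ?_) l'
        · intro _
          rw [Fin.snoc_last, Fin.snoc_castSucc]
          exact hd l
        · intro h
          rw [Fin.snoc_castSucc, Fin.snoc_castSucc]
          exact hG2 l l' (fun h' => h (by rw [h']))
    · intro l
      refine Fin.lastCases ?_ (fun l => ?_) l
      · rw [Fin.snoc_last]; exact hA2
      · rw [Fin.snoc_castSucc]; exact hG3 l

/-- **Grouping.** -/
theorem grouping {C : Type} (w : C → ℝ) (g : ℝ) (hg : 0 < g) (m : ℕ)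
    (S : Finset C)
    (hno : ∀ G : Fin m → Finset C, (∀ l, G l ⊆ S) → (∀ l l', l ≠ l' → Disjoint (G l) (G l')) →
      ¬ ∀ l, g ≤ ∑ c ∈ G l, w c) :
    (S.filter (fun c => g ≤ w c)).card < m ∧
    ∑ c ∈ S.filter (fun c => ¬ g ≤ w c), w c < 2 * g * m := by
  constructor
  · by_contra h
    rw [not_lt] at h
    obtain ⟨T, hT1, hT2⟩ := exists_subset_card_eq h
    let e := (T.equivFinOfCardEq hT2).symm
    refine hno (fun l => {(e l : C)}) ?_ ?_ ?_
    · intro l
      rw [singleton_subset_iff]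
      exact (mem_filter.1 (hT1 (e l).2)).1
    · intro l l' hl
      rw [disjoint_singleton]
      intro h
      exact hl (e.injective (Subtype.ext h))
    · intro l
      rw [sum_singleton]
      exact (mem_filter.1 (hT1 (e l).2)).2
  · by_contra h
    rw [not_lt] at h
    obtain ⟨G, h1, h2, h3⟩ := group_small w g hg m (S.filter (fun c => ¬ g ≤ w c))
      (fun c hc => not_le.1 (mem_filter.1 hc).2) h
    exact hno G (fun l => (h1 l).trans (filter_subset _ _)) h2 h3

end Pool.Agent.H35.BW
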