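import Mathlib
import Pool.Agent.H35.BW.Sel
import Pool.Agent.H35.BW.Conn

set_option autoImplicit false

/-!
The inequality for one component.
-/

namespace Pool.Agent.H35.BW

open Finset Classical

variable {V J : Type} [Fintype V] {k : ℕ}

/-- the (truncated) essential minimum of `U` on the neighbours of `P` in `B` -/
noncomputable def mu (Γ : SimpleGraph V) (U : V → ℕ) (L : ℕ) (δ : ℝ) (B : Finset V) (P : V) : ℕ :=
  Nat.find (p := fun n => n = L ∨ δ * Fintype.card V ≤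
    ((B.filter (fun x => Γ.Adj P x ∧ U x ≤ n)).card : ℝ)) ⟨L, Or.inl rfl⟩

theorem mu_le (Γ : SimpleGraph V) (U : V → ℕ) (L : ℕ) (δ : ℝ) (B : Finset V) (P : V) :
    mu Γ U L δ B P ≤ L := Nat.find_min' _ (Or.inl rfl)

theorem mu_spec (Γ : SimpleGraph V) (U : V → ℕ) (L : ℕ) (δ : ℝ) (B : Finset V) (P : V)
    (h : mu Γ U L δ B P < L) : δ * Fintype.card V ≤
    ((B.filter (fun x => Γ.Adj P x ∧ U x ≤ mu Γ U L δ B P)).card : ℝ) := by
  have := Nat.find_spec (p := fun n => n = L ∨ δ * Fintype.card V ≤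
    ((B.filter (fun x => Γ.Adj P x ∧ U x ≤ n)).card : ℝ)) ⟨L, Or.inl rfl⟩
  rcases this with h1 | h1
  · exact absurd h1 h.ne
  · exact h1

theorem lt_mu (Γ : SimpleGraph V) (U : V → ℕ) (L : ℕ) (δ : ℝ) (B : Finset V) (P : V)
    (n : ℕ) (h : n < mu Γ U L δ B P) :
    ((B.filter (fun x => Γ.Adj P x ∧ U x ≤ n)).card : ℝ) < δ * Fintype.card V := by
  have := Nat.find_min (p := fun n => n = L ∨ δ * Fintype.card V ≤
    ((B.filter (fun x => Γ.Adj P x ∧ U x ≤ n)).card : ℝ)) ⟨L, Or.inl rfl⟩ h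
  push Not at this
  exact this.2

/-- the vertex `P` is well-behaved -/
def Fine (Γ : SimpleGraph V) (U : V → ℕ) (L : ℕ) (δ : ℝ) [Fintype J] (B : J → Finset V) (k : ℕ)
    (P : V) : Prop :=
  L ≤ U P ∧ ∑ j, (1 - (mu Γ U L δ (B j) P : ℝ) / L) ≤ k * (1 - (L : ℝ) / U P)

/-- In a large class of vertices of a clique with the same data all vertices are fine. -/
theorem fine_of_class [Fintype J] (Γ : SimpleGraph V) (U : V → ℕ) (L : ℕ) (hL : 1 ≤ L) (δ : ℝ)
    (hδ : 0 < δ) (hδ1 : δ ≤ 1) (hk : 1 ≤ k) (B : J → Finset V) (hJ : Fintype.card J ≤ k)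
    (hnear : ∀ j j', j' ≠ j →
      ∑ x ∈ B j, nd Γ x (B j') ≤ δ ^ 2 / (16 * k ^ 2) * (Fintype.card V : ℝ) ^ 2)
    (f0 : Fin k → V) (hU : ∀ g, Conn Γ f0 g → k * L ≤ ∑ i, U (g i))
    (Q' : Finset V) (hQ : ∀ x ∈ Q', ∀ y ∈ Q', x ≠ y → Γ.Adj x y)
    (hQc : ∀ f : Fin k → V, Function.Injective f → (∀ i, f i ∈ Q') → Conn Γ f0 f)
    (s0 : ℕ) (hs0 : (k : ℝ) ≤ (δ / 2) ^ k * s0) (hs : s0 ≤ Q'.card)
    (u0 : ℕ) (m0 : J → ℕ) (hu0 : ∀ P ∈ Q', U P = u0) (hm0 : ∀ P ∈ Q', ∀ j, mu Γ U L δ (B j) P = m0 j)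
    (P : V) (hP : P ∈ Q') : Fine Γ U L δ B k P := by
  have hV : Nonempty V := ⟨P⟩
  have hm0L : ∀ j, m0 j ≤ L := fun j => by
    rw [← hm0 P hP j]; exact mu_le _ _ _ _ _ _
  set T : Finset J := univ.filter (fun j => m0 j < L) with hT
  have hTk : T.card ≤ k := (card_le_univ _).trans hJ
  have hQ'ne : Q'.Nonempty := ⟨P, hP⟩
  obtain ⟨X, hX1, hX2, hX3⟩ := sel Γ B T k hTk hk δ hδ
    (fun j _ j' _ hne => hnear j j' hne) Q' hQ'ne
    (fun j p => (B j).filter (fun x => Γ.Adj p x ∧ U x ≤ m0 j))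
    (fun j p => filter_subset _ _)
    (fun j hj p hp => by
      have h1 := mu_spec Γ U L δ (B j) p (by rw [hm0 p hp j]; exact (mem_filter.1 hj).2)
      rwa [hm0 p hp j] at h1)
  set Q'' := Q'.filter (fun p => ∀ j ∈ T, X j ∈ (B j).filter (fun x => Γ.Adj p x ∧ U x ≤ m0 j))
    with hQ''
  have hX3' : (δ / 2) ^ T.card * (Q'.card : ℝ) ≤ (Q''.card : ℝ) := by
    convert hX3
  have hQ''card : k ≤ Q''.card := by
    have h1 : (k : ℝ) ≤ Q''.card := by
      refine le_trans ?_ hX3'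
      calc (k : ℝ) ≤ (δ / 2) ^ k * s0 := hs0
        _ ≤ (δ / 2) ^ T.card * Q'.card := by
            have h2 : (s0 : ℝ) ≤ Q'.card := by exact_mod_cast hs
            have h3 : (δ / 2) ^ k ≤ (δ / 2) ^ T.card :=
              pow_le_pow_of_le_one (by positivity) (by linarith) hTk
            gcongr
    exact_mod_cast h1
  -- an injection
  obtain ⟨S, hS, hScard⟩ := exists_subset_card_eq hQ''card
  let e := (S.equivFinOfCardEq hScard).symm
  let p : Fin k → V := fun i => (e i : V)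
  have hpinj : Function.Injective p := fun i j hij => e.injective (Subtype.ext hij)
  have hpS : ∀ i, p i ∈ Q'' := fun i => hS (e i).2
  have hpQ : ∀ i, p i ∈ Q' := fun i => (mem_filter.1 (hpS i)).1
  have hpX : ∀ i, ∀ j ∈ T, Γ.Adj (p i) (X j) ∧ U (X j) ≤ m0 j := fun i j hj =>
    (mem_filter.1 ((mem_filter.1 (hpS i)).2 j hj)).2
  obtain ⟨ι⟩ : Nonempty (J ↪ Fin k) := by
    apply Function.Embedding.nonempty_of_card_le
    simpa using hJ
  -- the modified clique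
  let g : Fin k → V := fun i => if h : ∃ j ∈ T, ι j = i then X h.choose else p i
  have hgι : ∀ j ∈ T, g (ι j) = X j := by
    intro j hj
    have hex : ∃ j' ∈ T, ι j' = ι j := ⟨j, hj, rfl⟩
    have h1 : g (ι j) = X hex.choose := dif_pos hex
    rw [h1]
    congr 1
    exact ι.injective hex.choose_spec.2
  have hgp : ∀ i, (¬ ∃ j ∈ T, ι j = i) → g i = p i := fun i hi => dif_neg hi
  have hpp : ∀ i j, i ≠ j → Γ.Adj (p i) (p j) := fun i j hij =>
    hQ _ (hpQ i) _ (hpQ j) (fun h => hij (hpinj h))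
  have hcross : ∀ i j, i ≠ j → Γ.Adj (p i) (g j) := by
    intro i j hij
    by_cases h : ∃ l ∈ T, ι l = j
    · obtain ⟨l, hl, rfl⟩ := h
      rw [hgι l hl]
      exact (hpX i l hl).1
    · rw [hgp j h]
      exact hpp i j hij
  have hg : OC Γ g := by
    intro i j hij
    by_cases h : ∃ l ∈ T, ι l = i
    · obtain ⟨l, hl, rfl⟩ := h
      rw [hgι l hl]
      by_cases h' : ∃ l' ∈ T, ι l' = j
      · obtain ⟨l', hl', rfl⟩ := h'
        rw [hgι l' hl']
        exact hX2 l hl l' hl' (fun h => hij (by rw [h]))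
      · rw [hgp j h']
        exact (hpX j l hl).1.symm
    · rw [hgp i h]
      exact hcross i j hij
  have hconn : Conn Γ f0 g :=
    (hQc p hpinj hpQ).trans (conn_exchange hpp hg hcross)
  have h1 := hU p (hQc p hpinj hpQ)
  have h2 := hU g hconn
  have hsum1 : ∑ i, U (p i) = k * u0 := by
    rw [sum_congr rfl (fun i _ => hu0 (p i) (hpQ i)), sum_const]
    simp
  rw [hsum1] at h1
  have hLu : L ≤ u0 := Nat.le_of_mul_le_mul_left h1 hk
  -- the second sum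
  have hsum2 : (∑ i, U (g i) : ℝ) ≤ k * u0 - ∑ j ∈ T, ((u0 : ℝ) - m0 j) := by
    have e1 : ∑ i, (U (g i) : ℝ) = ∑ i ∈ T.map ι, (U (g i) : ℝ) + ∑ i ∈ (T.map ι)ᶜ, (U (g i) : ℝ) :=
      (sum_add_sum_compl _ _).symm
    have e2 : ∑ i ∈ T.map ι, (U (g i) : ℝ) ≤ ∑ j ∈ T, (m0 j : ℝ) := by
      rw [sum_map]
      refine sum_le_sum (fun j hj => ?_)
      rw [hgι j hj]
      exact_mod_cast (hpX ⟨0, hk⟩ j hj).2
    have e3 : ∑ i ∈ (T.map ι)ᶜ, (U (g i) : ℝ) = ((k : ℝ) - T.card) * u0 := by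
      have e4 : ∀ i ∈ (T.map ι)ᶜ, (U (g i) : ℝ) = u0 := by
        intro i hi
        rw [mem_compl, mem_map] at hi
        rw [hgp i (by rintro ⟨j, hj, h⟩; exact hi ⟨j, hj, h⟩), hu0 (p i) (hpQ i)]
      rw [sum_congr rfl e4, sum_const, nsmul_eq_mul, card_compl, card_map, Fintype.card_fin,
        Nat.cast_sub hTk]
    rw [e1, e3, sum_sub_distrib, sum_const, nsmul_eq_mul]
    linarith
  have h2' : (k : ℝ) * L ≤ ∑ i, (U (g i) : ℝ) := by exact_mod_cast h2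
  have hL0 : (0 : ℝ) < L := by exact_mod_cast hL
  have hLu' : (L : ℝ) ≤ u0 := by exact_mod_cast hLu
  have hu00 : (0 : ℝ) < u0 := lt_of_lt_of_le hL0 hLu'
  refine ⟨by rw [hu0 P hP]; exact hLu, ?_⟩
  rw [hu0 P hP]
  have e5 : ∑ j, (1 - (mu Γ U L δ (B j) P : ℝ) / L) = ∑ j ∈ T, (1 - (m0 j : ℝ) / L) := by
    rw [sum_congr rfl (fun j _ => by rw [hm0 P hP j])]
    symm
    apply sum_subset (subset_univ _)
    intro j _ hj
    simp only [hT, mem_filter, mem_univ, true_and, not_lt] at hj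
    have : m0 j = L := le_antisymm (hm0L j) hj
    rw [this, div_self hL0.ne', sub_self]
  rw [e5]
  have e6 : ∑ j ∈ T, (1 - (m0 j : ℝ) / L) ≤ ∑ j ∈ T, ((u0 : ℝ) - m0 j) / u0 := by
    refine sum_le_sum (fun j _ => ?_)
    rw [sub_div, div_self hu00.ne']
    have : (m0 j : ℝ) / u0 ≤ m0 j / L := by
      gcongr
    linarith
  refine e6.trans ?_
  rw [← sum_div, div_le_iff₀ hu00]
  have e7 : (k : ℝ) * (1 - L / u0) * u0 = k * u0 - k * L := by
    field_simp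
  rw [e7]
  linarith

/-- the number of classes -/
def classes (k L : ℕ) : ℕ := (k * L + 1) * (L + 1) ^ k

/-- Few vertices of a clique are not fine. -/
theorem card_not_fine [Fintype J] (Γ : SimpleGraph V) (U : V → ℕ) (L : ℕ) (hL : 1 ≤ L) (δ : ℝ)
    (hδ : 0 < δ) (hδ1 : δ ≤ 1) (hk : 1 ≤ k) (B : J → Finset V) (hJ : Fintype.card J ≤ k)
    (hnear : ∀ j j', j' ≠ j →
      ∑ x ∈ B j, nd Γ x (B j') ≤ δ ^ 2 / (16 * k ^ 2) * (Fintype.card V : ℝ) ^ 2)
    (f0 : Fin k → V) (hU : ∀ g, Conn Γ f0 g → k * L ≤ ∑ i, U (g i)) (hUle : ∀ v, U v ≤ k * L)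
    (Q : Finset V) (hQ : ∀ x ∈ Q, ∀ y ∈ Q, x ≠ y → Γ.Adj x y)
    (hQc : ∀ f : Fin k → V, Function.Injective f → (∀ i, f i ∈ Q) → Conn Γ f0 f)
    (s0 : ℕ) (hs0 : (k : ℝ) ≤ (δ / 2) ^ k * s0) :
    (Q.filter (fun P => ¬ Fine Γ U L δ B k P)).card ≤ classes k L * s0 := by
  by_contra hno
  rw [not_le] at hno
  let F : V → Fin (k * L + 1) × (J → Fin (L + 1)) := fun P =>
    (⟨U P, Nat.lt_succ_of_le (hUle P)⟩, fun j => ⟨mu Γ U L δ (B j) P, Nat.lt_succ_of_le (mu_le _ _ _ _ _ _)⟩)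
  have hcard : (univ : Finset (Fin (k * L + 1) × (J → Fin (L + 1)))).card ≤ classes k L := by
    rw [card_univ, Fintype.card_prod, Fintype.card_fin, Fintype.card_fun, Fintype.card_fin]
    unfold classes
    gcongr
    omega
  obtain ⟨y, _, hy⟩ := exists_lt_card_fiber_of_mul_lt_card_of_maps_to
    (s := Q.filter (fun P => ¬ Fine Γ U L δ B k P)) (t := univ) (f := F) (n := s0)
    (fun a _ => mem_univ _) (lt_of_le_of_lt (Nat.mul_le_mul_right _ hcard) hno)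
  set Q' := (Q.filter (fun P => ¬ Fine Γ U L δ B k P)).filter (fun x => F x = y) with hQ'
  have hne : Q'.Nonempty := by
    rw [← card_pos]
    omega
  obtain ⟨P, hP⟩ := hne
  have hsub : ∀ x ∈ Q', x ∈ Q := fun x hx => (mem_filter.1 (mem_filter.1 hx).1).1
  have hF : ∀ x ∈ Q', F x = F P := fun x hx => by
    rw [(mem_filter.1 hx).2, (mem_filter.1 hP).2]
  have hfine := fine_of_class Γ U L hL δ hδ hδ1 hk B hJ hnear f0 hU Q'
    (fun x hx y hy hxy => hQ x (hsub x hx) y (hsub y hy) hxy)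
    (fun f hf1 hf2 => hQc f hf1 (fun i => hsub _ (hf2 i))) s0 hs0 hy.le
    (U P) (fun j => mu Γ U L δ (B j) P)
    (fun x hx => by
      have := congrArg (fun z => (z.1 : ℕ)) (hF x hx)
      exact this)
    (fun x hx j => by
      have := congrArg (fun z => ((z.2 j : Fin (L + 1)) : ℕ)) (hF x hx)
      exact this) P hP
  exact (mem_filter.1 (mem_filter.1 hP).1).2 hfine

/-- **The inequality for one component.** -/
theorem star [Fintype J] (Γ : SimpleGraph V) (U : V → ℕ) (L : ℕ) (hL : 1 ≤ L) (δ : ℝ)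
    (hk : 1 ≤ k) (B : J → Finset V) (hJ : Fintype.card J ≤ k)
    (hBd : ∀ j j', j ≠ j' → Disjoint (B j) (B j'))
    (R : Finset V) (hR : R.Nonempty) (hRB : ∀ j, Disjoint R (B j))
    (lam η bad : ℝ) (hlam : 0 < lam)
    (hbudget : lam * (∑ v, (U v : ℝ) / L) ≤ 1 + η)
    (hbad : ((R.filter (fun P => ¬ Fine Γ U L δ B k P)).card : ℝ) ≤ bad) :
    lam * R.card + ∑ j, ((∑ P ∈ R, (1 - (mu Γ U L δ (B j) P : ℝ) / L)) / R.card / k +
      (lam * R.card) * (lam * ∑ x ∈ B j, (U x : ℝ) / L)) ≤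
      1 + lam * R.card * η + 2 * lam * bad := by
  have hL0 : (0 : ℝ) < L := by exact_mod_cast hL
  have hk0 : (0 : ℝ) < k := by exact_mod_cast hk
  have hR0 : (0 : ℝ) < R.card := by exact_mod_cast hR.card_pos
  set r : ℝ := (R.card : ℝ) with hr
  set ρ : ℝ := lam * r with hρ
  have hρ0 : 0 < ρ := mul_pos hlam hR0
  set a : J → V → ℝ := fun j P => 1 - (mu Γ U L δ (B j) P : ℝ) / L with ha
  have ha0 : ∀ j P, 0 ≤ a j P := by
    intro j P
    have : (mu Γ U L δ (B j) P : ℝ) / L ≤ 1 := by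
      rw [div_le_one hL0]
      exact_mod_cast mu_le Γ U L δ (B j) P
    simp only [ha]
    linarith
  have ha1 : ∀ j P, a j P ≤ 1 := by
    intro j P
    have : 0 ≤ (mu Γ U L δ (B j) P : ℝ) / L := by positivity
    simp only [ha]
    linarith
  have hJ' : (Fintype.card J : ℝ) ≤ k := by exact_mod_cast hJ
  -- pointwise bound
  have hpt : ∀ P ∈ R, (∑ j, a j P) / k ≤ 1 - 2 * ρ + ρ ^ 2 * ((U P : ℝ) / L) +
      (if ¬ Fine Γ U L δ B k P then 2 * ρ else 0) := by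
    intro P _
    by_cases hf : Fine Γ U L δ B k P
    swap
    · rw [if_pos hf]
      have h1 : (∑ j, a j P) / k ≤ 1 := by
        rw [div_le_one hk0]
        calc ∑ j, a j P ≤ ∑ j : J, (1 : ℝ) := sum_le_sum (fun j _ => ha1 j P)
          _ = Fintype.card J := by simp
          _ ≤ k := hJ'
      have h2 : 0 ≤ ρ ^ 2 * ((U P : ℝ) / L) := by positivity
      linarith
    · rw [if_neg (not_not.2 hf)]
      obtain ⟨h1, h2⟩ := hf
      have hU0 : (0 : ℝ) < U P := lt_of_lt_of_le hL0 (by exact_mod_cast h1)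
      have h3 : (∑ j, a j P) / k ≤ 1 - (L : ℝ) / U P := by
        rw [div_le_iff₀ hk0, mul_comm]
        exact h2
      have h4 : 2 * ρ ≤ (L : ℝ) / U P + ρ ^ 2 * ((U P : ℝ) / L) := by
        have hx : 0 < (U P : ℝ) / L := by positivity
        have hinv : (L : ℝ) / U P = 1 / ((U P : ℝ) / L) := by
          rw [one_div, inv_div]
        rw [hinv]
        set x := (U P : ℝ) / L
        have : 0 ≤ (1 - ρ * x) ^ 2 / x := by positivity
        have e : (1 - ρ * x) ^ 2 / x = 1 / x + ρ ^ 2 * x - 2 * ρ := by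
          field_simp
          ring
        linarith
      linarith
  have hsum : ∑ P ∈ R, (∑ j, a j P) / k ≤ r * (1 - 2 * ρ) + ρ ^ 2 * ∑ P ∈ R, (U P : ℝ) / L +
      2 * ρ * bad := by
    calc ∑ P ∈ R, (∑ j, a j P) / k ≤ ∑ P ∈ R, (1 - 2 * ρ + ρ ^ 2 * ((U P : ℝ) / L) +
          (if ¬ Fine Γ U L δ B k P then 2 * ρ else 0)) := sum_le_sum hpt
      _ = r * (1 - 2 * ρ) + ρ ^ 2 * ∑ P ∈ R, (U P : ℝ) / L +
          2 * ρ * ((R.filter (fun P => ¬ Fine Γ U L δ B k P)).card : ℝ) := by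
          rw [sum_add_distrib, sum_add_distrib, sum_const, nsmul_eq_mul, ← mul_sum,
            ← sum_filter, sum_const, nsmul_eq_mul]
          ring
      _ ≤ _ := by gcongr
  have hAsum : ∑ j, (∑ P ∈ R, a j P) / r / k ≤ (1 - 2 * ρ) + ρ * lam * ∑ P ∈ R, (U P : ℝ) / L +
      2 * lam * bad := by
    have e1 : ∑ j, (∑ P ∈ R, a j P) / r / k = (∑ P ∈ R, (∑ j, a j P) / k) / r := by
      rw [sum_div, ]
      simp_rw [sum_div]
      rw [sum_comm]
      refine sum_congr rfl (fun P _ => sum_congr rfl (fun j _ => ?_))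
      rw [div_right_comm]
    rw [e1, div_le_iff₀ hR0]
    refine hsum.trans (le_of_eq ?_)
    rw [hρ]
    ring
  have hbud : ∑ P ∈ R, (U P : ℝ) / L + ∑ j, ∑ x ∈ B j, (U x : ℝ) / L ≤ ∑ v, (U v : ℝ) / L := by
    have hdisj : Disjoint R (univ.biUnion B) := by
      rw [disjoint_biUnion_right]
      exact fun j _ => hRB j
    rw [← sum_biUnion (fun j _ j' _ hne => hBd j j' hne), ← sum_union hdisj]
    exact sum_le_sum_of_subset_of_nonneg (subset_univ _) (fun v _ _ => by positivity)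
  rw [sum_add_distrib, ← mul_sum, ← mul_sum]
  have h5 : ρ * (lam * ∑ j, ∑ x ∈ B j, (U x : ℝ) / L) ≤
      ρ * (1 + η) - ρ * lam * ∑ P ∈ R, (U P : ℝ) / L := by
    have h6 : lam * ∑ j, ∑ x ∈ B j, (U x : ℝ) / L ≤
        (1 + η) - lam * ∑ P ∈ R, (U P : ℝ) / L := by
      have := mul_le_mul_of_nonneg_left hbud hlam.le
      rw [mul_add] at this
      linarith
    calc ρ * (lam * ∑ j, ∑ x ∈ B j, (U x : ℝ) / L) ≤
        ρ * ((1 + η) - lam * ∑ P ∈ R, (U P : ℝ) / L) := by gcongr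
      _ = _ := by ring
  have h7 : ρ * (1 + η) = ρ + ρ * η := by ring
  linarith

end Pool.Agent.H35.BW
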