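import Mathlib
import Pool.Agent.H35.BW.One

set_option autoImplicit false

/-!
The inequality for two components of different colours.
-/

namespace Pool.Agent.H35.BW

open Finset Classical

variable {V : Type} [Fintype V]

theorem card_below (Γ : SimpleGraph V) (U : V → ℕ) (L : ℕ) (δ : ℝ) (hδ : 0 ≤ δ)
    (B : Finset V) (P : V) :
    ((B.filter (fun x => Γ.Adj P x ∧ U x < mu Γ U L δ B P)).card : ℝ) ≤ δ * Fintype.card V := by
  rcases Nat.eq_zero_or_pos (mu Γ U L δ B P) with h | h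
  · rw [h]
    simp only [not_lt_zero', and_false, filter_false, card_empty, Nat.cast_zero]
    positivity
  · have h1 := lt_mu Γ U L δ B P (mu Γ U L δ B P - 1) (by omega)
    refine le_trans ?_ h1.le
    have : (B.filter (fun x => Γ.Adj P x ∧ U x < mu Γ U L δ B P)) =
        (B.filter (fun x => Γ.Adj P x ∧ U x ≤ mu Γ U L δ B P - 1)) := by
      apply filter_congr
      intro x _
      constructor
      · rintro ⟨h2, h3⟩
        exact ⟨h2, by omega⟩
      · rintro ⟨h2, h3⟩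
        exact ⟨h2, by omega⟩
    rw [this]

theorem pair_sum (Γ Γ' : SimpleGraph V) (U U' : V → ℕ) (L : ℕ) (hL : 1 ≤ L) (δ : ℝ)
    (hδ : 0 ≤ δ) (R B : Finset V) (M : ℝ)
    (hM : (((R ×ˢ B).filter (fun p => ¬ Γ.Adj p.1 p.2 ∧ ¬ Γ'.Adj p.1 p.2)).card : ℝ) ≤ M) :
    (R.card : ℝ) * B.card - (2 * δ * (Fintype.card V : ℝ) ^ 2 + M) ≤
      ∑ P ∈ R, ∑ x ∈ B, ((1 - (mu Γ U L δ B P : ℝ) / L) + (U' P : ℝ) / L +
        ((1 - (mu Γ' U' L δ R x : ℝ) / L) + (U x : ℝ) / L)) := by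
  have hL0 : (0 : ℝ) < L := by exact_mod_cast hL
  set t : ℝ := (Fintype.card V : ℝ) with ht
  have hRt : (R.card : ℝ) ≤ t := by rw [ht]; exact_mod_cast card_le_univ R
  have hBt : (B.card : ℝ) ≤ t := by rw [ht]; exact_mod_cast card_le_univ B
  have ha0 : ∀ (Γ : SimpleGraph V) (U : V → ℕ) (B : Finset V) (P : V),
      0 ≤ 1 - (mu Γ U L δ B P : ℝ) / L := by
    intro Γ U B P
    have : (mu Γ U L δ B P : ℝ) / L ≤ 1 := by
      rw [div_le_one hL0]
      exact_mod_cast mu_le Γ U L δ B P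
    linarith
  -- pointwise
  have hpt : ∀ P ∈ R, ∀ x ∈ B, (1 : ℝ) -
      ((if ¬ Γ.Adj P x ∧ ¬ Γ'.Adj P x then (1 : ℝ) else 0) +
      (if Γ.Adj P x ∧ U x < mu Γ U L δ B P then (1 : ℝ) else 0) +
      (if Γ'.Adj x P ∧ U' P < mu Γ' U' L δ R x then (1 : ℝ) else 0)) ≤
      ((1 - (mu Γ U L δ B P : ℝ) / L) + (U' P : ℝ) / L +
        ((1 - (mu Γ' U' L δ R x : ℝ) / L) + (U x : ℝ) / L)) := by
    intro P _ x _
    have h1 := ha0 Γ U B P
    have h2 := ha0 Γ' U' R x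
    have h3 : 0 ≤ (U' P : ℝ) / L := by positivity
    have h4 : 0 ≤ (U x : ℝ) / L := by positivity
    have hi : ∀ p : Prop, [Decidable p] → (0 : ℝ) ≤ if p then (1 : ℝ) else 0 := by
      intro p _
      split_ifs <;> norm_num
    have i1 := hi (¬ Γ.Adj P x ∧ ¬ Γ'.Adj P x)
    have i2 := hi (Γ.Adj P x ∧ U x < mu Γ U L δ B P)
    have i3 := hi (Γ'.Adj x P ∧ U' P < mu Γ' U' L δ R x)
    by_cases c1 : Γ.Adj P x
    · by_cases c2 : U x < mu Γ U L δ B P
      · rw [if_pos (show Γ.Adj P x ∧ U x < mu Γ U L δ B P from ⟨c1, c2⟩)]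
        linarith
      · have : (mu Γ U L δ B P : ℝ) / L ≤ (U x : ℝ) / L := by
          have : (mu Γ U L δ B P : ℝ) ≤ U x := by exact_mod_cast not_lt.1 c2
          gcongr
        linarith
    · by_cases c1' : Γ'.Adj P x
      · by_cases c2 : U' P < mu Γ' U' L δ R x
        · rw [if_pos (show Γ'.Adj x P ∧ U' P < mu Γ' U' L δ R x from ⟨c1'.symm, c2⟩)]
          linarith
        · have : (mu Γ' U' L δ R x : ℝ) / L ≤ (U' P : ℝ) / L := by
            have : (mu Γ' U' L δ R x : ℝ) ≤ U' P := by exact_mod_cast not_lt.1 c2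
            gcongr
          linarith
      · rw [if_pos (show ¬ Γ.Adj P x ∧ ¬ Γ'.Adj P x from ⟨c1, c1'⟩)]
        linarith
  refine le_trans ?_ (sum_le_sum (fun P hP => sum_le_sum (fun x hx => hpt P hP x hx)))
  simp_rw [sum_sub_distrib, sum_add_distrib]
  have e1 : ∑ P ∈ R, ∑ x ∈ B, (1 : ℝ) = (R.card : ℝ) * B.card := by
    simp [sum_const, nsmul_eq_mul]
  have e2 : ∑ P ∈ R, ∑ x ∈ B, (if ¬ Γ.Adj P x ∧ ¬ Γ'.Adj P x then (1 : ℝ) else 0) ≤ M := by
    rw [← sum_product (s := R) (t := B)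
      (f := fun p => if ¬ Γ.Adj p.1 p.2 ∧ ¬ Γ'.Adj p.1 p.2 then (1 : ℝ) else 0)]
    rw [← sum_filter, sum_const, nsmul_eq_mul, mul_one]
    exact hM
  have e3 : ∑ P ∈ R, ∑ x ∈ B, (if Γ.Adj P x ∧ U x < mu Γ U L δ B P then (1 : ℝ) else 0) ≤
      δ * t ^ 2 := by
    calc ∑ P ∈ R, ∑ x ∈ B, (if Γ.Adj P x ∧ U x < mu Γ U L δ B P then (1 : ℝ) else 0)
        ≤ ∑ P ∈ R, δ * t := by
          refine sum_le_sum (fun P _ => ?_)
          rw [← sum_filter, sum_const, nsmul_eq_mul, mul_one]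
          exact card_below Γ U L δ hδ B P
      _ = R.card * (δ * t) := by rw [sum_const, nsmul_eq_mul]
      _ ≤ t * (δ * t) := by
          have : 0 ≤ t := le_trans (Nat.cast_nonneg _) hRt
          gcongr
      _ = δ * t ^ 2 := by ring
  have e4 : ∑ P ∈ R, ∑ x ∈ B, (if Γ'.Adj x P ∧ U' P < mu Γ' U' L δ R x then (1 : ℝ) else 0) ≤
      δ * t ^ 2 := by
    rw [sum_comm]
    calc ∑ x ∈ B, ∑ P ∈ R, (if Γ'.Adj x P ∧ U' P < mu Γ' U' L δ R x then (1 : ℝ) else 0)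
        ≤ ∑ P ∈ B, δ * t := by
          refine sum_le_sum (fun P _ => ?_)
          rw [← sum_filter, sum_const, nsmul_eq_mul, mul_one]
          exact card_below Γ' U' L δ hδ R P
      _ = B.card * (δ * t) := by rw [sum_const, nsmul_eq_mul]
      _ ≤ t * (δ * t) := by
          have : 0 ≤ t := le_trans (Nat.cast_nonneg _) hBt
          gcongr
      _ = δ * t ^ 2 := by ring
  rw [e1]
  linarith

/-- **The inequality for two components.** -/
theorem pair_ineq (Γ Γ' : SimpleGraph V) (U U' : V → ℕ) (L : ℕ) (hL : 1 ≤ L) (δ : ℝ)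
    (hδ : 0 ≤ δ) (k : ℕ) (hk : 1 ≤ k) (R B : Finset V) (ε : ℝ) (hε : 0 ≤ ε)
    (hM : (((R ×ˢ B).filter (fun p => ¬ Γ.Adj p.1 p.2 ∧ ¬ Γ'.Adj p.1 p.2)).card : ℝ) ≤
      ε * (Fintype.card V : ℝ) ^ 2) (hR : R.Nonempty) (hB : B.Nonempty)
    (lam : ℝ) (hlam : 0 < lam) (h : 1 ≤ k * ((lam * R.card) * (lam * B.card))) :
    (1 - k * (2 * δ + ε) * (lam * Fintype.card V) ^ 2) / k ≤
    ((∑ P ∈ R, (1 - (mu Γ U L δ B P : ℝ) / L)) / R.card / k +
      (lam * R.card) * (lam * ∑ x ∈ B, (U x : ℝ) / L)) +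
    ((∑ x ∈ B, (1 - (mu Γ' U' L δ R x : ℝ) / L)) / B.card / k +
      (lam * B.card) * (lam * ∑ P ∈ R, (U' P : ℝ) / L)) := by
  have hL0 : (0 : ℝ) < L := by exact_mod_cast hL
  have hk0 : (0 : ℝ) < k := by exact_mod_cast hk
  have hs := pair_sum Γ Γ' U U' L hL δ hδ R B _ hM
  have hR0 : (0 : ℝ) < R.card := by exact_mod_cast hR.card_pos
  have hB0 : (0 : ℝ) < B.card := by exact_mod_cast hB.card_pos
  simp_rw [sum_add_distrib, sum_const, nsmul_eq_mul] at hs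
  simp_rw [← mul_sum] at hs
  set t : ℝ := (Fintype.card V : ℝ) with ht
  set r : ℝ := (R.card : ℝ) with hr
  set b : ℝ := (B.card : ℝ) with hb
  set A := ∑ P ∈ R, (1 - (mu Γ U L δ B P : ℝ) / L) with hA
  set A' := ∑ x ∈ B, (1 - (mu Γ' U' L δ R x : ℝ) / L) with hA'
  set X := ∑ x ∈ B, (U x : ℝ) / L with hX
  set Y := ∑ x ∈ R, (U' x : ℝ) / L with hY
  have hX0 : 0 ≤ X := sum_nonneg (fun x _ => by positivity)
  have hY0 : 0 ≤ Y := sum_nonneg (fun x _ => by positivity)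
  have hrb : 0 < r * b := mul_pos hR0 hB0
  -- divide by r * b
  have h1 : 1 - (2 * δ + ε) * t ^ 2 / (r * b) ≤ A / r + Y / r + A' / b + X / b := by
    have h2 : (r * b - (2 * δ * t ^ 2 + ε * t ^ 2)) / (r * b) ≤
        (b * A + b * Y + (r * A' + r * X)) / (r * b) := by
      gcongr
    have e1 : (r * b - (2 * δ * t ^ 2 + ε * t ^ 2)) / (r * b) =
        1 - (2 * δ + ε) * t ^ 2 / (r * b) := by
      field_simp
    have e2 : (b * A + b * Y + (r * A' + r * X)) / (r * b) = A / r + Y / r + A' / b + X / b := by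
      field_simp
      ring
    rw [e1, e2] at h2
    exact h2
  have h3 : (2 * δ + ε) * t ^ 2 / (r * b) ≤ k * (2 * δ + ε) * (lam * t) ^ 2 := by
    rw [div_le_iff₀ hrb]
    have : (2 * δ + ε) * t ^ 2 * 1 ≤ (2 * δ + ε) * t ^ 2 * (k * ((lam * r) * (lam * b))) := by
      gcongr
    calc (2 * δ + ε) * t ^ 2 = (2 * δ + ε) * t ^ 2 * 1 := by ring
      _ ≤ _ := this
      _ = _ := by ring
  have h4 : X / b ≤ k * ((lam * r) * (lam * X)) := by
    have : X / b * 1 ≤ X / b * (k * ((lam * r) * (lam * b))) := by gcongr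
    calc X / b = X / b * 1 := by ring
      _ ≤ _ := this
      _ = _ := by field_simp
  have h5 : Y / r ≤ k * ((lam * b) * (lam * Y)) := by
    have : Y / r * 1 ≤ Y / r * (k * ((lam * r) * (lam * b))) := by gcongr
    calc Y / r = Y / r * 1 := by ring
      _ ≤ _ := this
      _ = _ := by field_simp
  rw [div_le_iff₀ hk0]
  have e3 : (A / r / k + lam * r * (lam * X) + (A' / b / k + lam * b * (lam * Y))) * k =
      A / r + A' / b + k * ((lam * r) * (lam * X)) + k * ((lam * b) * (lam * Y)) := by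
    field_simp
    ring
  rw [e3]
  linarith

end Pool.Agent.H35.BW
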