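import Mathlib
import Pool.Agent.H35.BW.Kst
import Pool.Agent.H35.BW.Groups
import Pool.Agent.H35.BW.Pair

set_option autoImplicit false

/-!
The large components of one colour.
-/

namespace Pool.Agent.H35.BW

open Finset Classical

variable {V : Type} [Fintype V]

omit [Fintype V] in
theorem sum_nd (Γ : SimpleGraph V) (A B : Finset V) :
    ∑ x ∈ A, nd Γ x B = (((A ×ˢ B).filter (fun p => ¬ Γ.Adj p.1 p.2)).card : ℝ) := by
  have e2 : ∀ x : V, nd Γ x B = ∑ y ∈ B, if ¬ Γ.Adj x y then (1 : ℝ) else 0 := fun x => by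
    unfold nd
    rw [← sum_filter, sum_const, nsmul_eq_mul, mul_one]
  simp_rw [e2]
  rw [← sum_product (s := A) (t := B)
    (f := fun p => if ¬ Γ.Adj p.1 p.2 then (1 : ℝ) else 0), ← sum_filter, sum_const,
    nsmul_eq_mul, mul_one]

omit [Fintype V] in
theorem card_family (F : Finset (Finset V)) (s : ℕ) (hcard : ∀ Q ∈ F, Q.card = s)
    (hdisj : ∀ Q ∈ F, ∀ Q' ∈ F, Q ≠ Q' → Disjoint Q Q') :
    (F.biUnion id).card = F.card * s := by
  have h1 : (F.biUnion id).card = ∑ Q ∈ F, (id Q).card :=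
    card_biUnion (fun Q hQ Q' hQ' hne => hdisj Q hQ Q' hQ' hne)
  rw [h1]
  simp only [id]
  rw [sum_congr rfl hcard, sum_const, smul_eq_mul]

/-- near-completeness between unions of cliques -/
theorem near_groups (Γ Γ' : SimpleGraph V) (s : ℕ) (γ ε : ℝ) (hγ : 0 ≤ γ)
    (F1 F2 : Finset (Finset V))
    (hcard1 : ∀ Q ∈ F1, Q.card = s) (hcard2 : ∀ Q ∈ F2, Q.card = s)
    (hdisj1 : ∀ Q ∈ F1, ∀ Q' ∈ F1, Q ≠ Q' → Disjoint Q Q')
    (hdisj2 : ∀ Q ∈ F2, ∀ Q' ∈ F2, Q ≠ Q' → Disjoint Q Q')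
    (hun : (((univ : Finset (V × V)).filter
      (fun p => ¬ Γ.Adj p.1 p.2 ∧ ¬ Γ'.Adj p.1 p.2)).card : ℝ) ≤ ε * (Fintype.card V : ℝ) ^ 2)
    (hfew : ∀ Q ∈ F1, ∀ Q' ∈ F2,
      (((Q ×ˢ Q').filter (fun p => Γ.Adj p.1 p.2)).card : ℝ) ≤ γ * (s : ℝ) ^ 2) :
    ∑ x ∈ F1.biUnion id, nd Γ' x (F2.biUnion id) ≤ (γ + ε) * (Fintype.card V : ℝ) ^ 2 := by
  rw [sum_nd]
  set t : ℝ := (Fintype.card V : ℝ) with ht
  have h1 : (F1.card : ℝ) * s ≤ t := by
    have := card_le_univ (F1.biUnion id)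
    rw [card_family F1 s hcard1 hdisj1] at this
    rw [ht]
    exact_mod_cast this
  have h2 : (F2.card : ℝ) * s ≤ t := by
    have := card_le_univ (F2.biUnion id)
    rw [card_family F2 s hcard2 hdisj2] at this
    rw [ht]
    exact_mod_cast this
  have hsub : ((F1.biUnion id ×ˢ F2.biUnion id).filter (fun p => ¬ Γ'.Adj p.1 p.2)) ⊆
      ((F1 ×ˢ F2).biUnion (fun q => (q.1 ×ˢ q.2).filter (fun p => Γ.Adj p.1 p.2))) ∪
      (univ : Finset (V × V)).filter (fun p => ¬ Γ.Adj p.1 p.2 ∧ ¬ Γ'.Adj p.1 p.2) := by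
    intro p hp
    rw [mem_filter, mem_product, mem_biUnion, mem_biUnion] at hp
    obtain ⟨⟨⟨Q, hQ, hQ'⟩, ⟨Q2, hQ2, hQ2'⟩⟩, hp2⟩ := hp
    rw [mem_union, mem_biUnion, mem_filter]
    by_cases h : Γ.Adj p.1 p.2
    · left
      exact ⟨(Q, Q2), mem_product.2 ⟨hQ, hQ2⟩, mem_filter.2 ⟨mem_product.2 ⟨hQ', hQ2'⟩, h⟩⟩
    · right
      exact ⟨mem_univ _, h, hp2⟩
  have h3 : (((F1.biUnion id ×ˢ F2.biUnion id).filter (fun p => ¬ Γ'.Adj p.1 p.2)).card : ℝ) ≤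
      ((((F1 ×ˢ F2).biUnion (fun q => (q.1 ×ˢ q.2).filter (fun p => Γ.Adj p.1 p.2))).card : ℕ) : ℝ)
        + (((univ : Finset (V × V)).filter
          (fun p => ¬ Γ.Adj p.1 p.2 ∧ ¬ Γ'.Adj p.1 p.2)).card : ℝ) := by
    exact_mod_cast (card_le_card hsub).trans (card_union_le _ _)
  have h4 : ((((F1 ×ˢ F2).biUnion
      (fun q => (q.1 ×ˢ q.2).filter (fun p => Γ.Adj p.1 p.2))).card : ℕ) : ℝ) ≤ γ * t ^ 2 := by
    calc ((((F1 ×ˢ F2).biUnion
        (fun q => (q.1 ×ˢ q.2).filter (fun p => Γ.Adj p.1 p.2))).card : ℕ) : ℝ)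
        ≤ ((∑ q ∈ F1 ×ˢ F2, ((q.1 ×ˢ q.2).filter (fun p => Γ.Adj p.1 p.2)).card : ℕ) : ℝ) := by
          exact_mod_cast card_biUnion_le
      _ = ∑ q ∈ F1 ×ˢ F2, ((((q.1 ×ˢ q.2).filter (fun p => Γ.Adj p.1 p.2)).card : ℕ) : ℝ) := by
          push_cast; rfl
      _ ≤ ∑ q ∈ F1 ×ˢ F2, γ * (s : ℝ) ^ 2 := by
          refine sum_le_sum (fun q hq => ?_)
          rw [mem_product] at hq
          exact hfew q.1 hq.1 q.2 hq.2
      _ = γ * ((F1.card * s) * (F2.card * s)) := by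
          rw [sum_const, nsmul_eq_mul, card_product]
          push_cast
          ring
      _ ≤ γ * (t * t) := by
          have h5 : (0 : ℝ) ≤ F1.card * s := by positivity
          have h6 : (0 : ℝ) ≤ F2.card * s := by positivity
          have h7 : (F1.card * s : ℝ) * (F2.card * s) ≤ t * t :=
            mul_le_mul h1 h2 h6 (h5.trans h1)
          gcongr
      _ = γ * t ^ 2 := by ring
  linarith [h3.trans (add_le_add h4 hun)]

/-- **The large components of one colour.** -/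
theorem colour_data [Nonempty V] (Γ Γ' : SimpleGraph V) (k s : ℕ) (hks : k < s)
    (F : Finset (Finset V)) (hcard : ∀ Q ∈ F, Q.card = s)
    (hdisj : ∀ Q ∈ F, ∀ Q' ∈ F, Q ≠ Q' → Disjoint Q Q')
    (hcl : ∀ Q ∈ F, ∀ x ∈ Q, ∀ y ∈ Q, x ≠ y → Γ.Adj x y)
    (γ ε δ Bd M : ℝ) (hγ : 0 ≤ γ) (hδ : 0 < δ)
    (hkst : ∀ Q ∈ F, ∀ Q' ∈ F,
      γ * (s : ℝ) ^ 2 < (((Q ×ˢ Q').filter (fun p => Γ.Adj p.1 p.2)).card : ℝ) →
      ∃ p q : Fin k → V, Function.Injective p ∧ Function.Injective q ∧ (∀ i, p i ∈ Q) ∧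
        (∀ i, q i ∈ Q') ∧ ∀ i j, Γ.Adj (p i) (q j))
    (hun : (((univ : Finset (V × V)).filter
      (fun p => ¬ Γ.Adj p.1 p.2 ∧ ¬ Γ'.Adj p.1 p.2)).card : ℝ) ≤ ε * (Fintype.card V : ℝ) ^ 2)
    (hγε : γ + ε ≤ δ ^ 2 / (16 * (k + 1 : ℕ) ^ 2))
    (hcov : HasCover Γ' k Bd) (hM : 2 * δ * Fintype.card V ≤ M)
    (hMB : Bd < k * (M - δ * Fintype.card V)) :
    ∃ (I : Type) (_ : Fintype I) (Fi : I → Finset (Finset V)) (f0 : I → Fin k → V),
      Fintype.card I ≤ k ∧ (∀ i, (Fi i).Nonempty ∧ Fi i ⊆ F) ∧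
      (∀ i i', i ≠ i' → Disjoint (Fi i) (Fi i')) ∧
      (∀ i, ∀ Q ∈ Fi i, ∀ f : Fin k → V, Function.Injective f → (∀ j, f j ∈ Q) →
        Conn Γ (f0 i) f) ∧
      (∀ i i', i' ≠ i → ∑ x ∈ (Fi i).biUnion id, nd Γ' x ((Fi i').biUnion id) ≤
        (γ + ε) * (Fintype.card V : ℝ) ^ 2) ∧
      (∀ i, OC Γ (f0 i) ∧ ∃ z, ∀ j, Γ.Adj z (f0 i j)) ∧
      (((F.biUnion id).card : ℕ) : ℝ) ≤ ∑ i, ((((Fi i).biUnion id).card : ℕ) : ℝ) +
        2 * M * (k + 1 : ℕ) := by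
  have ht : (0 : ℝ) < Fintype.card V := by exact_mod_cast Fintype.card_pos
  set t : ℝ := (Fintype.card V : ℝ) with htdef
  have hM0 : 0 < M := lt_of_lt_of_le (by positivity) hM
  -- base cliques
  have hb : ∀ Q : Finset V, ∃ b : Fin k → V, Q ∈ F → Function.Injective b ∧ ∀ i, b i ∈ Q := by
    intro Q
    by_cases hQ : Q ∈ F
    · obtain ⟨S, hS1, hS2⟩ := exists_subset_card_eq (s := Q) (n := k) (by rw [hcard Q hQ]; omega)
      let e := (S.equivFinOfCardEq hS2).symm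
      exact ⟨fun i => (e i : V), fun _ => ⟨fun i j h => e.injective (Subtype.ext h),
        fun i => hS1 (e i).2⟩⟩
    · obtain ⟨v⟩ := ‹Nonempty V›
      exact ⟨fun _ => v, fun h => absurd h hQ⟩
  choose b hb using hb
  let cl : Finset V → Set (Fin k → V) := fun Q => {g | Conn Γ (b Q) g}
  have hin : ∀ Q ∈ F, ∀ f g : Fin k → V, Function.Injective f → Function.Injective g →
      (∀ i, f i ∈ Q) → (∀ i, g i ∈ Q) → Conn Γ f g := fun Q hQ f g hf hg hfQ hgQ =>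
    conn_of_clique Q (hcl Q hQ) (by rw [hcard Q hQ]; exact hks) f g hf hg hfQ hgQ
  have hclconn : ∀ Q ∈ F, ∀ Q' ∈ F, cl Q = cl Q' → Conn Γ (b Q) (b Q') := by
    intro Q hQ Q' hQ' h
    have h1 : b Q' ∈ cl Q' := Conn.refl ((hin Q' hQ' _ _ (hb Q' hQ').1 (hb Q' hQ').1
      (hb Q' hQ').2 (hb Q' hQ').2).1)
    rw [← h] at h1
    exact h1
  have hfew : ∀ Q ∈ F, ∀ Q' ∈ F, cl Q ≠ cl Q' →
      (((Q ×ˢ Q').filter (fun p => Γ.Adj p.1 p.2)).card : ℝ) ≤ γ * (s : ℝ) ^ 2 := by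
    intro Q hQ Q' hQ' hne
    by_contra hno
    rw [not_le] at hno
    obtain ⟨p, q, hp, hq, hpQ, hqQ, hpq⟩ := hkst Q hQ Q' hQ' hno
    apply hne
    have h1 : Conn Γ (b Q) p := hin Q hQ _ _ (hb Q hQ).1 hp (hb Q hQ).2 hpQ
    have h2 : Conn Γ (b Q') q := hin Q' hQ' _ _ (hb Q' hQ').1 hq (hb Q' hQ').2 hqQ
    have h3 : Conn Γ p q := conn_exchange h1.right h2.right (fun i j _ => hpq i j)
    have h4 : Conn Γ (b Q) (b Q') := (h1.trans h3).trans h2.symm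
    ext g
    exact ⟨fun h => h4.symm.trans h, fun h => h4.trans h⟩
  let CC : Finset (Set (Fin k → V)) := F.image cl
  let Fc : Set (Fin k → V) → Finset (Finset V) := fun c => F.filter (fun Q => cl Q = c)
  let w : Set (Fin k → V) → ℝ := fun c => ((((Fc c).biUnion id).card : ℕ) : ℝ)
  -- the union over a set of components
  let FG : Finset (Set (Fin k → V)) → Finset (Finset V) := fun A => F.filter (fun Q => cl Q ∈ A)
  have hFGcard : ∀ A : Finset (Set (Fin k → V)), ((((FG A).biUnion id).card : ℕ) : ℝ) =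
      ∑ c ∈ A, w c := by
    intro A
    have e1 : (FG A).biUnion id = A.biUnion (fun c => (Fc c).biUnion id) := by
      ext x
      simp only [FG, Fc, mem_biUnion, mem_filter, id]
      constructor
      · rintro ⟨Q, ⟨h1, h2⟩, h3⟩
        exact ⟨cl Q, h2, Q, ⟨h1, rfl⟩, h3⟩
      · rintro ⟨c, hc, Q, ⟨h1, h2⟩, h3⟩
        exact ⟨Q, ⟨h1, by rw [h2]; exact hc⟩, h3⟩
    rw [e1, card_biUnion]
    · push_cast
      rfl
    · intro c _ c' _ hne
      show Disjoint ((Fc c).biUnion id) ((Fc c').biUnion id)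
      rw [disjoint_left]
      intro x hx hx'
      simp only [Fc, mem_biUnion, mem_filter, id] at hx hx'
      obtain ⟨Q, ⟨h1, h2⟩, h3⟩ := hx
      obtain ⟨Q', ⟨h1', h2'⟩, h3'⟩ := hx'
      by_cases hQQ : Q = Q'
      · subst hQQ
        exact hne (h2.symm.trans h2')
      · exact disjoint_left.1 (hdisj Q h1 Q' h1' hQQ) h3 h3'
  have hnear : ∀ A A' : Finset (Set (Fin k → V)), Disjoint A A' →
      ∑ x ∈ (FG A).biUnion id, nd Γ' x ((FG A').biUnion id) ≤ (γ + ε) * t ^ 2 := by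
    intro A A' hAA
    refine near_groups Γ Γ' s γ ε hγ _ _ (fun Q hQ => hcard Q (mem_filter.1 hQ).1)
      (fun Q hQ => hcard Q (mem_filter.1 hQ).1)
      (fun Q hQ Q' hQ' => hdisj Q (mem_filter.1 hQ).1 Q' (mem_filter.1 hQ').1)
      (fun Q hQ Q' hQ' => hdisj Q (mem_filter.1 hQ).1 Q' (mem_filter.1 hQ').1) hun ?_
    intro Q hQ Q' hQ'
    rw [mem_filter] at hQ hQ'
    refine hfew Q hQ.1 Q' hQ'.1 (fun h => ?_)
    exact disjoint_left.1 hAA hQ.2 (by rw [h]; exact hQ'.2)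
  have hFGdisj : ∀ A A' : Finset (Set (Fin k → V)), Disjoint A A' →
      Disjoint ((FG A).biUnion id) ((FG A').biUnion id) := by
    intro A A' hAA
    rw [disjoint_left]
    intro x hx hx'
    simp only [FG, mem_biUnion, mem_filter, id] at hx hx'
    obtain ⟨Q, ⟨h1, h2⟩, h3⟩ := hx
    obtain ⟨Q', ⟨h1', h2'⟩, h3'⟩ := hx'
    by_cases hQQ : Q = Q'
    · subst hQQ
      exact disjoint_left.1 hAA h2 h2'
    · exact disjoint_left.1 (hdisj Q h1 Q' h1' hQQ) h3 h3'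
  obtain ⟨hg1, hg2⟩ := grouping w M hM0 (k + 1) CC (by
    intro G _ hGd hG
    have h1 := groups Γ' k Bd hcov (fun l => (FG (G l)).biUnion id)
      (fun l l' h => hFGdisj _ _ (hGd l l' h)) δ M hδ
      (fun l l' h => (hnear _ _ (hGd l l' h.symm)).trans (by gcongr))
      (fun l => by rw [hFGcard]; exact hG l) hM
    linarith)
  have hFcsingle : ∀ c, Fc c = FG {c} := by
    intro c
    ext Q
    simp [Fc, FG]
  refine ⟨{c // c ∈ CC.filter (fun c => M ≤ w c)}, inferInstance, fun c => Fc c,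
    fun c => b ((mem_image.1 (mem_filter.1 c.2).1).choose), ?_, ?_, ?_, ?_, ?_, ?_, ?_⟩
  · rw [Fintype.card_coe]
    omega
  · rintro ⟨c, hc⟩
    obtain ⟨Q, hQ, hQc⟩ := mem_image.1 (mem_filter.1 hc).1
    exact ⟨⟨Q, mem_filter.2 ⟨hQ, hQc⟩⟩, filter_subset _ _⟩
  · rintro ⟨c, hc⟩ ⟨c', hc'⟩ hne
    rw [disjoint_left]
    intro Q hQ hQ'
    apply hne
    exact Subtype.ext ((mem_filter.1 hQ).2.symm.trans (mem_filter.1 hQ').2)
  · rintro ⟨c, hc⟩ Q hQ f hf hfQ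
    have hspec := (mem_image.1 (mem_filter.1 hc).1).choose_spec
    rw [mem_filter] at hQ
    have h1 := hclconn _ hspec.1 Q hQ.1 (hspec.2.trans hQ.2.symm)
    exact h1.trans (hin Q hQ.1 _ _ (hb Q hQ.1).1 hf (hb Q hQ.1).2 hfQ)
  · rintro ⟨c, hc⟩ ⟨c', hc'⟩ hne
    show ∑ x ∈ (Fc c).biUnion id, nd Γ' x ((Fc c').biUnion id) ≤ (γ + ε) * t ^ 2
    rw [hFcsingle, hFcsingle]
    refine hnear _ _ ?_
    rw [disjoint_singleton]
    intro h
    apply hne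
    exact Subtype.ext h.symm
  · rintro ⟨c, hc⟩
    have hspec := (mem_image.1 (mem_filter.1 hc).1).choose_spec
    set Q0 := (mem_image.1 (mem_filter.1 hc).1).choose with hQ0
    have hbQ := hb Q0 hspec.1
    refine ⟨(hin Q0 hspec.1 _ _ hbQ.1 hbQ.1 hbQ.2 hbQ.2).1, ?_⟩
    obtain ⟨z, hz, hz'⟩ : ∃ z ∈ Q0, z ∉ univ.image (b Q0) := by
      by_contra hno
      push Not at hno
      have h1 : Q0 ⊆ univ.image (b Q0) := fun z hz => hno z hz
      have h2 := card_le_card h1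
      have h3 : (univ.image (b Q0)).card ≤ k := by
        refine card_image_le.trans ?_
        simp
      rw [hcard Q0 hspec.1] at h2
      omega
    refine ⟨z, fun j => hcl Q0 hspec.1 z hz _ (hbQ.2 j) ?_⟩
    intro h
    exact hz' (mem_image.2 ⟨j, mem_univ _, h.symm⟩)
  · have h1 : ((((FG CC).biUnion id).card : ℕ) : ℝ) = ∑ c ∈ CC, w c := hFGcard CC
    have h2 : FG CC = F := by
      apply filter_true_of_mem
      intro Q hQ
      exact mem_image_of_mem _ hQ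
    rw [h2] at h1
    rw [h1, ← sum_filter_add_sum_filter_not CC (fun c => M ≤ w c)]
    have h3 : ∑ c ∈ CC.filter (fun c => M ≤ w c), w c =
        ∑ i : {c // c ∈ CC.filter (fun c => M ≤ w c)}, ((((Fc i).biUnion id).card : ℕ) : ℝ) := by
      rw [← sum_coe_sort]
    rw [h3]
    linarith

end Pool.Agent.H35.BW
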