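import Mathlib

set_option autoImplicit false

/-!
The numerical inequality behind the bound `χ + O(1)`.
-/

namespace Pool.Agent.H35.BW

open Finset

theorem opt_aux (k : ℕ) (hk : 1 ≤ k) {I J : Type} [Fintype I] [Fintype J]
    [DecidableEq I] [DecidableEq J]
    (hI : Fintype.card I ≤ k) (hJ : Fintype.card J ≤ k) (ρ : I → ℝ) (σ : J → ℝ)
    (hρ : ∀ i, 0 ≤ ρ i) (hσ : ∀ j, 0 ≤ σ j) (D D' : I → J → ℝ)
    (hD : ∀ i j, 0 ≤ D i j) (hD' : ∀ i j, 0 ≤ D' i j) (η : ℝ) (hη : 0 ≤ η)
    (h1 : ∀ i, ρ i + ∑ j, D i j ≤ 1 + η) (h2 : ∀ j, σ j + ∑ i, D' i j ≤ 1 + η)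
    (h3 : ∀ i j, 1 ≤ k * (ρ i * σ j) → (1 - η) / k ≤ D i j + D' i j)
    (a : ℝ) (ha : 0 < a) (I0 : Finset I) (J0 : Finset J)
    (ha1 : ∀ i ∈ I0, a ≤ ρ i) (ha2 : ∀ i ∉ I0, ρ i ≤ a)
    (ha3 : ∀ j ∈ J0, 1 / (k * a) ≤ σ j) (ha4 : ∀ j ∉ J0, σ j ≤ 1 / (k * a))
    (hXY : 0 ≤ (∑ i ∈ I0ᶜ, ρ i - 1) * (∑ j ∈ J0ᶜ, σ j - 1)) :
    ∑ i, ρ i + ∑ j, σ j ≤ k + 1 + 3 * k * η := by
  have hk0 : (0 : ℝ) < k := by exact_mod_cast hk
  set X := ∑ i ∈ I0ᶜ, ρ i with hX
  set Y := ∑ j ∈ J0ᶜ, σ j with hY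
  have hX0 : 0 ≤ X := sum_nonneg (fun i _ => hρ i)
  have hY0 : 0 ≤ Y := sum_nonneg (fun i _ => hσ i)
  have hcI : (I0ᶜ.card : ℝ) = Fintype.card I - I0.card := by
    rw [card_compl, Nat.cast_sub (card_le_univ _)]
  have hcJ : (J0ᶜ.card : ℝ) = Fintype.card J - J0.card := by
    rw [card_compl, Nat.cast_sub (card_le_univ _)]
  have hI' : (Fintype.card I : ℝ) ≤ k := by exact_mod_cast hI
  have hJ' : (Fintype.card J : ℝ) ≤ k := by exact_mod_cast hJ
  have hI0 : (I0.card : ℝ) ≤ k := le_trans (by exact_mod_cast card_le_univ I0) hI'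
  have hJ0 : (J0.card : ℝ) ≤ k := le_trans (by exact_mod_cast card_le_univ J0) hJ'
  have hXle : X ≤ a * (k - I0.card) := by
    calc X ≤ ∑ i ∈ I0ᶜ, a := sum_le_sum (fun i hi => ha2 i (by simpa using hi))
      _ = a * (Fintype.card I - I0.card) := by rw [sum_const, nsmul_eq_mul, hcI]; ring
      _ ≤ a * (k - I0.card) := by gcongr
  have hYle : Y ≤ 1 / (k * a) * (k - J0.card) := by
    calc Y ≤ ∑ i ∈ J0ᶜ, 1 / (k * a) := sum_le_sum (fun i hi => ha4 i (by simpa using hi))
      _ = 1 / (k * a) * (Fintype.card J - J0.card) := by rw [sum_const, nsmul_eq_mul, hcJ]; ring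
      _ ≤ 1 / (k * a) * (k - J0.card) := by gcongr
  have hXYle : X * Y ≤ (k - I0.card) * (k - J0.card) / k := by
    calc X * Y ≤ (a * (k - I0.card)) * (1 / (k * a) * (k - J0.card)) := by
          apply mul_le_mul hXle hYle hY0
          exact mul_nonneg ha.le (by linarith)
      _ = (k - I0.card) * (k - J0.card) / k := by
          field_simp
  -- the main inequality
  have hmain : ∑ i ∈ I0, ρ i + ∑ j ∈ J0, σ j ≤
      (I0.card + J0.card) * (1 + η) - I0.card * J0.card * ((1 - η) / k) := by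
    have e1 : ∑ i ∈ I0, (ρ i + ∑ j ∈ J0, D i j) ≤ I0.card * (1 + η) := by
      calc ∑ i ∈ I0, (ρ i + ∑ j ∈ J0, D i j) ≤ ∑ i ∈ I0, (1 + η) := by
            refine sum_le_sum (fun i _ => le_trans ?_ (h1 i))
            gcongr
            · exact fun j _ _ => hD i j
            · exact subset_univ _
        _ = I0.card * (1 + η) := by rw [sum_const, nsmul_eq_mul]
    have e2 : ∑ j ∈ J0, (σ j + ∑ i ∈ I0, D' i j) ≤ J0.card * (1 + η) := by
      calc ∑ j ∈ J0, (σ j + ∑ i ∈ I0, D' i j) ≤ ∑ j ∈ J0, (1 + η) := by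
            refine sum_le_sum (fun j _ => le_trans ?_ (h2 j))
            gcongr
            · exact fun i _ _ => hD' i j
            · exact subset_univ _
        _ = J0.card * (1 + η) := by rw [sum_const, nsmul_eq_mul]
    have e3 : (I0.card : ℝ) * J0.card * ((1 - η) / k) ≤ ∑ i ∈ I0, ∑ j ∈ J0, (D i j + D' i j) := by
      calc (I0.card : ℝ) * J0.card * ((1 - η) / k) = ∑ i ∈ I0, ∑ j ∈ J0, (1 - η) / k := by
            simp only [sum_const, nsmul_eq_mul]
            ring
        _ ≤ _ := by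
            refine sum_le_sum (fun i hi => sum_le_sum (fun j hj => h3 i j ?_))
            have := mul_le_mul (ha1 i hi) (ha3 j hj) (by positivity) (hρ i)
            calc (1 : ℝ) = k * (a * (1 / (k * a))) := by field_simp
              _ ≤ k * (ρ i * σ j) := by gcongr
    rw [sum_add_distrib] at e1 e2
    have e4 : ∑ i ∈ I0, ∑ j ∈ J0, (D i j + D' i j) =
        ∑ i ∈ I0, ∑ j ∈ J0, D i j + ∑ j ∈ J0, ∑ i ∈ I0, D' i j := by
      rw [sum_comm (s := J0) (t := I0), ← sum_add_distrib]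
      exact sum_congr rfl (fun i _ => sum_add_distrib)
    rw [e4] at e3
    linarith
  have hs1 : ∑ i, ρ i = ∑ i ∈ I0, ρ i + X := by
    rw [hX, sum_add_sum_compl]
  have hs2 : ∑ i, σ i = ∑ i ∈ J0, σ i + Y := by
    rw [hY, sum_add_sum_compl]
  rw [hs1, hs2]
  have e5 : (I0.card + J0.card) * (1 + η) - I0.card * J0.card * ((1 - η) / k) ≤
      k - (k - I0.card) * (k - J0.card) / k + 3 * k * η := by
    have h5 : (I0.card : ℝ) * J0.card / k ≤ k := by
      rw [div_le_iff₀ hk0]
      exact mul_le_mul hI0 hJ0 (Nat.cast_nonneg _) hk0.le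
    have h6 : (I0.card + J0.card) * (1 + η) - I0.card * J0.card * ((1 - η) / k) =
        k - (k - I0.card) * (k - J0.card) / k + (I0.card + J0.card) * η +
          (I0.card * J0.card / k) * η := by
      field_simp
      ring
    rw [h6]
    have h7 : (I0.card + J0.card : ℝ) * η ≤ (k + k) * η := by gcongr
    have h8 : (I0.card : ℝ) * J0.card / k * η ≤ k * η := by gcongr
    linarith
  nlinarith

/-- **The numerical inequality.** -/
theorem opt (k : ℕ) (hk : 1 ≤ k) {I J : Type} [Fintype I] [Fintype J]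
    (hI : Fintype.card I ≤ k) (hJ : Fintype.card J ≤ k) (ρ : I → ℝ) (σ : J → ℝ)
    (hρ : ∀ i, 0 ≤ ρ i) (hσ : ∀ j, 0 ≤ σ j) (D D' : I → J → ℝ)
    (hD : ∀ i j, 0 ≤ D i j) (hD' : ∀ i j, 0 ≤ D' i j) (η : ℝ) (hη : 0 ≤ η)
    (h1 : ∀ i, ρ i + ∑ j, D i j ≤ 1 + η) (h2 : ∀ j, σ j + ∑ i, D' i j ≤ 1 + η)
    (h3 : ∀ i j, 1 ≤ k * (ρ i * σ j) → (1 - η) / k ≤ D i j + D' i j) :
    ∑ i, ρ i + ∑ j, σ j ≤ k + 1 + 3 * k * η := by
  classical
  have hk0 : (0 : ℝ) < k := by exact_mod_cast hk
  have hJ' : (Fintype.card J : ℝ) ≤ k := by exact_mod_cast hJ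
  have hσ1 : ∀ j, σ j ≤ 1 + η := fun j =>
    le_trans (le_add_of_nonneg_right (sum_nonneg (fun i _ => hD' i j))) (h2 j)
  rcases le_or_gt (∑ i, ρ i) 1 with hc | hc
  · have : ∑ j, σ j ≤ k * (1 + η) := by
      calc ∑ j, σ j ≤ ∑ j : J, (1 + η) := sum_le_sum (fun j _ => hσ1 j)
        _ = Fintype.card J * (1 + η) := by rw [sum_const, nsmul_eq_mul, card_univ]
        _ ≤ k * (1 + η) := by gcongr
    nlinarith [mul_nonneg hk0.le hη]
  · -- the threshold
    let T : Finset I := univ.filter (fun i => 1 < ∑ l with ρ l ≤ ρ i, ρ l)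
    have hIne : (univ : Finset I).Nonempty := by
      by_contra hne
      rw [not_nonempty_iff_eq_empty] at hne
      rw [hne, sum_empty] at hc
      linarith
    have hTne : T.Nonempty := by
      obtain ⟨i, _, hi⟩ := exists_max_image univ ρ hIne
      refine ⟨i, ?_⟩
      simp only [T, mem_filter, mem_univ, true_and]
      rwa [filter_true_of_mem (fun l _ => hi l (mem_univ l))]
    obtain ⟨i0, hi0, hmin⟩ := exists_min_image T ρ hTne
    have hi0' : 1 < ∑ l with ρ l ≤ ρ i0, ρ l := by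
      simpa [T] using hi0
    have ha : 0 < ρ i0 := by
      by_contra hne
      have h0 : ρ i0 = 0 := le_antisymm (not_lt.1 hne) (hρ i0)
      have : ∑ l with ρ l ≤ ρ i0, ρ l = 0 := by
        apply sum_eq_zero
        intro l hl
        rw [mem_filter] at hl
        exact le_antisymm (hl.2.trans_eq h0) (hρ l)
      linarith
    have hX0 : ∑ l with ρ l < ρ i0, ρ l ≤ 1 := by
      by_contra hne
      rw [not_le] at hne
      have hne' : (univ.filter (fun l => ρ l < ρ i0)).Nonempty := by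
        by_contra h0
        rw [not_nonempty_iff_eq_empty] at h0
        rw [h0, sum_empty] at hne
        linarith
      obtain ⟨l0, hl0, hl0'⟩ := exists_max_image _ ρ hne'
      have hl0'' : ρ l0 < ρ i0 := (mem_filter.1 hl0).2
      have hin : l0 ∈ T := by
        simp only [T, mem_filter, mem_univ, true_and]
        refine lt_of_lt_of_le hne (sum_le_sum_of_subset_of_nonneg ?_ (fun i _ _ => hρ i))
        intro l hl
        rw [mem_filter]
        exact ⟨mem_univ _, hl0' l hl⟩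
      exact absurd (hmin l0 hin) (not_le.2 hl0'')
    set a := ρ i0 with hadef
    rcases le_or_gt (∑ j with σ j < 1 / (k * a), σ j) 1 with hY | hY
    · refine opt_aux k hk hI hJ ρ σ hρ hσ D D' hD hD' η hη h1 h2 h3 a ha
        (univ.filter (fun i => a ≤ ρ i)) (univ.filter (fun j => 1 / (k * a) ≤ σ j))
        (fun i hi => (mem_filter.1 hi).2) (fun i hi => ?_) (fun i hi => (mem_filter.1 hi).2)
        (fun i hi => ?_) ?_
      · simp only [mem_filter, mem_univ, true_and, not_le] at hi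
        exact hi.le
      · simp only [mem_filter, mem_univ, true_and, not_le] at hi
        exact hi.le
      · have e1 : (univ.filter (fun i => a ≤ ρ i))ᶜ = univ.filter (fun i => ρ i < a) := by
          ext i; simp
        have e2 : (univ.filter (fun j => 1 / (k * a) ≤ σ j))ᶜ =
            univ.filter (fun j => σ j < 1 / (k * a)) := by
          ext i; simp
        rw [e1, e2]
        exact mul_nonneg_of_nonpos_of_nonpos (by linarith) (by linarith)
    · refine opt_aux k hk hI hJ ρ σ hρ hσ D D' hD hD' η hη h1 h2 h3 a ha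
        (univ.filter (fun i => a < ρ i)) (univ.filter (fun j => 1 / (k * a) ≤ σ j))
        (fun i hi => (mem_filter.1 hi).2.le) (fun i hi => ?_) (fun i hi => (mem_filter.1 hi).2)
        (fun i hi => ?_) ?_
      · simp only [mem_filter, mem_univ, true_and, not_lt] at hi
        exact hi
      · simp only [mem_filter, mem_univ, true_and, not_le] at hi
        exact hi.le
      · have e1 : (univ.filter (fun i => a < ρ i))ᶜ = univ.filter (fun i => ρ i ≤ a) := by
          ext i; simp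
        have e2 : (univ.filter (fun j => 1 / (k * a) ≤ σ j))ᶜ =
            univ.filter (fun j => σ j < 1 / (k * a)) := by
          ext i; simp
        rw [e1, e2]
        exact mul_nonneg (by linarith) (by linarith)

end Pool.Agent.H35.BW
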