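import Mathlib
import Pool.Agent.H35.BW.Colour
import Pool.Agent.H35.BW.Opt

set_option autoImplicit false

/-!
The combinatorial core.
-/

namespace Pool.Agent.H35.BW

open Finset Classical

variable {V : Type} [Fintype V]

/-- integral covers -/
theorem int_cover (Γ : SimpleGraph V) (k L : ℕ) (Bd : ℝ) (hcov : HasCover Γ k Bd)
    (f0 : Fin k → V) (h0 : OC Γ f0) (hz : ∃ z, ∀ i, Γ.Adj z (f0 i)) :
    ∃ U : V → ℕ, (∀ v, U v ≤ k * L) ∧ (∑ v, (U v : ℝ) ≤ L * Bd + Fintype.card V) ∧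
      ∀ g, Conn Γ f0 g → k * L ≤ ∑ i, U (g i) := by
  obtain ⟨u, hu0, huB, hu⟩ := hcov f0 h0 hz
  refine ⟨fun v => min (k * L) ⌈(L : ℝ) * u v⌉₊, fun v => min_le_left _ _, ?_, ?_⟩
  · calc ∑ v, ((min (k * L) ⌈(L : ℝ) * u v⌉₊ : ℕ) : ℝ) ≤ ∑ v, ((L : ℝ) * u v + 1) := by
          refine sum_le_sum (fun v _ => ?_)
          have h1 : ((min (k * L) ⌈(L : ℝ) * u v⌉₊ : ℕ) : ℝ) ≤ (⌈(L : ℝ) * u v⌉₊ : ℝ) := by
            exact_mod_cast min_le_right _ _
          have h2 : (⌈(L : ℝ) * u v⌉₊ : ℝ) < (L : ℝ) * u v + 1 :=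
            Nat.ceil_lt_add_one (by have := hu0 v; positivity)
          linarith
      _ = L * ∑ v, u v + Fintype.card V := by
          rw [sum_add_distrib, ← mul_sum]
          simp
      _ ≤ L * Bd + Fintype.card V := by gcongr
  · intro g hg
    by_cases h : ∃ i, k * L ≤ ⌈(L : ℝ) * u (g i)⌉₊
    · obtain ⟨i, hi⟩ := h
      calc k * L = min (k * L) ⌈(L : ℝ) * u (g i)⌉₊ := (min_eq_left hi).symm
        _ ≤ ∑ i, min (k * L) ⌈(L : ℝ) * u (g i)⌉₊ :=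
            single_le_sum (f := fun i => min (k * L) ⌈(L : ℝ) * u (g i)⌉₊)
              (fun _ _ => Nat.zero_le _) (mem_univ i)
    · push Not at h
      have h1 : ((k * L : ℕ) : ℝ) ≤ ((∑ i, min (k * L) ⌈(L : ℝ) * u (g i)⌉₊ : ℕ) : ℝ) := by
        push_cast
        calc (k : ℝ) * L ≤ (∑ i, u (g i)) * L := by
              have := hu g hg
              gcongr
          _ = ∑ i, (L : ℝ) * u (g i) := by rw [sum_mul]; exact sum_congr rfl (fun i _ => mul_comm _ _)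
          _ ≤ _ := by
              refine sum_le_sum (fun i _ => ?_)
              have h2 := (h i).le
              have h3 : ((⌈(L : ℝ) * u (g i)⌉₊ : ℕ) : ℝ) ≤ (k : ℝ) * L := by exact_mod_cast h2
              rw [min_eq_right h3]
              exact Nat.le_ceil _
      exact_mod_cast h1

omit [Fintype V] in
theorem disjoint_unions (F F1 F2 : Finset (Finset V))
    (hdisj : ∀ Q ∈ F, ∀ Q' ∈ F, Q ≠ Q' → Disjoint Q Q') (h1 : F1 ⊆ F) (h2 : F2 ⊆ F)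
    (h : Disjoint F1 F2) : Disjoint (F1.biUnion id) (F2.biUnion id) := by
  rw [disjoint_left]
  intro x hx hx'
  simp only [mem_biUnion, id] at hx hx'
  obtain ⟨Q, hQ, hxQ⟩ := hx
  obtain ⟨Q', hQ', hxQ'⟩ := hx'
  by_cases hQQ : Q = Q'
  · subst hQQ
    exact disjoint_left.1 h hQ hQ'
  · exact disjoint_left.1 (hdisj Q (h1 hQ) Q' (h2 hQ') hQQ) hxQ hxQ'

/-- few vertices of a component are not fine -/
theorem bad_count {J : Type} [Fintype J] (Γ : SimpleGraph V) (k s L : ℕ) (hs : 1 ≤ s) (hL : 1 ≤ L)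
    (δ : ℝ) (hδ : 0 < δ) (hδ1 : δ ≤ 1) (hk : 1 ≤ k) (B : J → Finset V) (hJ : Fintype.card J ≤ k)
    (hnear : ∀ j j', j' ≠ j →
      ∑ x ∈ B j, nd Γ x (B j') ≤ δ ^ 2 / (16 * k ^ 2) * (Fintype.card V : ℝ) ^ 2)
    (f0 : Fin k → V) (U : V → ℕ) (hU : ∀ g, Conn Γ f0 g → k * L ≤ ∑ i, U (g i))
    (hUle : ∀ v, U v ≤ k * L) (Fi : Finset (Finset V)) (hcard : ∀ Q ∈ Fi, Q.card = s)
    (hdisj : ∀ Q ∈ Fi, ∀ Q' ∈ Fi, Q ≠ Q' → Disjoint Q Q')
    (hcl : ∀ Q ∈ Fi, ∀ x ∈ Q, ∀ y ∈ Q, x ≠ y → Γ.Adj x y)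
    (hconn : ∀ Q ∈ Fi, ∀ f : Fin k → V, Function.Injective f → (∀ j, f j ∈ Q) → Conn Γ f0 f)
    (s0 : ℕ) (hs0 : (k : ℝ) ≤ (δ / 2) ^ k * s0) :
    ((((Fi.biUnion id).filter (fun P => ¬ Fine Γ U L δ B k P)).card : ℕ) : ℝ) ≤
      Fintype.card V / s * (classes k L * s0 : ℕ) := by
  have hs' : (0 : ℝ) < s := by exact_mod_cast hs
  have h1 : ((Fi.biUnion id).filter (fun P => ¬ Fine Γ U L δ B k P)).card ≤
      Fi.card * (classes k L * s0) := by
    have e : (Fi.biUnion id).filter (fun P => ¬ Fine Γ U L δ B k P) =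
        Fi.biUnion (fun Q => Q.filter (fun P => ¬ Fine Γ U L δ B k P)) := by
      ext x
      simp only [mem_filter, mem_biUnion, id]
      constructor
      · rintro ⟨⟨Q, h1, h2⟩, h3⟩
        exact ⟨Q, h1, h2, h3⟩
      · rintro ⟨Q, h1, h2, h3⟩
        exact ⟨⟨Q, h1, h2⟩, h3⟩
    rw [e]
    refine card_biUnion_le.trans ?_
    calc ∑ Q ∈ Fi, (Q.filter (fun P => ¬ Fine Γ U L δ B k P)).card
        ≤ ∑ Q ∈ Fi, classes k L * s0 :=
          sum_le_sum (fun Q hQ => card_not_fine Γ U L hL δ hδ hδ1 hk B hJ hnear f0 hU hUle Q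
            (hcl Q hQ) (hconn Q hQ) s0 hs0)
      _ = Fi.card * (classes k L * s0) := by rw [sum_const, smul_eq_mul]
  have h2 : (Fi.card : ℝ) ≤ Fintype.card V / s := by
    rw [le_div_iff₀ hs']
    have := card_le_univ (Fi.biUnion id)
    rw [card_family Fi s hcard hdisj] at this
    exact_mod_cast this
  calc ((((Fi.biUnion id).filter (fun P => ¬ Fine Γ U L δ B k P)).card : ℕ) : ℝ)
      ≤ ((Fi.card * (classes k L * s0) : ℕ) : ℝ) := by exact_mod_cast h1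
    _ = Fi.card * ((classes k L * s0 : ℕ) : ℝ) := by push_cast; ring
    _ ≤ _ := by gcongr


/-- The core for given parameters. -/
theorem core_step (k : ℕ) (hk : 2 ≤ k) (K : ℝ) (hK : K = (k : ℝ) + 15 / 2)
    (L : ℕ) (hL1 : 1 ≤ L) (δ : ℝ) (hδ0 : 0 < δ) (hδ1 : δ ≤ 1) (s0 : ℕ)
    (hs0' : (k : ℝ) ≤ (δ / 2) ^ k * s0) (γ : ℝ) (hγ0 : 0 < γ) (s : ℕ) (hks : k < s)
    (hs1 : ∀ (V : Type) (Γ : SimpleGraph V) (Q Q' : Finset V), Q.card = s → Q'.card = s →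
      γ * (s : ℝ) ^ 2 < (((Q ×ˢ Q').filter (fun p => Γ.Adj p.1 p.2)).card : ℝ) →
      ∃ p q : Fin k → V, Function.Injective p ∧ Function.Injective q ∧ (∀ i, p i ∈ Q) ∧
      (∀ i, q i ∈ Q') ∧ ∀ i j, Γ.Adj (p i) (q j))
    (ε : ℝ) (hε0 : 0 < ε) (hεδ : ε ≤ δ)
    (hεd : ε ≤ (1 / (20 * K)) ^ 2 / (16 * (2 ^ (s + s) : ℕ) ^ 2))
    (hγε : γ + ε ≤ δ ^ 2 / (16 * (k + 1 : ℕ) ^ 2))
    (hγε' : γ + ε ≤ δ ^ 2 / (16 * k ^ 2))
    (hkδ : k * δ * K < 1 / 100) (hδg : 2 * δ * K ≤ 101 / (100 * k))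
    (hpair : k * (3 * δ) * K ^ 2 ≤ 1 / (60 * k))
    (hKL : K * (K / L) ≤ 1 / (120 * k))
    (hbads : 2 * K * (classes k L * s0 : ℕ) / s ≤ 1 / (120 * k))
    (V : Type) [Fintype V] [Nonempty V] (Rd Bl : SimpleGraph V)
    (hun : (((univ : Finset (V × V)).filter
      (fun p => ¬ Rd.Adj p.1 p.2 ∧ ¬ Bl.Adj p.1 p.2)).card : ℝ) ≤ ε * (Fintype.card V : ℝ) ^ 2)
    (hcR : HasCover Rd k (Fintype.card V / K))
    (hcB : HasCover Bl k (Fintype.card V / K)) : False := by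
  have hk1 : 1 ≤ k := by omega
  have hk2 : (2 : ℝ) ≤ k := by exact_mod_cast hk
  have hk0 : (0 : ℝ) < k := by linarith
  have hK0 : 0 < K := by rw [hK]; positivity
  have hL0 : (0 : ℝ) < L := by exact_mod_cast hL1
  have hs00 : (0 : ℝ) < s := by exact_mod_cast (by omega : 0 < s)
  have hδd0 : 0 < 1 / (20 * K) := by positivity
  have ht : (0 : ℝ) < Fintype.card V := by exact_mod_cast Fintype.card_pos
  obtain ⟨t, htdef⟩ : ∃ t : ℝ, t = (Fintype.card V : ℝ) := ⟨_, rfl⟩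
  rw [← htdef] at ht hun hcR hcB
  have hun' : (((univ : Finset (V × V)).filter
      (fun p => ¬ Bl.Adj p.1 p.2 ∧ ¬ Rd.Adj p.1 p.2)).card : ℝ) ≤ ε * t ^ 2 := by
    have e : (univ : Finset (V × V)).filter (fun p => ¬ Bl.Adj p.1 p.2 ∧ ¬ Rd.Adj p.1 p.2) =
        (univ : Finset (V × V)).filter (fun p => ¬ Rd.Adj p.1 p.2 ∧ ¬ Bl.Adj p.1 p.2) :=
      filter_congr (fun _ _ => and_comm)
    rw [e]
    exact hun
  obtain ⟨F, hF1, hF2, hF3, hF4⟩ := decomposition Rd Bl s (by omega) (1 / (20 * K)) hδd0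
    (hun.trans (by rw [htdef]; gcongr))
  obtain ⟨F1, hF1def⟩ : ∃ F1, F1 = F.filter (fun Q => ∀ x ∈ Q, ∀ y ∈ Q, x ≠ y → Rd.Adj x y) :=
    ⟨_, rfl⟩
  obtain ⟨F2, hF2def⟩ : ∃ F2, F2 = F.filter (fun Q => ¬ ∀ x ∈ Q, ∀ y ∈ Q, x ≠ y → Rd.Adj x y) :=
    ⟨_, rfl⟩
  have hF1F : F1 ⊆ F := by rw [hF1def]; exact filter_subset _ _
  have hF2F : F2 ⊆ F := by rw [hF2def]; exact filter_subset _ _
  have hF12 : Disjoint F1 F2 := by rw [hF1def, hF2def]; exact disjoint_filter_filter_not _ _ _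
  have hF1R : ∀ Q ∈ F1, ∀ x ∈ Q, ∀ y ∈ Q, x ≠ y → Rd.Adj x y := by
    intro Q hQ
    rw [hF1def] at hQ
    exact (mem_filter.1 hQ).2
  have hF2B : ∀ Q ∈ F2, ∀ x ∈ Q, ∀ y ∈ Q, x ≠ y → Bl.Adj x y := by
    intro Q hQ
    have hQF := hF2F hQ
    rw [hF2def] at hQ
    exact (hF3 Q hQF).resolve_left (mem_filter.1 hQ).2
  -- the parameters for the groups
  obtain ⟨M, hM⟩ : ∃ M : ℝ, M = 101 / (100 * k) * t / K := ⟨_, rfl⟩
  have hMδ : 2 * δ * t ≤ M := by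
    rw [hM, le_div_iff₀ hK0]
    calc 2 * δ * t * K = 2 * δ * K * t := by ring
      _ ≤ 101 / (100 * k) * t := by gcongr
  have hMB : t / K < k * (M - δ * t) := by
    have h1 : k * (M - δ * t) = (101 / 100 - k * δ * K) * (t / K) := by
      rw [hM]
      field_simp
    rw [h1]
    have h2 : 0 < t / K := by positivity
    have h3 : 1 < 101 / 100 - k * δ * K := by linarith
    calc t / K = 1 * (t / K) := (one_mul _).symm
      _ < _ := by gcongr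
  rw [htdef] at hMδ hMB hun hun' hcR hcB
  obtain ⟨I, instI, Fi, f0, hI1, hI2, hI3, hI4, hI5, hI6, hI7⟩ := colour_data Rd Bl k s hks F1
    (fun Q hQ => hF1 Q (hF1F hQ)) (fun Q hQ Q' hQ' => hF2 Q (hF1F hQ) Q' (hF1F hQ'))
    hF1R γ ε δ _ M hγ0.le hδ0
    (fun Q hQ Q' hQ' h => hs1 V Rd Q Q' (hF1 Q (hF1F hQ)) (hF1 Q' (hF1F hQ')) h)
    hun hγε hcB hMδ hMB
  obtain ⟨J, instJ, Fj, f0', hJ1, hJ2, hJ3, hJ4, hJ5, hJ6, hJ7⟩ := colour_data Bl Rd k s hks F2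
    (fun Q hQ => hF1 Q (hF2F hQ)) (fun Q hQ Q' hQ' => hF2 Q (hF2F hQ) Q' (hF2F hQ'))
    hF2B γ ε δ _ M hγ0.le hδ0
    (fun Q hQ Q' hQ' h => hs1 V Bl Q Q' (hF1 Q (hF2F hQ)) (hF1 Q' (hF2F hQ')) h)
    hun' hγε hcR hMδ hMB
  rw [← htdef] at hMδ hMB hun hun' hcR hcB hI5 hJ5
  obtain ⟨R, hR⟩ : ∃ R : I → Finset V, R = fun i => (Fi i).biUnion id := ⟨_, rfl⟩
  obtain ⟨B, hB⟩ : ∃ B : J → Finset V, B = fun j => (Fj j).biUnion id := ⟨_, rfl⟩
  have hRi : ∀ i, R i = (Fi i).biUnion id := fun i => by rw [hR]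
  have hBj : ∀ j, B j = (Fj j).biUnion id := fun i => by rw [hB]
  -- the covers
  choose U hU1 hU2 hU3 using fun i => int_cover Rd k L (t / K) hcR (f0 i) (hI6 i).1 (hI6 i).2
  choose U' hU'1 hU'2 hU'3 using fun j => int_cover Bl k L (t / K) hcB (f0' j) (hJ6 j).1 (hJ6 j).2
  -- nonempty and disjoint
  have hne : ∀ (X : Finset (Finset V)), X.Nonempty → X ⊆ F → (X.biUnion id).Nonempty := by
    intro X hX hXF
    obtain ⟨Q, hQ⟩ := hX
    have hQc := hF1 Q (hXF hQ)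
    have : Q.Nonempty := by rw [← card_pos, hQc]; omega
    obtain ⟨x, hx⟩ := this
    exact ⟨x, mem_biUnion.2 ⟨Q, hQ, hx⟩⟩
  have hRne : ∀ i, (R i).Nonempty := fun i => by
    rw [hRi]; exact hne _ (hI2 i).1 ((hI2 i).2.trans hF1F)
  have hBne : ∀ j, (B j).Nonempty := fun j => by
    rw [hBj]; exact hne _ (hJ2 j).1 ((hJ2 j).2.trans hF2F)
  have hRd : ∀ i i', i ≠ i' → Disjoint (R i) (R i') := fun i i' h => by
    rw [hRi, hRi]
    exact disjoint_unions F _ _ hF2 ((hI2 i).2.trans hF1F) ((hI2 i').2.trans hF1F) (hI3 i i' h)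
  have hBd : ∀ i i', i ≠ i' → Disjoint (B i) (B i') := fun i i' h => by
    rw [hBj, hBj]
    exact disjoint_unions F _ _ hF2 ((hJ2 i).2.trans hF2F) ((hJ2 i').2.trans hF2F) (hJ3 i i' h)
  have hRB : ∀ i j, Disjoint (R i) (B j) := fun i j => by
    rw [hRi, hBj]
    exact disjoint_unions F _ _ hF2 ((hI2 i).2.trans hF1F) ((hJ2 j).2.trans hF2F)
      (disjoint_of_subset_left (hI2 i).2 (disjoint_of_subset_right (hJ2 j).2 hF12))
  -- the scaling
  obtain ⟨lam, hlam⟩ : ∃ lam : ℝ, lam = K / t := ⟨_, rfl⟩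
  have hlam0 : 0 < lam := by rw [hlam]; positivity
  have hlamt : lam * t = K := by rw [hlam]; field_simp
  have hbudget : ∀ W : V → ℕ, (∑ v, (W v : ℝ) ≤ L * (t / K) + Fintype.card V) →
      lam * (∑ v, (W v : ℝ) / L) ≤ 1 + K / L := by
    intro W hW
    rw [← htdef] at hW
    rw [← sum_div]
    have h1 : lam * ((∑ v, (W v : ℝ)) / L) ≤ lam * ((L * (t / K) + t) / L) := by gcongr
    refine h1.trans (le_of_eq ?_)
    rw [hlam]
    field_simp
  obtain ⟨bad, hbad⟩ : ∃ bad : ℝ, bad = t / s * (classes k L * s0 : ℕ) := ⟨_, rfl⟩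
  have hnearB : ∀ j j', j' ≠ j →
      ∑ x ∈ B j, nd Rd x (B j') ≤ δ ^ 2 / (16 * k ^ 2) * (Fintype.card V : ℝ) ^ 2 :=
    fun j j' h => by
      rw [hBj, hBj, ← htdef]
      exact (hJ5 j j' h).trans (by gcongr)
  have hnearR : ∀ j j', j' ≠ j →
      ∑ x ∈ R j, nd Bl x (R j') ≤ δ ^ 2 / (16 * k ^ 2) * (Fintype.card V : ℝ) ^ 2 :=
    fun j j' h => by
      rw [hRi, hRi, ← htdef]
      exact (hI5 j j' h).trans (by gcongr)
  have hbadR : ∀ i, (((R i).filter (fun P => ¬ Fine Rd (U i) L δ B k P)).card : ℝ) ≤ bad :=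
    fun i => by
      rw [hRi, hbad, htdef]
      exact bad_count Rd k s L (by omega) hL1 δ hδ0 hδ1 hk1 B hJ1 hnearB (f0 i) (U i) (hU3 i)
        (hU1 i) (Fi i) (fun Q hQ => hF1 Q (hF1F ((hI2 i).2 hQ)))
        (fun Q hQ Q' hQ' => hF2 Q (hF1F ((hI2 i).2 hQ)) Q' (hF1F ((hI2 i).2 hQ')))
        (fun Q hQ => hF1R Q ((hI2 i).2 hQ)) (hI4 i) s0 hs0'
  have hbadB : ∀ j, (((B j).filter (fun P => ¬ Fine Bl (U' j) L δ R k P)).card : ℝ) ≤ bad :=
    fun j => by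
      rw [hBj, hbad, htdef]
      exact bad_count Bl k s L (by omega) hL1 δ hδ0 hδ1 hk1 R hI1 hnearR (f0' j) (U' j) (hU'3 j)
        (hU'1 j) (Fj j) (fun Q hQ => hF1 Q (hF2F ((hJ2 j).2 hQ)))
        (fun Q hQ Q' hQ' => hF2 Q (hF2F ((hJ2 j).2 hQ)) Q' (hF2F ((hJ2 j).2 hQ')))
        (fun Q hQ => hF2B Q ((hJ2 j).2 hQ)) (hJ4 j) s0 hs0'
  -- the total error
  obtain ⟨η, hη⟩ : ∃ η : ℝ, η = 1 / (60 * k) := ⟨_, rfl⟩
  have hη0 : 0 < η := by rw [hη]; positivity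
  have herr : ∀ A : Finset V, lam * A.card * (K / L) + 2 * lam * bad ≤ η := by
    intro A
    have h1 : lam * A.card ≤ K := by
      rw [← hlamt]
      have : (A.card : ℝ) ≤ t := by rw [htdef]; exact_mod_cast card_le_univ A
      gcongr
    have h2 : lam * A.card * (K / L) ≤ K * (K / L) := by gcongr
    have h4 : 2 * lam * bad ≤ 1 / (120 * k) := by
      have e : 2 * lam * bad = 2 * K * (classes k L * s0 : ℕ) / s := by
        rw [hbad, hlam]
        field_simp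
      rw [e]
      exact hbads
    have h5 : (1 : ℝ) / (120 * k) + 1 / (120 * k) = η := by
      rw [hη]; field_simp; norm_num
    linarith
  have hmu : ∀ (Γ : SimpleGraph V) (W : V → ℕ) (A : Finset V) (P : V),
      0 ≤ 1 - (mu Γ W L δ A P : ℝ) / L := by
    intro Γ W A P
    have : (mu Γ W L δ A P : ℝ) / L ≤ 1 := by
      rw [div_le_one hL0]
      exact_mod_cast mu_le _ _ _ _ _ _
    linarith
  -- apply the numerical inequality
  have hmain := opt k hk1 hI1 hJ1 (fun i => lam * (R i).card) (fun j => lam * (B j).card)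
    (fun i => by positivity) (fun j => by positivity)
    (fun i j => (∑ P ∈ R i, (1 - (mu Rd (U i) L δ (B j) P : ℝ) / L)) / (R i).card / k +
      (lam * (R i).card) * (lam * ∑ x ∈ B j, (U i x : ℝ) / L))
    (fun i j => (∑ x ∈ B j, (1 - (mu Bl (U' j) L δ (R i) x : ℝ) / L)) / (B j).card / k +
      (lam * (B j).card) * (lam * ∑ P ∈ R i, (U' j P : ℝ) / L))
    (fun i j => by
      have : 0 ≤ ∑ P ∈ R i, (1 - (mu Rd (U i) L δ (B j) P : ℝ) / L) :=
        sum_nonneg (fun P _ => hmu _ _ _ _)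
      positivity)
    (fun i j => by
      have : 0 ≤ ∑ P ∈ B j, (1 - (mu Bl (U' j) L δ (R i) P : ℝ) / L) :=
        sum_nonneg (fun P _ => hmu _ _ _ _)
      positivity)
    η hη0.le
    (fun i => by
      have h1 := star Rd (U i) L hL1 δ hk1 B hJ1 hBd (R i) (hRne i) (hRB i) lam (K / L) bad hlam0
        (hbudget (U i) (hU2 i)) (hbadR i)
      have h2 := herr (R i)
      linarith)
    (fun j => by
      have h1 := star Bl (U' j) L hL1 δ hk1 R hI1 hRd (B j) (hBne j) (fun i => (hRB i j).symm)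
        lam (K / L) bad hlam0 (hbudget (U' j) (hU'2 j)) (hbadB j)
      have h2 := herr (B j)
      linarith)
    (fun i j h => by
      have hM' : (((R i ×ˢ B j).filter (fun p => ¬ Rd.Adj p.1 p.2 ∧ ¬ Bl.Adj p.1 p.2)).card : ℝ) ≤
          ε * (Fintype.card V : ℝ) ^ 2 := by
        rw [← htdef]
        refine le_trans ?_ hun
        exact_mod_cast card_le_card (filter_subset_filter _ (subset_univ _))
      have h1 := pair_ineq Rd Bl (U i) (U' j) L hL1 δ hδ0.le k hk1 (R i) (B j) ε hε0.le hM'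
        (hRne i) (hBne j) lam hlam0 h
      refine le_trans ?_ h1
      have h2 : k * (2 * δ + ε) * (lam * Fintype.card V) ^ 2 ≤ η := by
        rw [← htdef, hlamt]
        have h3 : k * (2 * δ + ε) * K ^ 2 ≤ k * (3 * δ) * K ^ 2 := by
          gcongr
          linarith
        rw [hη]
        exact h3.trans hpair
      gcongr)
  -- the total count
  have hcount : t ≤ (((F1.biUnion id).card : ℕ) : ℝ) + (((F2.biUnion id).card : ℕ) : ℝ) +
      (((univ \ F.biUnion id : Finset V).card : ℕ) : ℝ) := by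
    have hsub : (univ : Finset V) ⊆ F1.biUnion id ∪ F2.biUnion id ∪ (univ \ F.biUnion id) := by
      intro x _
      rw [mem_union, mem_union, mem_sdiff]
      by_cases hx : x ∈ F.biUnion id
      · obtain ⟨Q, hQ, hxQ⟩ := mem_biUnion.1 hx
        left
        by_cases hQ' : ∀ x ∈ Q, ∀ y ∈ Q, x ≠ y → Rd.Adj x y
        · exact Or.inl (mem_biUnion.2 ⟨Q, by rw [hF1def]; exact mem_filter.2 ⟨hQ, hQ'⟩, hxQ⟩)
        · exact Or.inr (mem_biUnion.2 ⟨Q, by rw [hF2def]; exact mem_filter.2 ⟨hQ, hQ'⟩, hxQ⟩)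
      · exact Or.inr ⟨mem_univ _, hx⟩
    have h1 := (card_le_card hsub).trans ((card_union_le _ _).trans
      (Nat.add_le_add_right (card_union_le _ _) _))
    rw [card_univ] at h1
    rw [htdef]
    exact_mod_cast h1
  have hsumR : ∑ i, lam * ((R i).card : ℝ) = lam * ∑ i, ((((Fi i).biUnion id).card : ℕ) : ℝ) := by
    rw [mul_sum]
    exact sum_congr rfl (fun i _ => by rw [hRi])
  have hsumB : ∑ i, lam * ((B i).card : ℝ) = lam * ∑ i, ((((Fj i).biUnion id).card : ℕ) : ℝ) := by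
    rw [mul_sum]
    exact sum_congr rfl (fun i _ => by rw [hBj])
  rw [hsumR, hsumB] at hmain
  rw [← htdef] at hF4
  have hfin : K ≤ (lam * ∑ i, ((((Fi i).biUnion id).card : ℕ) : ℝ) +
      lam * ∑ i, ((((Fj i).biUnion id).card : ℕ) : ℝ)) + 2 * (lam * (2 * M * (k + 1 : ℕ))) +
      lam * (1 / (20 * K) * t) := by
    calc K = lam * t := hlamt.symm
      _ ≤ lam * ((((F1.biUnion id).card : ℕ) : ℝ) + (((F2.biUnion id).card : ℕ) : ℝ) +
        (((univ \ F.biUnion id : Finset V).card : ℕ) : ℝ)) := by gcongr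
      _ ≤ lam * ((∑ i, ((((Fi i).biUnion id).card : ℕ) : ℝ) + 2 * M * (k + 1 : ℕ)) +
          (∑ i, ((((Fj i).biUnion id).card : ℕ) : ℝ) + 2 * M * (k + 1 : ℕ)) +
          1 / (20 * K) * t) := by
          gcongr
      _ = _ := by ring
  have e1 : lam * (1 / (20 * K) * t) = 1 / 20 := by
    rw [hlam]
    field_simp
  have e2 : 2 * (lam * (2 * M * (k + 1 : ℕ))) ≤ 606 / 100 := by
    have e3 : 2 * (lam * (2 * M * (k + 1 : ℕ))) = 404 / 100 * ((k + 1) / k) := by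
      rw [hlam, hM]
      push_cast
      field_simp
      ring
    rw [e3]
    have : ((k : ℝ) + 1) / k ≤ 3 / 2 := by
      rw [div_le_div_iff₀ hk0 (by norm_num)]
      linarith
    linarith
  have e4 : 3 * k * η = 1 / 20 := by
    rw [hη]
    field_simp
    norm_num
  rw [e4] at hmain
  rw [e1] at hfin
  linarith

/-- **The core**: in a two-coloured nearly complete graph, the components of both colours cannot
all have light covers. -/
theorem core (k : ℕ) (hk : 2 ≤ k) : ∃ ε : ℝ, 0 < ε ∧ ∀ (V : Type) [Fintype V] [Nonempty V]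
    (Rd Bl : SimpleGraph V),
    (((univ : Finset (V × V)).filter
      (fun p => ¬ Rd.Adj p.1 p.2 ∧ ¬ Bl.Adj p.1 p.2)).card : ℝ) ≤ ε * (Fintype.card V : ℝ) ^ 2 →
    HasCover Rd k (Fintype.card V / ((k : ℝ) + 15 / 2)) →
    HasCover Bl k (Fintype.card V / ((k : ℝ) + 15 / 2)) → False := by
  have hk1 : 1 ≤ k := by omega
  have hk2 : (2 : ℝ) ≤ k := by exact_mod_cast hk
  have hk0 : (0 : ℝ) < k := by linarith
  obtain ⟨K, hK⟩ : ∃ K : ℝ, K = (k : ℝ) + 15 / 2 := ⟨_, rfl⟩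
  have hK0 : 0 < K := by rw [hK]; positivity
  have hK9 : 9 ≤ K := by rw [hK]; linarith
  rw [← hK]
  -- the constants
  obtain ⟨L, hL⟩ := exists_nat_ge (120 * k * K ^ 2)
  have hL0 : (0 : ℝ) < L := lt_of_lt_of_le (by positivity) hL
  have hL1 : 1 ≤ L := by exact_mod_cast hL0
  have hkK : 1 ≤ k * K := by nlinarith
  have hkK2 : 1 ≤ (k : ℝ) ^ 2 * K ^ 2 := by
    rw [← mul_pow]
    exact one_le_pow₀ hkK
  obtain ⟨δ, hδ⟩ : ∃ δ : ℝ, δ = 1 / (1000 * (k ^ 2 * K ^ 2)) := ⟨_, rfl⟩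
  have hδ0 : 0 < δ := by rw [hδ]; positivity
  have hδ1 : δ ≤ 1 := by
    rw [hδ, div_le_one (by positivity)]
    linarith
  obtain ⟨s0, hs0⟩ := exists_nat_ge ((k : ℝ) / (δ / 2) ^ k)
  have hs0' : (k : ℝ) ≤ (δ / 2) ^ k * s0 := by
    rw [div_le_iff₀ (by positivity)] at hs0
    linarith
  obtain ⟨γ, hγ⟩ : ∃ γ : ℝ, γ = δ ^ 2 / (32 * (k + 1 : ℕ) ^ 2) := ⟨_, rfl⟩
  have hγ0 : 0 < γ := by rw [hγ]; positivity
  have hγ1 : γ ≤ 1 := by
    rw [hγ, div_le_one (by positivity)]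
    have h1 : δ ^ 2 ≤ 1 := pow_le_one₀ hδ0.le hδ1
    have h2 : (1 : ℝ) ≤ ((k + 1 : ℕ) : ℝ) ^ 2 := by
      apply one_le_pow₀
      exact_mod_cast (by omega : 1 ≤ k + 1)
    linarith
  obtain ⟨s1, hs1⟩ := kst k γ hγ0 hγ1
  obtain ⟨s2, hs2⟩ := exists_nat_ge (2 * K * (classes k L * s0 : ℕ) * (120 * k))
  obtain ⟨s, hs⟩ : ∃ s : ℕ, s = s1 + s2 + k + 1 := ⟨_, rfl⟩
  have hs1s : s1 ≤ s := by omega
  have hks : k < s := by omega
  have hs2s : (s2 : ℝ) ≤ s := by exact_mod_cast (by omega : s2 ≤ s)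
  have hs00 : (0 : ℝ) < s := by exact_mod_cast (by omega : 0 < s)
  obtain ⟨ε, hε⟩ : ∃ ε : ℝ,
      ε = min (min γ δ) ((1 / (20 * K)) ^ 2 / (16 * (2 ^ (s + s) : ℕ) ^ 2)) := ⟨_, rfl⟩
  have hεγ : ε ≤ γ := by rw [hε]; exact (min_le_left _ _).trans (min_le_left _ _)
  have hεδ : ε ≤ δ := by rw [hε]; exact (min_le_left _ _).trans (min_le_right _ _)
  have hεd : ε ≤ (1 / (20 * K)) ^ 2 / (16 * (2 ^ (s + s) : ℕ) ^ 2) := by
    rw [hε]; exact min_le_right _ _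
  have hε0 : 0 < ε := by
    rw [hε]
    refine lt_min (lt_min hγ0 hδ0) (by positivity)
  have hγε : γ + ε ≤ δ ^ 2 / (16 * (k + 1 : ℕ) ^ 2) := by
    have : δ ^ 2 / (16 * (k + 1 : ℕ) ^ 2) = γ + γ := by
      rw [hγ]; field_simp; ring
    rw [this]
    linarith
  have hγε' : γ + ε ≤ δ ^ 2 / (16 * k ^ 2) := by
    refine hγε.trans ?_
    have : (k : ℝ) ≤ ((k + 1 : ℕ) : ℝ) := by push_cast; linarith
    gcongr
  refine ⟨ε, hε0, ?_⟩
  intro V _ _ Rd Bl hun hcR hcB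
  refine core_step k hk K hK L hL1 δ hδ0 hδ1 s0 hs0' γ hγ0 s hks
    (fun V Γ Q Q' h1 h2 h3 => hs1 V Γ Q Q' s hs1s h1 h2 h3) ε hε0 hεδ hεd hγε hγε'
    ?_ ?_ ?_ ?_ ?_ V Rd Bl hun hcR hcB
  · have : (k : ℝ) * δ * K = 1 / (1000 * (k * K)) := by
      rw [hδ]
      field_simp
    rw [this, div_lt_div_iff₀ (by positivity) (by norm_num)]
    linarith
  · have : 2 * δ * K = 2 / (1000 * (k * (k * K))) := by
      rw [hδ]
      field_simp
    rw [this, div_le_div_iff₀ (by positivity) (by positivity)]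
    have : (k : ℝ) ≤ k * (k * K) := by nlinarith
    linarith
  · have e : k * (3 * δ) * K ^ 2 = 3 / (1000 * k) := by
      rw [hδ]; field_simp
    rw [e, div_le_div_iff₀ (by positivity) (by positivity)]
    linarith
  · rw [← mul_div_assoc, div_le_div_iff₀ hL0 (by positivity)]
    linarith
  · rw [div_le_div_iff₀ hs00 (by positivity)]
    linarith

end Pool.Agent.H35.BW
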