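import Mathlib

set_option autoImplicit false

/-!
Greedy embedding of a graph of bounded degree and small bandwidth into a regular partition.
-/

namespace Pool.Agent.H35.BW

open Finset Classical

/-- the candidates for the image of `y` when the vertices before `t` are embedded -/
noncomputable def Cand {W V : Type} (G : SimpleGraph W) (A : V → Finset W) {n : ℕ}
    (H : SimpleGraph (Fin n)) (b : ℕ) (φ : Fin n → V) (ψ : Fin n → W) (t : ℕ) (y : Fin n) :
    Finset W :=
  (A (φ y)).filter (fun v => (∀ x : Fin n, x.val < t → x.val + b < y.val → v ≠ ψ x) ∧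
    (∀ x : Fin n, x.val < t → H.Adj x y → G.Adj (ψ x) v))

/-- the number of neighbours before `t` -/
noncomputable def dg {n : ℕ} (H : SimpleGraph (Fin n)) (t : ℕ) (y : Fin n) : ℕ :=
  (univ.filter (fun x : Fin n => x.val < t ∧ H.Adj x y)).card

theorem embed {W V : Type} [Fintype W] (G : SimpleGraph W) (A : V → Finset W)
    (hdisj : ∀ a a', a ≠ a' → Disjoint (A a) (A a')) (n b : ℕ) (H : SimpleGraph (Fin n))
    (hbw : ∀ x y, H.Adj x y → y.val ≤ x.val + b) (Δ : ℕ)
    (hΔ : ∀ y, (univ.filter (fun x : Fin n => H.Adj x y)).card ≤ Δ) (φ : Fin n → V)
    (γ ε D m1 : ℝ) (hγ0 : 0 < γ) (hγ1 : γ ≤ 1) (hε : 0 < ε) (hD : 0 < D)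
    (hreg : ∀ x y, H.Adj x y → ∀ X ⊆ A (φ x), ∀ Y ⊆ A (φ y), ε * (A (φ x)).card ≤ X.card →
      ε * (A (φ y)).card ≤ Y.card →
      γ * X.card * Y.card ≤ ∑ v ∈ X, ((Y.filter (fun w => G.Adj v w)).card : ℝ))
    (hcap : ∀ y, ((univ.filter (fun x => φ x = φ y)).card : ℝ) + D ≤ (A (φ y)).card)
    (hm : ∀ y, ((A (φ y)).card : ℝ) ≤ m1) (h1 : ε * m1 ≤ γ ^ Δ * D)
    (h2 : Δ * (ε * m1) + b < γ ^ Δ * D) :
    ∃ ψ : Fin n → W, Function.Injective ψ ∧ ∀ x y, H.Adj x y → G.Adj (ψ x) (ψ y) := by
  rcases Nat.eq_zero_or_pos n with hn0 | hnpos
  · subst hn0
    exact ⟨fun x => x.elim0, fun x => x.elim0, fun x => x.elim0⟩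
  have hdgle : ∀ t y, dg H t y ≤ Δ := by
    intro t y
    refine le_trans (card_le_card ?_) (hΔ y)
    intro x hx
    rw [mem_filter] at hx ⊢
    exact ⟨hx.1, hx.2.2⟩
  have hpow : ∀ t y, γ ^ Δ * D ≤ γ ^ (dg H t y) * D := by
    intro t y
    exact mul_le_mul_of_nonneg_right (pow_le_pow_of_le_one hγ0.le hγ1 (hdgle t y)) hD.le
  have key : ∀ t : ℕ, t ≤ n → ∃ ψ : Fin n → W,
      (∀ x : Fin n, x.val < t → ψ x ∈ A (φ x)) ∧
      (∀ x x' : Fin n, x.val < x'.val → x'.val < t → ψ x ≠ ψ x') ∧
      (∀ x x' : Fin n, x.val < x'.val → x'.val < t → H.Adj x x' → G.Adj (ψ x) (ψ x')) ∧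
      ∀ y : Fin n, t ≤ y.val → γ ^ (dg H t y) * D ≤ (Cand G A H b φ ψ t y).card := by
    intro t
    induction t with
    | zero =>
      intro _
      have hne : (A (φ ⟨0, hnpos⟩)).Nonempty := by
        rw [← card_pos]
        have := hcap ⟨0, hnpos⟩
        have h3 : (0 : ℝ) ≤ ((univ.filter (fun x => φ x = φ ⟨0, hnpos⟩)).card : ℝ) :=
          Nat.cast_nonneg _
        have h4 : (0 : ℝ) < ((A (φ ⟨0, hnpos⟩)).card : ℝ) := by linarith
        exact_mod_cast h4
      obtain ⟨w0, _⟩ := hne
      refine ⟨fun _ => w0, fun x hx => by omega, fun x x' _ hx => by omega,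
        fun x x' _ hx => by omega, ?_⟩
      intro y _
      have e1 : dg H 0 y = 0 := by
        unfold dg
        rw [card_eq_zero, filter_eq_empty_iff]
        intro x _ hx
        omega
      have e2 : Cand G A H b φ (fun _ => w0) 0 y = A (φ y) := by
        unfold Cand
        rw [filter_true_of_mem]
        intro v _
        exact ⟨fun x hx => by omega, fun x hx => by omega⟩
      rw [e1, e2, pow_zero, one_mul]
      have h3 : (0 : ℝ) ≤ ((univ.filter (fun x => φ x = φ y)).card : ℝ) := Nat.cast_nonneg _
      linarith [hcap y]
    | succ t ih =>
      intro htn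
      obtain ⟨ψ, i1, i2, i3, i4⟩ := ih (by omega)
      obtain ⟨x0, hx0⟩ : ∃ x0 : Fin n, x0.val = t := ⟨⟨t, by omega⟩, rfl⟩
      -- bad vertices
      obtain ⟨Bad, hBad⟩ : ∃ Bad : Fin n → Finset W, Bad = fun y => (A (φ x0)).filter
        (fun v => (((Cand G A H b φ ψ t y).filter (fun w => G.Adj v w)).card : ℝ) <
          γ * (Cand G A H b φ ψ t y).card) := ⟨_, rfl⟩
      have hBadcard : ∀ y : Fin n, H.Adj x0 y → t < y.val → ((Bad y).card : ℝ) ≤ ε * m1 := by
        intro y hy hty
        by_contra hno
        rw [not_le] at hno
        have h3 : ε * (A (φ x0)).card ≤ (Bad y).card :=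
          (mul_le_mul_of_nonneg_left (hm x0) hε.le).trans hno.le
        have h4 : ε * (A (φ y)).card ≤ (Cand G A H b φ ψ t y).card := by
          refine (mul_le_mul_of_nonneg_left (hm y) hε.le).trans (h1.trans ?_)
          exact (hpow t y).trans (i4 y hty.le)
        have h5 := hreg x0 y hy (Bad y) (by rw [hBad]; exact filter_subset _ _)
          (Cand G A H b φ ψ t y) (filter_subset _ _) h3 h4
        have hpos : 0 < (Bad y).card := by
          have h6 : (0 : ℝ) < (Bad y).card := by
            refine lt_of_le_of_lt ?_ hno
            exact mul_nonneg hε.le ((Nat.cast_nonneg _).trans (hm x0))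
          exact_mod_cast h6
        have h7 : ∑ v ∈ Bad y, (((Cand G A H b φ ψ t y).filter (fun w => G.Adj v w)).card : ℝ) <
            ∑ v ∈ Bad y, γ * (Cand G A H b φ ψ t y).card := by
          refine sum_lt_sum_of_nonempty (card_pos.1 hpos) ?_
          intro v hv
          rw [hBad, mem_filter] at hv
          exact hv.2
        rw [sum_const, nsmul_eq_mul] at h7
        linarith [mul_comm γ ((Bad y).card : ℝ), mul_assoc γ ((Bad y).card : ℝ)
          ((Cand G A H b φ ψ t y).card : ℝ), mul_left_comm γ ((Bad y).card : ℝ)
          ((Cand G A H b φ ψ t y).card : ℝ)]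
      obtain ⟨Nb, hNb⟩ : ∃ Nb : Finset (Fin n),
        Nb = univ.filter (fun y : Fin n => H.Adj x0 y ∧ t < y.val) := ⟨_, rfl⟩
      have hNbcard : Nb.card ≤ Δ := by
        refine le_trans (card_le_card ?_) (hΔ x0)
        intro y hy
        rw [hNb, mem_filter] at hy
        rw [mem_filter]
        exact ⟨mem_univ _, hy.2.1.symm⟩
      have hBadU : ((Nb.biUnion Bad).card : ℝ) ≤ Δ * (ε * m1) := by
        calc ((Nb.biUnion Bad).card : ℝ) ≤ ((∑ y ∈ Nb, (Bad y).card : ℕ) : ℝ) :=
              Nat.cast_le.2 card_biUnion_le
          _ = ∑ y ∈ Nb, ((Bad y).card : ℝ) := by rw [Nat.cast_sum]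
          _ ≤ ∑ y ∈ Nb, ε * m1 := by
              refine sum_le_sum (fun y hy => ?_)
              rw [hNb, mem_filter] at hy
              exact hBadcard y hy.2.1 hy.2.2
          _ = Nb.card * (ε * m1) := by rw [sum_const, nsmul_eq_mul]
          _ ≤ Δ * (ε * m1) := by
              refine mul_le_mul_of_nonneg_right ?_ ?_
              · exact_mod_cast hNbcard
              · exact mul_nonneg hε.le ((Nat.cast_nonneg _).trans (hm x0))
      obtain ⟨Rc, hRc⟩ : ∃ Rc : Finset W, Rc = (univ.filter
        (fun x : Fin n => x.val < t ∧ t ≤ x.val + b)).image ψ := ⟨_, rfl⟩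
      have hRccard : Rc.card ≤ b := by
        rw [hRc]
        refine card_image_le.trans ?_
        have : (univ.filter (fun x : Fin n => x.val < t ∧ t ≤ x.val + b)).card ≤
            (Ico (t - b) t).card := by
          refine card_le_card_of_injOn (fun x => x.val) ?_ ?_
          · intro x hx
            rw [mem_coe, mem_filter] at hx
            rw [coe_Ico, Set.mem_Ico]
            simp only
            omega
          · intro x _ y _ hxy
            exact Fin.ext hxy
        rw [Nat.card_Ico] at this
        omega
      obtain ⟨v, hv, hvB⟩ : ∃ v ∈ Cand G A H b φ ψ t x0, v ∉ Nb.biUnion Bad ∪ Rc := by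
        by_contra hno
        push Not at hno
        have h3 : Cand G A H b φ ψ t x0 ⊆ Nb.biUnion Bad ∪ Rc := fun v hv => hno v hv
        have h4 := (card_le_card h3).trans (card_union_le _ _)
        have h5 : ((Cand G A H b φ ψ t x0).card : ℝ) ≤
            ((Nb.biUnion Bad).card : ℝ) + (Rc.card : ℝ) := by exact_mod_cast h4
        have h6 : (Rc.card : ℝ) ≤ b := by exact_mod_cast hRccard
        have h7 := (hpow t x0).trans (i4 x0 (by omega))
        linarith
      rw [mem_union, not_or] at hvB
      unfold Cand at hv
      rw [mem_filter] at hv
      obtain ⟨hvA, hv1, hv2⟩ := hv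
      have hne0 : ∀ x : Fin n, x.val < t → Function.update ψ x0 v x = ψ x := by
        intro x hx
        rw [Function.update_of_ne]
        intro h
        rw [h] at hx
        omega
      have heq0 : ∀ x : Fin n, x.val = t → x = x0 := fun x hx => Fin.ext (by omega)
      refine ⟨Function.update ψ x0 v, ?_, ?_, ?_, ?_⟩
      · intro x hx
        rcases Nat.lt_succ_iff_lt_or_eq.1 hx with h3 | h3
        · rw [hne0 x h3]
          exact i1 x h3
        · rw [heq0 x h3, Function.update_self]
          exact hvA
      · intro x x' hxx hx'
        rcases Nat.lt_succ_iff_lt_or_eq.1 hx' with h3 | h3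
        · rw [hne0 x (by omega), hne0 x' h3]
          exact i2 x x' hxx h3
        · rw [hne0 x (by omega), heq0 x' h3, Function.update_self]
          intro h4
          by_cases h5 : x.val + b < t
          · exact hv1 x (by omega) (by omega) h4.symm
          · apply hvB.2
            rw [hRc, mem_image]
            refine ⟨x, ?_, h4⟩
            rw [mem_filter]
            exact ⟨mem_univ _, by omega, by omega⟩
      · intro x x' hxx hx' hadj
        rcases Nat.lt_succ_iff_lt_or_eq.1 hx' with h3 | h3
        · rw [hne0 x (by omega), hne0 x' h3]
          exact i3 x x' hxx h3 hadj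
        · rw [hne0 x (by omega), heq0 x' h3, Function.update_self]
          rw [heq0 x' h3] at hadj
          exact hv2 x (by omega) hadj
      · intro y hy
        by_cases hadj : H.Adj x0 y
        · -- neighbour
          have hb := hbw x0 y hadj
          have e1 : dg H (t + 1) y = dg H t y + 1 := by
            unfold dg
            have : univ.filter (fun x : Fin n => x.val < t + 1 ∧ H.Adj x y) =
                insert x0 (univ.filter (fun x : Fin n => x.val < t ∧ H.Adj x y)) := by
              ext x
              simp only [mem_filter, mem_univ, true_and, mem_insert]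
              constructor
              · rintro ⟨h3, h4⟩
                rcases Nat.lt_succ_iff_lt_or_eq.1 h3 with h5 | h5
                · exact Or.inr ⟨h5, h4⟩
                · exact Or.inl (heq0 x h5)
              · rintro (h3 | ⟨h3, h4⟩)
                · rw [h3]
                  exact ⟨by omega, hadj⟩
                · exact ⟨by omega, h4⟩
            rw [this, card_insert_of_notMem]
            rw [mem_filter]
            intro h
            omega
          have e2 : (Cand G A H b φ ψ t y).filter (fun w => G.Adj v w) ⊆
              Cand G A H b φ (Function.update ψ x0 v) (t + 1) y := by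
            intro w hw
            rw [mem_filter] at hw
            obtain ⟨hw1, hw2⟩ := hw
            unfold Cand at hw1 ⊢
            rw [mem_filter] at hw1 ⊢
            refine ⟨hw1.1, ?_, ?_⟩
            · intro x hx hxb
              have : x.val < t := by omega
              rw [hne0 x this]
              exact hw1.2.1 x this hxb
            · intro x hx hxy
              rcases Nat.lt_succ_iff_lt_or_eq.1 hx with h5 | h5
              · rw [hne0 x h5]
                exact hw1.2.2 x h5 hxy
              · rw [heq0 x h5, Function.update_self]
                exact hw2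
          have h3 : γ * (Cand G A H b φ ψ t y).card ≤
              (((Cand G A H b φ ψ t y).filter (fun w => G.Adj v w)).card : ℝ) := by
            by_contra hno
            rw [not_le] at hno
            apply hvB.1
            rw [mem_biUnion]
            refine ⟨y, ?_, ?_⟩
            · rw [hNb, mem_filter]
              exact ⟨mem_univ _, hadj, by omega⟩
            · rw [hBad, mem_filter]
              exact ⟨hvA, hno⟩
          have h4 := i4 y (by omega)
          rw [e1, pow_succ]
          calc γ ^ dg H t y * γ * D = γ * (γ ^ dg H t y * D) := by ring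
            _ ≤ γ * (Cand G A H b φ ψ t y).card := mul_le_mul_of_nonneg_left h4 hγ0.le
            _ ≤ _ := h3
            _ ≤ _ := by exact_mod_cast card_le_card e2
        · by_cases hfar : t + b < y.val
          · have e1 : dg H (t + 1) y = 0 := by
              unfold dg
              rw [card_eq_zero, filter_eq_empty_iff]
              rintro x _ ⟨hx, hxy⟩
              have := hbw x y hxy
              omega
            rw [e1, pow_zero, one_mul]
            -- removed vertices
            have e2 : A (φ y) ⊆ Cand G A H b φ (Function.update ψ x0 v) (t + 1) y ∪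
                (univ.filter (fun x => φ x = φ y)).image (Function.update ψ x0 v) := by
              intro w hw
              rw [mem_union]
              by_cases hex : ∃ x : Fin n, x.val < t + 1 ∧ w = Function.update ψ x0 v x
              · obtain ⟨x, hx, hwx⟩ := hex
                right
                rw [mem_image]
                refine ⟨x, ?_, hwx.symm⟩
                rw [mem_filter]
                refine ⟨mem_univ _, ?_⟩
                by_contra hne
                have hmem : Function.update ψ x0 v x ∈ A (φ x) := by
                  rcases Nat.lt_succ_iff_lt_or_eq.1 hx with h5 | h5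
                  · rw [hne0 x h5]
                    exact i1 x h5
                  · rw [heq0 x h5, Function.update_self]
                    exact hvA
                rw [← hwx] at hmem
                exact (disjoint_left.1 (hdisj _ _ hne)) hmem hw
              · push Not at hex
                left
                unfold Cand
                rw [mem_filter]
                refine ⟨hw, fun x hx _ => hex x hx, ?_⟩
                intro x hx hxy
                have := hbw x y hxy
                omega
            have h3 := (card_le_card e2).trans (card_union_le _ _)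
            have h4 : ((univ.filter (fun x => φ x = φ y)).image
                (Function.update ψ x0 v)).card ≤ (univ.filter (fun x => φ x = φ y)).card :=
              card_image_le
            have h5 : ((A (φ y)).card : ℝ) ≤
                (Cand G A H b φ (Function.update ψ x0 v) (t + 1) y).card +
                ((univ.filter (fun x => φ x = φ y)).card : ℝ) := by
              exact_mod_cast h3.trans (Nat.add_le_add_left h4 _)
            linarith [hcap y]
          · have e1 : dg H (t + 1) y = dg H t y := by
              unfold dg
              congr 1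
              ext x
              simp only [mem_filter, mem_univ, true_and]
              constructor
              · rintro ⟨h3, h4⟩
                rcases Nat.lt_succ_iff_lt_or_eq.1 h3 with h5 | h5
                · exact ⟨h5, h4⟩
                · rw [heq0 x h5] at h4
                  exact absurd h4 hadj
              · rintro ⟨h3, h4⟩
                exact ⟨by omega, h4⟩
            have e2 : Cand G A H b φ ψ t y ⊆
                Cand G A H b φ (Function.update ψ x0 v) (t + 1) y := by
              intro w hw
              unfold Cand at hw ⊢
              rw [mem_filter] at hw ⊢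
              refine ⟨hw.1, ?_, ?_⟩
              · intro x hx hxb
                have : x.val < t := by omega
                rw [hne0 x this]
                exact hw.2.1 x this hxb
              · intro x hx hxy
                rcases Nat.lt_succ_iff_lt_or_eq.1 hx with h5 | h5
                · rw [hne0 x h5]
                  exact hw.2.2 x h5 hxy
                · rw [heq0 x h5] at hxy
                  exact absurd hxy hadj
            rw [e1]
            refine (i4 y (by omega)).trans ?_
            exact_mod_cast card_le_card e2
  obtain ⟨ψ, _, h4, h5, _⟩ := key n le_rfl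
  refine ⟨ψ, ?_, ?_⟩
  · intro x y hxy
    by_contra hne
    rcases Nat.lt_trichotomy x.val y.val with h | h | h
    · exact h4 x y h y.isLt hxy
    · exact hne (Fin.ext h)
    · exact h4 y x h x.isLt hxy.symm
  · intro x y hxy
    rcases Nat.lt_trichotomy x.val y.val with h | h | h
    · exact h5 x y h y.isLt hxy
    · exact absurd (Fin.ext h) hxy.ne
    · exact (h5 y x h x.isLt hxy.symm).symm

end Pool.Agent.H35.BW
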