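import Mathlib

set_option autoImplicit false

/-!
The reduced graphs of a two-colouring.
-/

namespace Pool.Agent.H35.BW

open Finset Classical

/-- regularity in counting form -/
def RegG {W : Type} (G : SimpleGraph W) (γ ε : ℝ) (A B : Finset W) : Prop :=
  ∀ X ⊆ A, ∀ Y ⊆ B, ε * A.card ≤ X.card → ε * B.card ≤ Y.card →
    γ * X.card * Y.card ≤ ∑ v ∈ X, ((Y.filter (fun w => G.Adj v w)).card : ℝ)

theorem card_interedges_eq {W : Type} (G : SimpleGraph W) (X Y : Finset W) :
    ((G.interedges X Y).card : ℝ) = ∑ v ∈ X, ((Y.filter (fun w => G.Adj v w)).card : ℝ) := by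
  rw [SimpleGraph.interedges_def, card_filter, sum_product]
  push_cast
  refine sum_congr rfl (fun v _ => ?_)
  rw [card_filter]
  push_cast
  rfl

theorem sum_eq_density {W : Type} (G : SimpleGraph W) (X Y : Finset W) :
    ∑ v ∈ X, ((Y.filter (fun w => G.Adj v w)).card : ℝ) =
      (G.edgeDensity X Y : ℝ) * X.card * Y.card := by
  rw [← card_interedges_eq, SimpleGraph.edgeDensity_def]
  push_cast
  rcases Nat.eq_zero_or_pos X.card with hX | hX
  · have : X = ∅ := card_eq_zero.1 hX
    subst this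
    simp
  rcases Nat.eq_zero_or_pos Y.card with hY | hY
  · have : Y = ∅ := card_eq_zero.1 hY
    subst this
    simp [SimpleGraph.interedges_def]
  have h1 : (0 : ℝ) < X.card := by exact_mod_cast hX
  have h2 : (0 : ℝ) < Y.card := by exact_mod_cast hY
  field_simp

theorem reg_of_uniform {W : Type} (G : SimpleGraph W) (ε : ℝ) (A B : Finset W)
    (h : G.IsUniform ε A B) (hd : (1 / 2 : ℝ) ≤ G.edgeDensity A B) :
    RegG G (1 / 2 - ε) ε A B := by
  intro X hX Y hY h1 h2
  have h3 := h hX hY (by rwa [mul_comm]) (by rwa [mul_comm])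
  rw [abs_lt] at h3
  rw [sum_eq_density, mul_assoc, mul_assoc]
  refine mul_le_mul_of_nonneg_right ?_ (by positivity)
  linarith [h3.1]

theorem reg_compl_of_uniform {W : Type} (G : SimpleGraph W) (ε : ℝ) (A B : Finset W)
    (hAB : Disjoint A B)
    (h : G.IsUniform ε A B) (hd : (G.edgeDensity A B : ℝ) ≤ 1 / 2) :
    RegG Gᶜ (1 / 2 - ε) ε A B := by
  intro X hX Y hY h1 h2
  have h3 := h hX hY (by rwa [mul_comm]) (by rwa [mul_comm])
  rw [abs_lt] at h3
  have h4 : ∑ v ∈ X, ((Y.filter (fun w => Gᶜ.Adj v w)).card : ℝ) =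
      ∑ v ∈ X, ((Y.card : ℝ) - ((Y.filter (fun w => G.Adj v w)).card : ℝ)) := by
    refine sum_congr rfl (fun v hv => ?_)
    have h5 : Y.filter (fun w => Gᶜ.Adj v w) = Y.filter (fun w => ¬ G.Adj v w) := by
      refine filter_congr (fun w hw => ?_)
      rw [SimpleGraph.compl_adj]
      constructor
      · exact fun h => h.2
      · intro h
        refine ⟨?_, h⟩
        intro hvw
        subst hvw
        exact (disjoint_left.1 hAB) (hX hv) (hY hw)
    rw [h5]
    have h6 := card_filter_add_card_filter_not (s := Y) (fun w => G.Adj v w)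
    have h7 : ((Y.filter (fun w => G.Adj v w)).card : ℝ) +
      ((Y.filter (fun w => ¬ G.Adj v w)).card : ℝ) = Y.card := by exact_mod_cast h6
    linarith
  refine le_trans ?_ (le_of_eq (Eq.trans h4.symm
    (sum_congr rfl (fun v _ => by congr!))))
  rw [sum_sub_distrib, sum_eq_density, sum_const, nsmul_eq_mul]
  have h8 : (G.edgeDensity X Y : ℝ) * (X.card * Y.card) ≤ (1 / 2 + ε) * (X.card * Y.card) := by
    refine mul_le_mul_of_nonneg_right ?_ (by positivity)
    linarith [h3.2]
  nlinarith [h8]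

theorem reduced (ε' : ℝ) (hε' : 0 < ε') (ε : ℝ) (hε : 0 < ε) (hεε' : ε ≤ ε' / 2) :
    ∃ tmax : ℕ, 0 < tmax ∧ ∃ N0 : ℕ, ∀ (W : Type) [Fintype W], N0 ≤ Fintype.card W →
      ∀ G : SimpleGraph W, ∃ (V : Type) (_ : Fintype V) (_ : Nonempty V) (A : V → Finset W),
        Fintype.card V ≤ tmax ∧ (∀ a a', a ≠ a' → Disjoint (A a) (A a')) ∧
        (∀ a, Fintype.card W / Fintype.card V ≤ (A a).card ∧
          (A a).card ≤ Fintype.card W / Fintype.card V + 1) ∧
        ∃ Rd Bl : SimpleGraph V, (∀ a b, Rd.Adj a b → RegG G (1 / 2 - ε) ε (A a) (A b)) ∧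
          (∀ a b, Bl.Adj a b → RegG Gᶜ (1 / 2 - ε) ε (A a) (A b)) ∧
          (((univ : Finset (V × V)).filter
            (fun p => ¬ Rd.Adj p.1 p.2 ∧ ¬ Bl.Adj p.1 p.2)).card : ℝ) ≤
              ε' * (Fintype.card V : ℝ) ^ 2 := by
  obtain ⟨l0, hl0⟩ := exists_nat_ge (2 / ε')
  obtain ⟨l, hl⟩ : ∃ l : ℕ, l = l0 + 1 := ⟨_, rfl⟩
  refine ⟨SzemerediRegularity.bound ε l, SzemerediRegularity.bound_pos _ _, l, ?_⟩
  intro W _ hW G
  obtain ⟨P, hP1, hP2, hP3, hP4⟩ := szemeredi_regularity G hε hW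
  have hcard : Fintype.card {A // A ∈ P.parts} = P.parts.card := Fintype.card_coe _
  have hpos : 0 < P.parts.card := by omega
  have hne : Nonempty {A // A ∈ P.parts} := by
    obtain ⟨A, hA⟩ := card_pos.1 hpos
    exact ⟨⟨A, hA⟩⟩
  have hdisj : ∀ a a' : {A // A ∈ P.parts}, a ≠ a' → Disjoint a.1 a'.1 := by
    intro a a' haa
    exact P.disjoint a.2 a'.2 (fun h => haa (Subtype.ext h))
  refine ⟨{A // A ∈ P.parts}, inferInstance, hne, fun a => a.1, ?_, hdisj, ?_, ?_⟩
  · rw [hcard]; exact hP3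
  · intro a
    rw [hcard]
    have h1 := hP1.average_le_card_part a.2
    have h2 := hP1.card_part_le_average_add_one a.2
    rw [card_univ] at h1 h2
    exact ⟨h1, h2⟩
  · let Rd : SimpleGraph {A // A ∈ P.parts} :=
      { Adj := fun a b => a ≠ b ∧ G.IsUniform ε a.1 b.1 ∧ (1 / 2 : ℝ) ≤ G.edgeDensity a.1 b.1
        symm := by
          constructor
          intro a b h
          refine ⟨h.1.symm, h.2.1.symm, ?_⟩
          rw [SimpleGraph.edgeDensity_comm]
          exact h.2.2
        loopless := ⟨fun a h => h.1 rfl⟩ }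
    let Bl : SimpleGraph {A // A ∈ P.parts} :=
      { Adj := fun a b => a ≠ b ∧ G.IsUniform ε a.1 b.1 ∧ (G.edgeDensity a.1 b.1 : ℝ) < 1 / 2
        symm := by
          constructor
          intro a b h
          refine ⟨h.1.symm, h.2.1.symm, ?_⟩
          rw [SimpleGraph.edgeDensity_comm]
          exact h.2.2
        loopless := ⟨fun a h => h.1 rfl⟩ }
    refine ⟨Rd, Bl, ?_, ?_, ?_⟩
    · intro a b h
      exact reg_of_uniform G ε _ _ h.2.1 h.2.2
    · intro a b h
      exact reg_compl_of_uniform G ε _ _ (hdisj a b h.1) h.2.1 h.2.2.le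
    · have h1 : ((univ : Finset ({A // A ∈ P.parts} × {A // A ∈ P.parts})).filter
            (fun p => ¬ Rd.Adj p.1 p.2 ∧ ¬ Bl.Adj p.1 p.2)).card ≤
          (P.parts.diag ∪ P.nonUniforms G ε).card := by
        refine card_le_card_of_injOn (fun p => (p.1.1, p.2.1)) ?_ ?_
        · intro p hp
          rw [mem_coe, mem_filter] at hp
          rw [mem_coe, mem_union]
          by_cases h2 : p.1 = p.2
          · left
            rw [mem_diag]
            exact ⟨p.1.2, by simp only; rw [h2]⟩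
          · right
            rw [Finpartition.mk_mem_nonUniforms]
            refine ⟨p.1.2, p.2.2, fun h => h2 (Subtype.ext h), ?_⟩
            intro h3
            rcases le_or_gt (1 / 2 : ℝ) (G.edgeDensity p.1.1 p.2.1 : ℝ) with h4 | h4
            · exact hp.2.1 ⟨h2, h3, h4⟩
            · exact hp.2.2 ⟨h2, h3, h4⟩
        · intro p _ q _ hpq
          simp only [Prod.mk.injEq] at hpq
          exact Prod.ext (Subtype.ext hpq.1) (Subtype.ext hpq.2)
      have h2 := h1.trans (card_union_le _ _)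
      rw [diag_card] at h2
      have h3 : (((univ : Finset ({A // A ∈ P.parts} × {A // A ∈ P.parts})).filter
            (fun p => ¬ Rd.Adj p.1 p.2 ∧ ¬ Bl.Adj p.1 p.2)).card : ℝ) ≤
          P.parts.card + ((P.nonUniforms G ε).card : ℝ) := by exact_mod_cast h2
      unfold Finpartition.IsUniform at hP4
      rw [hcard]
      have ht : (2 / ε' : ℝ) ≤ P.parts.card := by
        refine hl0.trans ?_
        exact_mod_cast (by omega : l0 ≤ P.parts.card)
      have ht0 : (0 : ℝ) < P.parts.card := by exact_mod_cast hpos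
      rw [div_le_iff₀ hε'] at ht
      have h5 : ((P.parts.card * (P.parts.card - 1) : ℕ) : ℝ) ≤ (P.parts.card : ℝ) ^ 2 := by
        rw [pow_two, Nat.cast_mul]
        refine mul_le_mul_of_nonneg_left ?_ ht0.le
        exact_mod_cast Nat.sub_le _ _
      have h6 : ((P.parts.card * (P.parts.card - 1) : ℕ) : ℝ) * ε ≤
          (P.parts.card : ℝ) ^ 2 * (ε' / 2) :=
        mul_le_mul h5 hεε' hε.le (by positivity)
      have h7 : 2 * (P.parts.card : ℝ) ≤ (P.parts.card : ℝ) ^ 2 * ε' := by
        have := mul_le_mul_of_nonneg_left ht ht0.le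
        calc 2 * (P.parts.card : ℝ) = (P.parts.card : ℝ) * 2 := by ring
          _ ≤ (P.parts.card : ℝ) * ((P.parts.card : ℝ) * ε') := this
          _ = _ := by ring
      have hfin : (((univ : Finset ({A // A ∈ P.parts} × {A // A ∈ P.parts})).filter
            (fun p => ¬ Rd.Adj p.1 p.2 ∧ ¬ Bl.Adj p.1 p.2)).card : ℝ) ≤
          ε' * (P.parts.card : ℝ) ^ 2 := by linarith [h3, hP4, h6, h7]
      refine le_trans (le_of_eq ?_) hfin
      congr!

end Pool.Agent.H35.BW
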