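import Mathlib
import Pool.Agent.H35.BW.Core
import Pool.Agent.H35.BW.Assign
import Pool.Agent.H35.BW.Embed
import Pool.Agent.H35.BW.Reg

set_option autoImplicit false

/-!
The Ramsey statement for a fixed number of colours.
-/

namespace Pool.Agent.H35.BW

open Finset Classical

theorem finish (k : ℕ) (hk : 2 ≤ k) (Δ n b tmax T : ℕ) (W V : Type) [Fintype W] [Fintype V]
    [Nonempty V] (G : SimpleGraph W) (Γ : SimpleGraph V) (A : V → Finset W)
    (hdisj : ∀ a a', a ≠ a' → Disjoint (A a) (A a'))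
    (hA : ∀ a, Fintype.card W / Fintype.card V ≤ (A a).card ∧
          (A a).card ≤ Fintype.card W / Fintype.card V + 1) (ε : ℝ) (hε : 0 < ε)
    (hreg : ∀ a b, Γ.Adj a b → RegG G (1 / 2 - ε) ε (A a) (A b))
    (hnc : ¬ HasCover Γ k (Fintype.card V / ((k : ℝ) + 15 / 2)))
    (hW : Fintype.card W = (k + 8) * n) (ht : Fintype.card V ≤ tmax) (hT : T = tmax ^ k)
    (hn : 10 * tmax ≤ n) (hε4 : ε ≤ 1 / 4)
    (hεd : ε ≤ (1 / 4) ^ Δ / (20 * ((Δ : ℝ) + 1) * (k + 9)))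
    (hb1 : (b : ℝ) * (40 * tmax) ≤ (1 / 4) ^ Δ * n)
    (hb2 : ((T + 20 * tmax * T) * (b + 1) : ℕ) * (200 * (tmax : ℝ) ^ 2) ≤ n)
    (H : SimpleGraph (Fin n)) (hbw : ∀ x y, H.Adj x y → y.val ≤ x.val + b)
    (hΔ : ∀ y, (univ.filter (fun x : Fin n => H.Adj x y)).card ≤ Δ) (hcol : H.Colorable k) :
    ∃ ψ : Fin n → W, Function.Injective ψ ∧ ∀ x y, H.Adj x y → G.Adj (ψ x) (ψ y) := by
  have hk0 : (0 : ℝ) < k := by exact_mod_cast (by omega : 0 < k)
  have htpos : 0 < Fintype.card V := Fintype.card_pos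
  obtain ⟨t, htt⟩ : ∃ t : ℝ, t = (Fintype.card V : ℝ) := ⟨_, rfl⟩
  have ht0 : 0 < t := by rw [htt]; exact_mod_cast htpos
  have ht1 : 1 ≤ t := by rw [htt]; exact_mod_cast htpos
  have httm : t ≤ tmax := by rw [htt]; exact_mod_cast ht
  have htm0 : (0 : ℝ) < tmax := lt_of_lt_of_le ht0 httm
  have htm1 : 1 ≤ tmax := by omega
  have hTpos : 1 ≤ T := by rw [hT]; exact Nat.one_le_pow _ _ htm1
  have hnpos : 0 < n := by omega
  have hn0 : (0 : ℝ) < n := by exact_mod_cast hnpos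
  obtain ⟨s, hs⟩ : ∃ s : ℝ, s = n / t := ⟨_, rfl⟩
  have hst : s * t = n := by rw [hs]; field_simp
  have hs10 : 10 ≤ s := by
    rw [hs, le_div_iff₀ ht0]
    have : (10 : ℝ) * tmax ≤ n := by exact_mod_cast hn
    linarith
  have hs0 : 0 < s := by linarith
  have hstm : (n : ℝ) ≤ s * tmax := by
    rw [← hst]
    exact mul_le_mul_of_nonneg_left httm hs0.le
  -- sizes of clusters
  have hq1 : ∀ a, ((k : ℝ) + 8) * s - 1 ≤ (A a).card := by
    intro a
    have h1 : (Fintype.card W / Fintype.card V : ℕ) ≤ (A a).card := (hA a).1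
    have h2 := Nat.div_add_mod (Fintype.card W) (Fintype.card V)
    have h3 := Nat.mod_lt (Fintype.card W) htpos
    have h4 : ((k : ℝ) + 8) * n ≤ t * ((Fintype.card W / Fintype.card V : ℕ) : ℝ) + t := by
      have h5 : (k + 8) * n ≤ Fintype.card V * (Fintype.card W / Fintype.card V) +
        Fintype.card V := by
        rw [← hW]; omega
      rw [htt]
      exact_mod_cast h5
    have h6 : ((Fintype.card W / Fintype.card V : ℕ) : ℝ) ≤ (A a).card := by exact_mod_cast h1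
    have h7 : ((k : ℝ) + 8) * s * t ≤ (((A a).card : ℝ) + 1) * t := by
      calc ((k : ℝ) + 8) * s * t = ((k : ℝ) + 8) * n := by rw [← hst]; ring
        _ ≤ t * ((Fintype.card W / Fintype.card V : ℕ) : ℝ) + t := h4
        _ ≤ t * ((A a).card : ℝ) + t := by
            linarith [mul_le_mul_of_nonneg_left h6 ht0.le]
        _ = _ := by ring
    linarith [le_of_mul_le_mul_right h7 ht0]
  have hq2 : ∀ a, ((A a).card : ℝ) ≤ ((k : ℝ) + 9) * s := by
    intro a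
    have h1 : (A a).card ≤ Fintype.card W / Fintype.card V + 1 := (hA a).2
    have h4 : t * ((Fintype.card W / Fintype.card V : ℕ) : ℝ) ≤ ((k : ℝ) + 8) * n := by
      have h5 : Fintype.card V * (Fintype.card W / Fintype.card V) ≤ (k + 8) * n := by
        rw [← hW]; exact Nat.mul_div_le _ _
      rw [htt]
      exact_mod_cast h5
    have h6 : ((A a).card : ℝ) ≤ ((Fintype.card W / Fintype.card V : ℕ) : ℝ) + 1 := by
      exact_mod_cast h1
    have h7 : ((A a).card : ℝ) * t ≤ ((k : ℝ) + 9) * s * t := by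
      calc ((A a).card : ℝ) * t ≤ (((Fintype.card W / Fintype.card V : ℕ) : ℝ) + 1) * t :=
            mul_le_mul_of_nonneg_right h6 ht0.le
        _ = t * ((Fintype.card W / Fintype.card V : ℕ) : ℝ) + t := by ring
        _ ≤ ((k : ℝ) + 8) * n + s * t := by
            refine add_le_add h4 ?_
            nlinarith
        _ = _ := by rw [← hst]; ring
    exact le_of_mul_le_mul_right h7 ht0
  -- the tiling
  obtain ⟨f0, hf0, ⟨z, hz⟩, p, hp0, hp1, hp2⟩ := tile_of_not_cover Γ k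
    (Fintype.card V / ((k : ℝ) + 15 / 2)) (by rw [← htt]; positivity) hnc
  obtain ⟨C⟩ := hcol
  -- constants of the assignment
  obtain ⟨K, hK⟩ : ∃ K : ℕ, K = 20 * tmax * T := ⟨_, rfl⟩
  have hK1 : 1 ≤ K := by
    rw [hK]
    have : 1 ≤ tmax * T := Nat.mul_pos htm1 hTpos
    nlinarith
  obtain ⟨L, hL⟩ : ∃ L : ℕ, L = (T + K) * (b + 1) := ⟨_, rfl⟩
  have hLpos : 0 < L := by rw [hL]; exact Nat.mul_pos (by omega) (by omega)
  rw [← hK, ← hL] at hb2
  have hL0 : (0 : ℝ) < L := by exact_mod_cast hLpos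
  have hLn : (L : ℝ) ≤ n := by
    refine le_trans ?_ hb2
    have h1 : (1 : ℝ) ≤ tmax := by exact_mod_cast htm1
    have : (1 : ℝ) ≤ 200 * (tmax : ℝ) ^ 2 := by nlinarith
    nlinarith
  obtain ⟨M, hM⟩ : ∃ M : ℕ, M = n / L + 1 := ⟨_, rfl⟩
  have hML1 : n ≤ M * ((T + K) * (b + 1)) := by
    rw [← hL, hM]
    have := Nat.lt_div_mul_add hLpos (a := n)
    have e : (n / L + 1) * L = n / L * L + L := by ring
    rw [e]
    exact this.le
  have hML2 : (M : ℝ) * L ≤ 2 * n := by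
    have : M * L ≤ n + L := by
      rw [hM]
      have := Nat.div_mul_le_self n L
      have e : (n / L + 1) * L = n / L * L + L := by ring
      rw [e]
      omega
    have h2 : (M : ℝ) * L ≤ n + L := by exact_mod_cast this
    linarith
  have hR : (M : ℝ) * (((T + K) * (b + 1) : ℕ) : ℝ) ^ 2 ≤ (s / 10) ^ 2 := by
    rw [← hL]
    have h1 : (L : ℝ) * (200 * t ^ 2) ≤ n := by
      refine le_trans ?_ hb2
      gcongr
    have h2 : (M : ℝ) * (L : ℝ) ^ 2 * (100 * t ^ 2) ≤ (s / 10) ^ 2 * (100 * t ^ 2) := by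
      calc (M : ℝ) * (L : ℝ) ^ 2 * (100 * t ^ 2) =
            ((M : ℝ) * L) * ((L : ℝ) * (200 * t ^ 2)) / 2 := by ring
        _ ≤ (2 * (n : ℝ)) * n / 2 := by gcongr
        _ = (s * t) ^ 2 := by rw [hst]; ring
        _ = _ := by ring
    exact le_of_mul_le_mul_right h2 (by positivity)
  have hMT : ((M * T * (b + 1) : ℕ) : ℝ) ≤ s / 10 := by
    have h1 : (20 * tmax) * (M * T * (b + 1)) ≤ M * L := by
      rw [hL, hK]
      have e1 : M * ((T + 20 * tmax * T) * (b + 1)) = (20 * tmax) * (M * T * (b + 1)) +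
        M * T * (b + 1) := by ring
      rw [e1]
      exact Nat.le_add_right _ _
    have h2 : (20 * (tmax : ℝ)) * ((M * T * (b + 1) : ℕ) : ℝ) ≤ M * L := by exact_mod_cast h1
    have h3 : (20 * (tmax : ℝ)) * ((M * T * (b + 1) : ℕ) : ℝ) ≤ 20 * (tmax : ℝ) * (s / 10) := by
      refine (h2.trans hML2).trans ?_
      linarith
    exact le_of_mul_le_mul_left h3 (by positivity)
  obtain ⟨φ, hφ1, hφ2⟩ := assign Γ k (by omega) f0 z hz p hp0 hp1
    (k / (Fintype.card V / ((k : ℝ) + 15 / 2))) (by positivity) hp2 T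
    (by rw [hT]; exact Nat.pow_le_pow_left ht k) K hK1 (b + 1) (by omega) n M hML1 (s / 10)
    (by positivity) hR (fun x => C x)
  have hload : (n : ℝ) * (k / (Fintype.card V / ((k : ℝ) + 15 / 2))) / k =
      ((k : ℝ) + 15 / 2) * s := by
    rw [← htt, ← hst]
    field_simp
  rw [hload] at hφ2
  have hγ0 : (1 / 4 : ℝ) ≤ 1 / 2 - ε := by linarith
  have hpow : (1 / 4 : ℝ) ^ Δ ≤ (1 / 2 - ε) ^ Δ := pow_le_pow_left₀ (by norm_num) hγ0 Δ
  have hp4 : (0 : ℝ) < (1 / 4) ^ Δ := by positivity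
  have hεm : ε * (((k : ℝ) + 9) * s) * (20 * ((Δ : ℝ) + 1)) ≤ (1 / 4) ^ Δ * s := by
    rw [le_div_iff₀ (by positivity)] at hεd
    calc ε * (((k : ℝ) + 9) * s) * (20 * ((Δ : ℝ) + 1)) =
        (ε * (20 * ((Δ : ℝ) + 1) * (k + 9))) * s := by ring
      _ ≤ (1 / 4) ^ Δ * s := mul_le_mul_of_nonneg_right hεd hs0.le
  refine embed G A hdisj n b H hbw Δ hΔ φ (1 / 2 - ε) ε (s / 10) (((k : ℝ) + 9) * s)
    (by linarith) (by linarith) hε (by positivity) ?_ ?_ (fun y => hq2 _) ?_ ?_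
  · intro x y hxy
    have hb3 := hbw x y hxy
    have hb4 := hbw y x hxy.symm
    exact hreg _ _ (hφ1 x y (by omega) (by omega) (C.valid hxy))
  · intro y
    have h1 := hφ2 (φ y)
    have h2 := hq1 (φ y)
    have e1 : ((k : ℝ) + 8) * s = ((k : ℝ) + 15 / 2) * s + s / 2 := by ring
    rw [e1] at h2
    linarith
  · have h1 : ε * (((k : ℝ) + 9) * s) * 20 ≤ (1 / 4) ^ Δ * s := by
      refine le_trans ?_ hεm
      have h0 : (0 : ℝ) ≤ ε * (((k : ℝ) + 9) * s) := by positivity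
      refine mul_le_mul_of_nonneg_left ?_ h0
      linarith [(Nat.cast_nonneg Δ : (0 : ℝ) ≤ Δ)]
    have h2 : (1 / 4 : ℝ) ^ Δ * (s / 10) ≤ (1 / 2 - ε) ^ Δ * (s / 10) :=
      mul_le_mul_of_nonneg_right hpow (by positivity)
    have h3 : 0 < (1 / 4 : ℝ) ^ Δ * s := by positivity
    linarith
  · have h1 : (Δ : ℝ) * (ε * (((k : ℝ) + 9) * s)) * 20 ≤ (1 / 4) ^ Δ * s := by
      refine le_trans ?_ hεm
      have h0 : (0 : ℝ) ≤ ε * (((k : ℝ) + 9) * s) := by positivity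
      calc (Δ : ℝ) * (ε * (((k : ℝ) + 9) * s)) * 20 =
            ε * (((k : ℝ) + 9) * s) * (20 * (Δ : ℝ)) := by ring
        _ ≤ _ := by
            refine mul_le_mul_of_nonneg_left ?_ h0
            linarith
    have h2 : (1 / 4 : ℝ) ^ Δ * (s / 10) ≤ (1 / 2 - ε) ^ Δ * (s / 10) :=
      mul_le_mul_of_nonneg_right hpow (by positivity)
    have h3 : 0 < (1 / 4 : ℝ) ^ Δ * s := by positivity
    have h4 : (b : ℝ) * 40 ≤ (1 / 4) ^ Δ * s := by
      have h5 : (b : ℝ) * 40 * tmax ≤ (1 / 4) ^ Δ * s * tmax := by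
        calc (b : ℝ) * 40 * tmax = (b : ℝ) * (40 * tmax) := by ring
          _ ≤ (1 / 4) ^ Δ * n := hb1
          _ ≤ (1 / 4) ^ Δ * (s * tmax) := mul_le_mul_of_nonneg_left hstm hp4.le
          _ = _ := by ring
      exact le_of_mul_le_mul_right h5 htm0
    linarith

/-- **The Ramsey statement for a fixed number of colours.** -/
theorem main_k (k : ℕ) (hk : 2 ≤ k) (Δ : ℕ) : ∃ n0 : ℕ, ∃ β : ℝ, 0 < β ∧ ∀ n : ℕ, n0 ≤ n →
    ∀ b : ℕ, (b : ℝ) ≤ β * n → ∀ H : SimpleGraph (Fin n),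
    (∀ x y, H.Adj x y → y.val ≤ x.val + b) →
    (∀ y, (univ.filter (fun x : Fin n => H.Adj x y)).card ≤ Δ) → H.Colorable k →
    ∀ (W : Type) [Fintype W], Fintype.card W = (k + 8) * n → ∀ G : SimpleGraph W,
    (∃ ψ : Fin n → W, Function.Injective ψ ∧ ∀ x y, H.Adj x y → G.Adj (ψ x) (ψ y)) ∨
    (∃ ψ : Fin n → W, Function.Injective ψ ∧ ∀ x y, H.Adj x y → Gᶜ.Adj (ψ x) (ψ y)) := by
  obtain ⟨ε', hε', hcore⟩ := core k hk
  obtain ⟨ε, hε⟩ : ∃ ε : ℝ, ε = min (ε' / 2) (min (1 / 4)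
    ((1 / 4) ^ Δ / (20 * ((Δ : ℝ) + 1) * (k + 9)))) := ⟨_, rfl⟩
  have hε0 : 0 < ε := by rw [hε]; positivity
  have hε1 : ε ≤ ε' / 2 := by rw [hε]; exact min_le_left _ _
  have hε2 : ε ≤ 1 / 4 := by rw [hε]; exact (min_le_right _ _).trans (min_le_left _ _)
  have hε3 : ε ≤ (1 / 4) ^ Δ / (20 * ((Δ : ℝ) + 1) * (k + 9)) := by
    rw [hε]; exact (min_le_right _ _).trans (min_le_right _ _)
  obtain ⟨tmax, htm, N0, hred⟩ := reduced ε' hε' ε hε0 hε1
  obtain ⟨T, hT⟩ : ∃ T : ℕ, T = tmax ^ k := ⟨_, rfl⟩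
  have htm0 : (0 : ℝ) < tmax := by exact_mod_cast htm
  have hTpos : 1 ≤ T := by rw [hT]; exact Nat.one_le_pow _ _ htm
  have hT0 : (0 : ℝ) < T := by exact_mod_cast hTpos
  obtain ⟨U, hU⟩ : ∃ U : ℝ, U = ((T + 20 * tmax * T : ℕ) : ℝ) := ⟨_, rfl⟩
  have hU0 : 0 < U := by
    rw [hU]
    exact_mod_cast (by omega : 0 < T + 20 * tmax * T)
  obtain ⟨β, hβ⟩ : ∃ β : ℝ, β = min ((1 / 4 : ℝ) ^ Δ / (40 * (tmax : ℝ)))
    (1 / (400 * (tmax : ℝ) ^ 2 * U)) := ⟨_, rfl⟩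
  have hβ0 : 0 < β := by rw [hβ]; positivity
  have hβ1 : β ≤ (1 / 4) ^ Δ / (40 * tmax) := by rw [hβ]; exact min_le_left _ _
  have hβ2 : β ≤ 1 / (400 * (tmax : ℝ) ^ 2 * U) := by rw [hβ]; exact min_le_right _ _
  obtain ⟨n1, hn1⟩ := exists_nat_ge (1 / β)
  refine ⟨n1 + N0 + 10 * tmax, β, hβ0, ?_⟩
  intro n hn b hb H hbw hΔ hcol W _ hW G
  have hn0 : (0 : ℝ) < n := by exact_mod_cast (by omega : 0 < n)
  have hβn : 1 ≤ β * n := by
    rw [div_le_iff₀ hβ0] at hn1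
    have : (n1 : ℝ) ≤ n := by exact_mod_cast (by omega : n1 ≤ n)
    nlinarith
  obtain ⟨V, _, _, A, h1, h2, h3, Rd, Bl, h4, h5, h6⟩ := hred W (by rw [hW]; nlinarith) G
  have hb1 : (b : ℝ) * (40 * tmax) ≤ (1 / 4) ^ Δ * n := by
    rw [le_div_iff₀ (by positivity)] at hβ1
    calc (b : ℝ) * (40 * tmax) ≤ (β * n) * (40 * tmax) := by gcongr
      _ = (β * (40 * tmax)) * n := by ring
      _ ≤ _ := mul_le_mul_of_nonneg_right hβ1 hn0.le
  have hb2 : ((T + 20 * tmax * T) * (b + 1) : ℕ) * (200 * (tmax : ℝ) ^ 2) ≤ n := by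
    rw [le_div_iff₀ (by positivity)] at hβ2
    have e1 : ((((T + 20 * tmax * T) * (b + 1) : ℕ)) : ℝ) = U * (b + 1) := by
      rw [hU]; push_cast; ring
    rw [e1]
    calc U * ((b : ℝ) + 1) * (200 * (tmax : ℝ) ^ 2) ≤
        U * (β * n + β * n) * (200 * (tmax : ℝ) ^ 2) := by gcongr
      _ = (β * (400 * (tmax : ℝ) ^ 2 * U)) * n := by ring
      _ ≤ 1 * n := mul_le_mul_of_nonneg_right hβ2 hn0.le
      _ = n := one_mul _
  by_cases hc : HasCover Rd k (Fintype.card V / ((k : ℝ) + 15 / 2))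
  · right
    have hc2 : ¬ HasCover Bl k (Fintype.card V / ((k : ℝ) + 15 / 2)) := fun hc2 =>
      hcore V Rd Bl h6 hc hc2
    exact finish k hk Δ n b tmax T W V Gᶜ Bl A h2 h3 ε hε0 h5 hc2 hW h1 hT (by omega) hε2 hε3
      hb1 hb2 H hbw hΔ hcol
  · left
    exact finish k hk Δ n b tmax T W V G Rd A h2 h3 ε hε0 h4 hc hW h1 hT (by omega) hε2 hε3
      hb1 hb2 H hbw hΔ hcol

end Pool.Agent.H35.BW
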