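import Mathlib
import Pool.Agent.H35.BW.Main

set_option autoImplicit false

/-!
Greedy colouring, and the Ramsey statement for all numbers of colours at once.
-/

namespace Pool.Agent.H35.BW

open Finset Classical

theorem greedy {n : ℕ} (H : SimpleGraph (Fin n)) (Δ : ℕ)
    (hΔ : ∀ y, (univ.filter (fun x : Fin n => H.Adj x y)).card ≤ Δ) : H.Colorable (Δ + 1) := by
  have key : ∀ t : ℕ, t ≤ n → ∃ c : Fin n → Fin (Δ + 1),
      ∀ x y : Fin n, x.val < t → y.val < t → H.Adj x y → c x ≠ c y := by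
    intro t
    induction t with
    | zero => exact fun _ => ⟨fun _ => 0, fun x y hx => by omega⟩
    | succ t ih =>
      intro ht
      obtain ⟨c, hc⟩ := ih (by omega)
      obtain ⟨x0, hx0⟩ : ∃ x0 : Fin n, x0.val = t := ⟨⟨t, by omega⟩, rfl⟩
      obtain ⟨a, ha⟩ : ∃ a, a ∉ (univ.filter (fun x : Fin n => H.Adj x x0)).image c := by
        by_contra hno
        push Not at hno
        have h1 : (univ : Finset (Fin (Δ + 1))) ⊆
            (univ.filter (fun x : Fin n => H.Adj x x0)).image c := fun a _ => hno a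
        have h2 := (card_le_card h1).trans card_image_le
        rw [card_univ, Fintype.card_fin] at h2
        have := hΔ x0
        omega
      have ha' : ∀ x, H.Adj x x0 → c x ≠ a := by
        intro x hx h
        apply ha
        rw [mem_image]
        exact ⟨x, by simp [hx], h⟩
      have heq0 : ∀ x : Fin n, x.val = t → x = x0 := fun x hx => Fin.ext (by omega)
      have hne0 : ∀ x : Fin n, x.val < t → x ≠ x0 := by
        intro x hx h
        rw [h] at hx
        omega
      refine ⟨Function.update c x0 a, ?_⟩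
      intro x y hx hy hxy
      rcases Nat.lt_succ_iff_lt_or_eq.1 hx with h1 | h1
      · rw [Function.update_of_ne (hne0 x h1)]
        rcases Nat.lt_succ_iff_lt_or_eq.1 hy with h2 | h2
        · rw [Function.update_of_ne (hne0 y h2)]
          exact hc x y h1 h2 hxy
        · rw [heq0 y h2, Function.update_self]
          rw [heq0 y h2] at hxy
          exact ha' x hxy
      · rcases Nat.lt_succ_iff_lt_or_eq.1 hy with h2 | h2
        · rw [heq0 x h1, Function.update_self, Function.update_of_ne (hne0 y h2)]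
          rw [heq0 x h1] at hxy
          exact (ha' y hxy.symm).symm
        · exact absurd (Fin.ext (by omega)) hxy.ne
  obtain ⟨c, hc⟩ := key n le_rfl
  exact ⟨SimpleGraph.Coloring.mk c (fun {x y} hxy => hc x y x.isLt y.isLt hxy)⟩

theorem exists_min (f : ℕ → ℝ) (hf : ∀ k, 0 < f k) (m : ℕ) :
    ∃ β : ℝ, 0 < β ∧ ∀ k, k < m → β ≤ f k := by
  induction m with
  | zero => exact ⟨1, one_pos, fun k hk => by omega⟩
  | succ m ih =>
    obtain ⟨β, h1, h2⟩ := ih
    refine ⟨min β (f m), lt_min h1 (hf m), ?_⟩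
    intro k hk
    rcases Nat.lt_succ_iff_lt_or_eq.1 hk with h | h
    · exact (min_le_left _ _).trans (h2 k h)
    · rw [h]; exact min_le_right _ _

theorem exists_max (f : ℕ → ℕ) (m : ℕ) : ∃ N : ℕ, ∀ k, k < m → f k ≤ N := by
  induction m with
  | zero => exact ⟨0, fun k hk => by omega⟩
  | succ m ih =>
    obtain ⟨β, h2⟩ := ih
    refine ⟨max β (f m), ?_⟩
    intro k hk
    rcases Nat.lt_succ_iff_lt_or_eq.1 hk with h | h
    · exact (h2 k h).trans (le_max_left _ _)
    · rw [h]; exact le_max_right _ _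

/-- **The Ramsey statement**, for a chromatic number `k`. -/
theorem main (Δ : ℕ) : ∃ n0 : ℕ, ∃ β : ℝ, 0 < β ∧ ∀ n : ℕ, n0 ≤ n →
    ∀ b : ℕ, (b : ℝ) ≤ β * n → ∀ H : SimpleGraph (Fin n),
    (∀ x y, H.Adj x y → y.val ≤ x.val + b) →
    (∀ y, (univ.filter (fun x : Fin n => H.Adj x y)).card ≤ Δ) →
    ∀ k : ℕ, k ≤ Δ + 1 → H.Colorable k →
    ∀ (W : Type) [Fintype W], Fintype.card W = (k + 8) * n → ∀ G : SimpleGraph W,
    (∃ ψ : Fin n → W, Function.Injective ψ ∧ ∀ x y, H.Adj x y → G.Adj (ψ x) (ψ y)) ∨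
    (∃ ψ : Fin n → W, Function.Injective ψ ∧ ∀ x y, H.Adj x y → Gᶜ.Adj (ψ x) (ψ y)) := by
  have h1 := fun k : ℕ => main_k (k + 2) (by omega) Δ
  choose n0 β hβ h2 using h1
  obtain ⟨β0, hβ0, hβ1⟩ := exists_min β hβ Δ
  obtain ⟨N, hN⟩ := exists_max n0 Δ
  refine ⟨N, β0, hβ0, ?_⟩
  intro n hn b hb H hbw hΔ k hk hcol W _ hW G
  by_cases hk2 : 2 ≤ k
  · obtain ⟨j, rfl⟩ : ∃ j, k = j + 2 := ⟨k - 2, by omega⟩
    refine h2 j n ((hN j (by omega)).trans hn) b ?_ H hbw hΔ hcol W hW G
    refine hb.trans ?_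
    exact mul_le_mul_of_nonneg_right (hβ1 j (by omega)) (Nat.cast_nonneg _)
  · have hcol1 : H.Colorable 1 := hcol.mono (by omega)
    obtain ⟨C⟩ := hcol1
    have hno : ∀ x y, ¬ H.Adj x y := by
      intro x y hxy
      exact C.valid hxy (Subsingleton.elim _ _)
    left
    have hle : Fintype.card (Fin n) ≤ Fintype.card W := by
      rw [hW, Fintype.card_fin]
      nlinarith
    obtain ⟨ψ⟩ := Function.Embedding.nonempty_of_card_le hle
    exact ⟨ψ, ψ.injective, fun x y hxy => absurd hxy (hno x y)⟩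

end Pool.Agent.H35.BW
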